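import Mathlib

set_option autoImplicit false

/-!
Definitions used in the statements of the two hand-ins for the problem on compact sets with
rational gaps.
-/

namespace Pool.Agent.Helper50.Gaps

open Set Real Filter Topology MeasureTheory Polynomial

/-! ### Logarithmic potential theory -/

/-- The measure `ν` on `ℝ` has finite logarithmic energy: the diagonal is a null set for `ν × ν`
and `log |x - y|` is `ν × ν`-integrable. -/
def HasFiniteEnergy (ν : Measure ℝ) : Prop :=
  (ν.prod ν) {p : ℝ × ℝ | p.1 = p.2} = 0 ∧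
    Integrable (fun p : ℝ × ℝ => Real.log |p.1 - p.2|) (ν.prod ν)

/-- Logarithmic energy `∬ log (1/|x-y|) dν(x) dν(y)` of a measure of finite energy. -/
noncomputable def logEnergy (ν : Measure ℝ) : ℝ :=
  ∫ p : ℝ × ℝ, -Real.log |p.1 - p.2| ∂(ν.prod ν)

/-- `μ` is an equilibrium measure of `K`: a probability measure on `K` of finite logarithmic
energy whose energy is minimal among the probability measures on `K` of finite energy. -/
def IsEquilibriumMeasure (K : Set ℝ) (μ : Measure ℝ) : Prop :=
  IsProbabilityMeasure μ ∧ μ Kᶜ = 0 ∧ HasFiniteEnergy μ ∧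
    ∀ ν : Measure ℝ, IsProbabilityMeasure ν → ν Kᶜ = 0 → HasFiniteEnergy ν →
      logEnergy μ ≤ logEnergy ν

/-- `K` is non-polar: it carries a probability measure of finite logarithmic energy. -/
def IsNonPolar (K : Set ℝ) : Prop :=
  ∃ ν : Measure ℝ, IsProbabilityMeasure ν ∧ ν Kᶜ = 0 ∧ HasFiniteEnergy ν

/-- `K` is regular for the Dirichlet problem in the complement of `K` in the Riemann sphere: the
Green function of the complement with pole at infinity exists and tends to zero at every point of
`K`. That is, there is a continuous `g : ℂ → ℝ`, zero on `K`, harmonic off `K`, such that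
`g z - log |z|` has a finite limit as `z → ∞`. -/
def IsRegularSet (K : Set ℝ) : Prop :=
  ∃ g : ℂ → ℝ, Continuous g ∧ (∀ x ∈ K, g (x : ℂ) = 0) ∧
    (∀ z : ℂ, z ∉ Complex.ofReal '' K → InnerProductSpace.HarmonicAt g z) ∧
    ∃ V : ℝ, Tendsto (fun z : ℂ => g z - Real.log ‖z‖) (cocompact ℂ) (𝓝 V)

/-- `K` has rational gaps: it has a unique equilibrium measure `μ`, and `μ [min K, c]` is rational
for every real `c ∉ K`. -/
def RationalGaps (K : Set ℝ) : Prop :=
  ∃ μ : Measure ℝ, IsEquilibriumMeasure K μ ∧ (∀ ν : Measure ℝ, IsEquilibriumMeasure K ν → ν = μ) ∧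
    ∀ c : ℝ, c ∉ K → ∃ q : ℚ, (μ (Icc (sInf K) c)).toReal = q

/-! ### Julia sets of sequences of polynomials -/

/-- The uniform structure of the Riemann sphere `OnePoint ℂ`: the unique uniform structure
compatible with its compact Hausdorff topology (that is, the one of the chordal metric). -/
@[reducible] noncomputable def sphereUniformity : UniformSpace (OnePoint ℂ) :=
  uniformSpaceOfCompactR1

attribute [local instance] sphereUniformity

/-- A polynomial as a self-map of the Riemann sphere, with `∞ ↦ ∞`. -/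
noncomputable def polyMap (f : ℂ[X]) : OnePoint ℂ → OnePoint ℂ := OnePoint.map fun z => f.eval z

/-- `iterSphere f n = f n ∘ f (n-1) ∘ ⋯ ∘ f 0` on the Riemann sphere. -/
noncomputable def iterSphere (f : ℕ → ℂ[X]) : ℕ → OnePoint ℂ → OnePoint ℂ
  | 0 => polyMap (f 0)
  | n + 1 => polyMap (f (n + 1)) ∘ iterSphere f n

/-- A sequence `Φ` of self-maps of the sphere is a normal family on `U` (Montel): every sequence
of members has a subsequence converging locally uniformly on `U` (for the uniform structure of the
sphere). -/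
def IsNormalOn (Φ : ℕ → OnePoint ℂ → OnePoint ℂ) (U : Set (OnePoint ℂ)) : Prop :=
  ∀ s : ℕ → ℕ, ∃ φ : ℕ → ℕ, StrictMono φ ∧ ∃ G : OnePoint ℂ → OnePoint ℂ,
    TendstoLocallyUniformlyOn (fun k => Φ (s (φ k))) G atTop U

/-- The Fatou set of the sequence `f`: points of the sphere with an open neighbourhood on which
the sequence `iterSphere f` is a normal family. -/
def fatouSet (f : ℕ → ℂ[X]) : Set (OnePoint ℂ) :=
  {x | ∃ U : Set (OnePoint ℂ), IsOpen U ∧ x ∈ U ∧ IsNormalOn (iterSphere f) U}

/-- The Julia set of the sequence `f`. -/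
def juliaSet (f : ℕ → ℂ[X]) : Set (OnePoint ℂ) := (fatouSet f)ᶜ

/-! ### Admissible real polynomials -/

/-- Admissible polynomials: degree at least two, all zeros real and simple, and `|T y| ≥ 1` at
every critical point `y` (all of which are real). -/
def Admissible (T : ℝ[X]) : Prop :=
  2 ≤ T.natDegree ∧ T.roots.Nodup ∧ Multiset.card T.roots = T.natDegree ∧
    ∀ y : ℝ, T.derivative.eval y = 0 → 1 ≤ |T.eval y|

/-- `iterPoly f n = f n ∘ f (n-1) ∘ ⋯ ∘ f 0` as a polynomial. -/
noncomputable def iterPoly (f : ℕ → ℝ[X]) : ℕ → ℝ[X]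
  | 0 => f 0
  | n + 1 => (f (n + 1)).comp (iterPoly f n)

end Pool.Agent.Helper50.Gaps
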