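import Mathlib
import Pool.Agent.Helper50.Gaps.Defs

set_option autoImplicit false

namespace Pool.Agent.Helper50.Gaps

open Set Filter Topology Polynomial

attribute [local instance] sphereUniformity

theorem polyMap_coe (f : ℂ[X]) (z : ℂ) : polyMap f (z : OnePoint ℂ) = ((f.eval z : ℂ) : OnePoint ℂ) :=
  rfl

theorem iterSphere_succ (f : ℕ → ℂ[X]) (n : ℕ) :
    iterSphere f (n + 1) = iterSphere (fun k => f (k + 1)) n ∘ polyMap (f 0) := by
  induction n with
  | zero => rfl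
  | succ n ih =>
    change polyMap (f (n + 1 + 1)) ∘ iterSphere f (n + 1) = _
    rw [ih]
    rfl

theorem nhds_le_map_eval (F : ℂ[X]) (hF : 1 ≤ F.natDegree) (z : ℂ) :
    𝓝 (F.eval z) ≤ map (fun w => F.eval w) (𝓝 z) := by
  have han : AnalyticAt ℂ (fun w => F.eval w) z :=
    (AnalyticOnNhd.eval_polynomial _) _ (mem_univ _)
  rcases han.eventually_constant_or_nhds_le_map_nhds with h | h
  · exfalso
    have h1 : F = C (F.eval z) := by
      apply Polynomial.eq_of_infinite_eval_eq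
      apply infinite_of_mem_nhds (z : ℂ)
      filter_upwards [h] with w hw
      change F.eval w = (C (F.eval z)).eval w
      rw [Polynomial.eval_C]
      exact hw
    rw [h1, Polynomial.natDegree_C] at hF
    omega
  · exact h

theorem mem_fatou_of_image (f : ℕ → ℂ[X]) (z : ℂ)
    (h : (((f 0).eval z : ℂ) : OnePoint ℂ) ∈ fatouSet fun k => f (k + 1)) :
    (z : OnePoint ℂ) ∈ fatouSet f := by
  obtain ⟨U, hU, hzU, hnorm⟩ := h
  have hcont : Continuous fun w : ℂ => (((f 0).eval w : ℂ) : OnePoint ℂ) :=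
    OnePoint.continuous_coe.comp (f 0).continuous
  set V0 : Set ℂ := (fun w : ℂ => (((f 0).eval w : ℂ) : OnePoint ℂ)) ⁻¹' U with hV0
  have hV0o : IsOpen V0 := hU.preimage hcont
  set V : Set (OnePoint ℂ) := (fun w : ℂ => (w : OnePoint ℂ)) '' V0 with hV
  have hVo : IsOpen V := OnePoint.isOpenEmbedding_coe.isOpenMap _ hV0o
  refine ⟨V, hVo, ⟨z, hzU, rfl⟩, ?_⟩
  intro s
  by_cases hs : ∃ᶠ k in atTop, s k = 0
  · obtain ⟨φ, hφ, hφ0⟩ := extraction_of_frequently_atTop hs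
    refine ⟨φ, hφ, iterSphere f 0, ?_⟩
    intro u hu x _
    refine ⟨univ, univ_mem, Eventually.of_forall fun k y _ => ?_⟩
    simp only [hφ0 k]
    exact refl_mem_uniformity hu
  · rw [not_frequently, eventually_atTop] at hs
    obtain ⟨k0, hk0⟩ := hs
    obtain ⟨φ, hφ, G, hG⟩ := hnorm fun k => s (k + k0) - 1
    refine ⟨fun k => φ k + k0, fun a b hab => by simpa using hφ hab, G ∘ polyMap (f 0), ?_⟩
    have hmaps : MapsTo (polyMap (f 0)) V U := by
      rintro _ ⟨w, hw, rfl⟩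
      exact hw
    have hcontV : ContinuousOn (polyMap (f 0)) V := by
      rintro _ ⟨w, hw, rfl⟩
      apply ContinuousAt.continuousWithinAt
      have h1 : Tendsto (fun w : ℂ => polyMap (f 0) (w : OnePoint ℂ)) (𝓝 w)
          (𝓝 (polyMap (f 0) (w : OnePoint ℂ))) := hcont.tendsto w
      change Tendsto (polyMap (f 0)) (𝓝 (w : OnePoint ℂ)) _
      rw [OnePoint.nhds_coe_eq]
      exact h1
    have hcomp := hG.comp (polyMap (f 0)) hmaps hcontV
    have e : (fun k => iterSphere f (s (φ k + k0))) = fun k =>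
        iterSphere (fun k => f (k + 1)) (s (φ k + k0) - 1) ∘ polyMap (f 0) := by
      funext k
      have h1 : s (φ k + k0) ≠ 0 := hk0 _ (by omega)
      obtain ⟨m, hm⟩ := Nat.exists_eq_succ_of_ne_zero h1
      rw [hm, Nat.succ_sub_one]
      exact iterSphere_succ f m
    rw [e]
    exact hcomp

theorem image_mem_fatou (f : ℕ → ℂ[X]) (hf : 1 ≤ (f 0).natDegree) (z : ℂ)
    (h : (z : OnePoint ℂ) ∈ fatouSet f) :
    (((f 0).eval z : ℂ) : OnePoint ℂ) ∈ fatouSet fun k => f (k + 1) := by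
  obtain ⟨U, hU, hzU, hnorm⟩ := h
  set U0 : Set ℂ := (fun w : ℂ => (w : OnePoint ℂ)) ⁻¹' U with hU0
  have hU0o : IsOpen U0 := hU.preimage OnePoint.continuous_coe
  -- openness
  have hopen : ∀ w : ℂ, ∀ A ∈ 𝓝 w,
      (fun w : ℂ => (((f 0).eval w : ℂ) : OnePoint ℂ)) '' A ∈
        𝓝 (((f 0).eval w : ℂ) : OnePoint ℂ) := by
    intro w A hA
    have h1 : (fun w => (f 0).eval w) '' A ∈ 𝓝 ((f 0).eval w) :=
      nhds_le_map_eval (f 0) hf w (image_mem_map hA)
    have h2 := OnePoint.isOpenEmbedding_coe.isOpenMap.image_mem_nhds h1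
    rw [image_image] at h2
    exact h2
  set V : Set (OnePoint ℂ) := (fun w : ℂ => (((f 0).eval w : ℂ) : OnePoint ℂ)) '' U0 with hV
  have hVo : IsOpen V := by
    rw [isOpen_iff_mem_nhds]
    rintro _ ⟨w, hw, rfl⟩
    exact hopen w U0 (hU0o.mem_nhds hw)
  refine ⟨V, hVo, ⟨z, hzU, rfl⟩, ?_⟩
  intro s
  obtain ⟨φ, hφ, G, hG⟩ := hnorm fun k => s k + 1
  classical
  set G' : OnePoint ℂ → OnePoint ℂ := fun y =>
    if h : ∃ w ∈ U0, (((f 0).eval w : ℂ) : OnePoint ℂ) = y then G (h.choose : ℂ) else y with hG'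
  refine ⟨φ, hφ, G', ?_⟩
  have hfun : ∀ k, ∀ w : ℂ, iterSphere f (s (φ k) + 1) (w : OnePoint ℂ) =
      iterSphere (fun k => f (k + 1)) (s (φ k)) (((f 0).eval w : ℂ) : OnePoint ℂ) := by
    intro k w
    rw [iterSphere_succ]
    rfl
  have hpt : ∀ w ∈ U0, Tendsto (fun k => iterSphere (fun k => f (k + 1)) (s (φ k))
      (((f 0).eval w : ℂ) : OnePoint ℂ)) atTop (𝓝 (G (w : OnePoint ℂ))) := by
    intro w hw
    have h1 := hG.tendsto_at (a := (w : OnePoint ℂ)) hw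
    refine h1.congr fun k => ?_
    exact hfun k w
  have hGval : ∀ w ∈ U0, G' (((f 0).eval w : ℂ) : OnePoint ℂ) = G (w : OnePoint ℂ) := by
    intro w hw
    have hex : ∃ v ∈ U0, (((f 0).eval v : ℂ) : OnePoint ℂ) = (((f 0).eval w : ℂ) : OnePoint ℂ) :=
      ⟨w, hw, rfl⟩
    simp only [hG']
    rw [dif_pos hex]
    have h1 := hpt hex.choose hex.choose_spec.1
    rw [hex.choose_spec.2] at h1
    exact tendsto_nhds_unique h1 (hpt w hw)
  intro u hu y hy
  obtain ⟨w, hw, rfl⟩ := hy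
  obtain ⟨t0, ht0, hev⟩ := hG u hu (w : OnePoint ℂ) hw
  have ht0' : (fun v : ℂ => (v : OnePoint ℂ)) ⁻¹' (t0 ∩ U) ∈ 𝓝 w := by
    have h1 : t0 ∩ U ∈ 𝓝 (w : OnePoint ℂ) := by
      rw [hU.nhdsWithin_eq hw] at ht0
      exact inter_mem ht0 (hU.mem_nhds hw)
    exact OnePoint.continuous_coe.continuousAt.preimage_mem_nhds h1
  refine ⟨_, mem_nhdsWithin_of_mem_nhds (hopen w _ ht0'), ?_⟩
  filter_upwards [hev] with k hk
  rintro _ ⟨v, hv, rfl⟩
  have h1 := hk (v : OnePoint ℂ) hv.1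
  simp only
  rw [hGval v hv.2, ← hfun k v]
  exact h1

/-- Invariance of Julia sets. -/
theorem mem_julia_iff (f : ℕ → ℂ[X]) (hf : 1 ≤ (f 0).natDegree) (z : ℂ) :
    (((f 0).eval z : ℂ) : OnePoint ℂ) ∈ juliaSet (fun k => f (k + 1)) ↔
      (z : OnePoint ℂ) ∈ juliaSet f := by
  unfold juliaSet
  rw [mem_compl_iff, mem_compl_iff, not_iff_not]
  exact ⟨mem_fatou_of_image f z, image_mem_fatou f hf z⟩

end Pool.Agent.Helper50.Gaps
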