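import Mathlib
import Pool.Agent.Helper50.Gaps.Julia

set_option autoImplicit false

namespace Pool.Agent.Helper50.Gaps

open Set Filter Topology Polynomial

theorem aeval_eq_eval_map (T : ℝ[X]) (z : ℂ) : aeval z T = (T.map Complex.ofRealHom).eval z := by
  rw [Polynomial.eval_map]
  rfl

theorem aeval_real (T : ℝ[X]) (x : ℝ) : aeval (x : ℂ) T = ((T.eval x : ℝ) : ℂ) :=
  Polynomial.aeval_algebraMap_apply_eq_algebraMap_eval x T

/-- If `T - c` has `natDegree T` distinct real roots then all its complex roots are real. -/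
theorem all_real_of_finset (T : ℝ[X]) (hT : 1 ≤ T.natDegree) (c : ℝ) (F : Finset ℝ)
    (hF : ∀ x ∈ F, T.eval x = c) (hcard : T.natDegree ≤ F.card) (z : ℂ)
    (hz : aeval z T = (c : ℂ)) : z.im = 0 := by
  set Q : ℂ[X] := (T - C c).map Complex.ofRealHom with hQ
  have hQdeg : Q.natDegree = T.natDegree := by
    rw [hQ, Polynomial.natDegree_map, Polynomial.natDegree_sub_C]
  have hQ0 : Q ≠ 0 := by
    intro h; rw [h, Polynomial.natDegree_zero] at hQdeg; omega
  set F' : Finset ℂ := F.image Complex.ofReal with hF'
  have hF'card : F'.card = F.card :=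
    Finset.card_image_of_injective _ Complex.ofReal_injective
  have hroots : Q.roots = F'.val := by
    symm
    apply Multiset.eq_of_le_of_card_le
    · rw [Multiset.le_iff_subset F'.nodup]
      intro x hx
      rw [Finset.mem_val, hF', Finset.mem_image] at hx
      obtain ⟨y, hy, rfl⟩ := hx
      rw [Polynomial.mem_roots hQ0, Polynomial.IsRoot.def, hQ, ← aeval_eq_eval_map, aeval_real]
      simp [hF y hy]
    · calc Multiset.card Q.roots ≤ Q.natDegree := Polynomial.card_roots' _
        _ = T.natDegree := hQdeg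
        _ ≤ F.card := hcard
        _ = Multiset.card F'.val := by rw [Finset.card_val, hF'card]
  have hzr : z ∈ Q.roots := by
    rw [Polynomial.mem_roots hQ0, Polynomial.IsRoot.def, hQ, ← aeval_eq_eval_map, map_sub, hz,
      Polynomial.aeval_C]
    simp
  rw [hroots, Finset.mem_val, hF', Finset.mem_image] at hzr
  obtain ⟨y, _, rfl⟩ := hzr
  simp

/-- Complex preimages of `[-1,1]` under admissible polynomials are real. -/
theorem Admissible.real_preimage {T : ℝ[X]} (h : Admissible T) {z : ℂ} {c : ℝ} (hc : |c| ≤ 1)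
    (hz : aeval z T = (c : ℂ)) : z.im = 0 := by
  obtain ⟨hdeg, hnodup, hcard, hcrit⟩ := h
  set S : Set ℝ := {c | ∀ z : ℂ, aeval z T = (c : ℂ) → z.im = 0} with hS
  have hmapdeg : (T.map Complex.ofRealHom).natDegree = T.natDegree := by
    rw [Polynomial.natDegree_map]
  -- closed
  have hclosed : IsClosed S := by
    rw [← isOpen_compl_iff, isOpen_iff_mem_nhds]
    intro c0 hc0
    rw [mem_compl_iff, hS, mem_ofPred_eq] at hc0
    push Not at hc0
    obtain ⟨z0, hz0, him⟩ := hc0
    have h1 : {z : ℂ | z.im ≠ 0} ∈ 𝓝 z0 :=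
      (isOpen_ne_fun Complex.continuous_im continuous_const).mem_nhds him
    have h2 := nhds_le_map_eval (T.map Complex.ofRealHom) (by omega) z0 (image_mem_map h1)
    rw [← aeval_eq_eval_map, hz0] at h2
    have h3 := Complex.continuous_ofReal.continuousAt.preimage_mem_nhds h2
    filter_upwards [h3] with c1 hc1
    obtain ⟨z1, hz1, hz2⟩ := hc1
    intro hcon
    apply hz1
    apply hcon z1
    rw [aeval_eq_eval_map]
    exact hz2
  -- open
  have hopen : ∀ c0 ∈ S, |c0| < 1 → S ∈ 𝓝 c0 := by
    intro c0 hc0 hc01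
    set Q : ℂ[X] := (T - C c0).map Complex.ofRealHom with hQ
    have hQdeg : Q.natDegree = T.natDegree := by
      rw [hQ, Polynomial.natDegree_map, Polynomial.natDegree_sub_C]
    have hQ0 : Q ≠ 0 := by
      intro h; rw [h, Polynomial.natDegree_zero] at hQdeg; omega
    have hQcard : Multiset.card Q.roots = T.natDegree := by
      rw [← hQdeg]
      exact Polynomial.splits_iff_card_roots.1 (IsAlgClosed.splits Q)
    have hQreal : ∀ r ∈ Q.roots, ∃ x : ℝ, r = x ∧ T.eval x = c0 := by
      intro r hr
      rw [Polynomial.mem_roots hQ0, Polynomial.IsRoot.def, hQ, ← aeval_eq_eval_map, map_sub,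
        Polynomial.aeval_C, sub_eq_zero] at hr
      have him : r.im = 0 := hc0 r hr
      refine ⟨r.re, Complex.ext rfl (by simpa using him), ?_⟩
      have hre : r = ((r.re : ℝ) : ℂ) := Complex.ext rfl (by simpa using him)
      rw [hre, aeval_real] at hr
      exact Complex.ofReal_injective hr
    have hsimple : ∀ x : ℝ, T.eval x = c0 → T.derivative.eval x ≠ 0 := by
      intro x hx h0
      have := hcrit x h0
      rw [hx] at this
      linarith
    have hQnodup : Q.roots.Nodup := by
      rw [Polynomial.nodup_roots_iff_of_splits hQ0 (IsAlgClosed.splits Q)]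
      rw [Polynomial.separable_def]
      have : ∀ r, ¬ (Q.IsRoot r ∧ Q.derivative.IsRoot r) := by
        rintro r ⟨h1, h2⟩
        obtain ⟨x, rfl, hx⟩ := hQreal r ((Polynomial.mem_roots hQ0).2 h1)
        apply hsimple x hx
        rw [Polynomial.IsRoot.def, hQ, Polynomial.derivative_map, ← aeval_eq_eval_map,
          aeval_real] at h2
        simpa using h2
      rw [Polynomial.isCoprime_iff_aeval_ne_zero_of_isAlgClosed ℂ ℂ]
      intro r
      by_contra hcon
      push Not at hcon
      exact this r (by simpa using hcon)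
    set F0 : Finset ℝ := Q.roots.toFinset.image Complex.re with hF0
    have hF0card : F0.card = T.natDegree := by
      rw [hF0, Finset.card_image_of_injOn, Multiset.toFinset_card_of_nodup hQnodup, hQcard]
      intro a ha b hb hab
      simp only [Multiset.mem_toFinset, SetLike.mem_coe] at ha hb
      obtain ⟨x, rfl, _⟩ := hQreal a ha
      obtain ⟨y, rfl, _⟩ := hQreal b hb
      simpa using hab
    have hF0val : ∀ x ∈ F0, T.eval x = c0 := by
      intro x hx
      rw [hF0, Finset.mem_image] at hx
      obtain ⟨r, hr, rfl⟩ := hx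
      rw [Multiset.mem_toFinset] at hr
      obtain ⟨y, rfl, hy⟩ := hQreal r hr
      simpa using hy
    obtain ⟨U, hU, hdisj⟩ := F0.finite_toSet.t2_separation
    have hev : ∀ x ∈ F0, ∀ᶠ c in 𝓝 c0, c ∈ (fun t => T.eval t) '' (U x) := by
      intro x hx
      have h1 : map (fun t => T.eval t) (𝓝 x) = 𝓝 (T.eval x) :=
        (T.hasStrictDerivAt x).map_nhds_eq (hsimple x (hF0val x hx))
      rw [hF0val x hx] at h1
      rw [← h1]
      exact image_mem_map ((hU x).2.mem_nhds (hU x).1)
    have hev2 := (eventually_all_finset F0).2 hev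
    filter_upwards [hev2] with c hc
    choose! g hg using hc
    have hinj : Set.InjOn g F0 := by
      intro a ha b hb hab
      by_contra hne
      have h1 := hdisj ha hb hne
      rw [Function.onFun, Set.disjoint_left] at h1
      apply h1 (hg a ha).1
      rw [hab]
      exact (hg b hb).1
    intro z hz
    refine all_real_of_finset T (by omega) c (F0.image g) ?_ ?_ z hz
    · intro x hx
      rw [Finset.mem_image] at hx
      obtain ⟨a, ha, rfl⟩ := hx
      exact (hg a ha).2
    · rw [Finset.card_image_of_injOn hinj, hF0card]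
  have h0 : (0 : ℝ) ∈ S := by
    intro z hz
    refine all_real_of_finset T (by omega) 0 T.roots.toFinset ?_ ?_ z hz
    · intro x hx
      rw [Multiset.mem_toFinset] at hx
      exact (Polynomial.mem_roots'.1 hx).2
    · rw [Multiset.toFinset_card_of_nodup hnodup, hcard]
  have hIoo : Ioo (-1 : ℝ) 1 ⊆ interior S := by
    apply isPreconnected_Ioo.subset_of_closure_inter_subset isOpen_interior
    · exact ⟨0, ⟨by norm_num, by norm_num⟩, mem_interior_iff_mem_nhds.2 (hopen 0 h0 (by simp))⟩
    · rintro c ⟨h1, h2⟩
      have h3 : c ∈ S := hclosed.closure_interior_subset h1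
      exact mem_interior_iff_mem_nhds.2 (hopen c h3 (abs_lt.2 h2))
  have hIcc : Icc (-1 : ℝ) 1 ⊆ S := by
    rw [← closure_Ioo (by norm_num)]
    exact hclosed.closure_subset_iff.2 (hIoo.trans interior_subset)
  exact hIcc (abs_le.1 hc) z hz

end Pool.Agent.Helper50.Gaps
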