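import Mathlib

set_option autoImplicit false

namespace Pool.Agent.Helper50.Gaps

open Set Real Filter Topology

/-- half of the sum of the distances to the foci `±1` -/
noncomputable def sJ (w : ℂ) : ℝ := (‖w - 1‖ + ‖w + 1‖) / 2

/-- the Green function of the complement of `[-1,1]` -/
noncomputable def J (w : ℂ) : ℝ := Real.log (sJ w + √(sJ w ^ 2 - 1))

theorem one_le_sJ (w : ℂ) : 1 ≤ sJ w := by
  unfold sJ
  have h : ‖(w + 1) - (w - 1)‖ ≤ ‖w + 1‖ + ‖w - 1‖ := norm_sub_le _ _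
  have h2 : (w + 1) - (w - 1) = 2 := by ring
  rw [h2] at h
  have h3 : ‖(2 : ℂ)‖ = 2 := by norm_num
  rw [h3] at h
  linarith

theorem J_continuous : Continuous J := by
  unfold J
  have h : Continuous sJ := by unfold sJ; fun_prop
  refine Continuous.log (by fun_prop) fun w => ?_
  have := one_le_sJ w
  have := Real.sqrt_nonneg (sJ w ^ 2 - 1)
  positivity

theorem J_nonneg (w : ℂ) : 0 ≤ J w := by
  unfold J
  apply Real.log_nonneg
  have := one_le_sJ w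
  have := Real.sqrt_nonneg (sJ w ^ 2 - 1)
  linarith

theorem J_of_mem {x : ℝ} (h : |x| ≤ 1) : J (x : ℂ) = 0 := by
  have hs : sJ (x : ℂ) = 1 := by
    unfold sJ
    rw [abs_le] at h
    have e1 : ((x : ℂ) - 1) = ((x - 1 : ℝ) : ℂ) := by push_cast; ring
    have e2 : ((x : ℂ) + 1) = ((x + 1 : ℝ) : ℂ) := by push_cast; ring
    rw [e1, e2, Complex.norm_real, Complex.norm_real, Real.norm_eq_abs, Real.norm_eq_abs,
      abs_of_nonpos (by linarith), abs_of_nonneg (by linarith)]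
    ring
  unfold J
  rw [hs]
  simp

/-- the Joukowski parametrisation -/
theorem exists_joukowski (w : ℂ) : ∃ ζ : ℂ, 1 ≤ ‖ζ‖ ∧ ζ ^ 2 - 2 * w * ζ + 1 = 0 := by
  obtain ⟨r, hr⟩ : ∃ r : ℂ, r ^ 2 = w ^ 2 - 1 := IsAlgClosed.exists_pow_nat_eq _ (by norm_num)
  have h1 : (w + r) ^ 2 - 2 * w * (w + r) + 1 = 0 := by linear_combination hr
  have h2 : (w - r) ^ 2 - 2 * w * (w - r) + 1 = 0 := by linear_combination hr
  have h3 : (w + r) * (w - r) = 1 := by linear_combination -hr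
  rcases le_total 1 ‖w + r‖ with h | h
  · exact ⟨_, h, h1⟩
  · refine ⟨w - r, ?_, h2⟩
    have h4 : ‖w + r‖ * ‖w - r‖ = 1 := by rw [← norm_mul, h3, norm_one]
    by_contra hcon
    rw [not_le] at hcon
    have := norm_nonneg (w - r)
    nlinarith [norm_nonneg (w + r)]

theorem norm_sq_form (ζ w : ℂ) (h : ζ ^ 2 - 2 * w * ζ + 1 = 0) :
    ‖w - 1‖ * (2 * ‖ζ‖) = ‖ζ - 1‖ ^ 2 ∧ ‖w + 1‖ * (2 * ‖ζ‖) = ‖ζ + 1‖ ^ 2 := by
  have h2 : ‖(2 : ℂ)‖ = 2 := by norm_num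
  constructor
  · rw [← norm_pow, ← h2, ← norm_mul, ← norm_mul]
    congr 1
    linear_combination -h
  · rw [← norm_pow, ← h2, ← norm_mul, ← norm_mul]
    congr 1
    linear_combination -h

theorem J_joukowski (ζ w : ℂ) (h1 : 1 ≤ ‖ζ‖) (h : ζ ^ 2 - 2 * w * ζ + 1 = 0) :
    J w = Real.log ‖ζ‖ := by
  obtain ⟨e1, e2⟩ := norm_sq_form ζ w h
  have hpos : 0 < ‖ζ‖ := by linarith
  have e3 : ‖ζ - 1‖ ^ 2 + ‖ζ + 1‖ ^ 2 = 2 * (‖ζ‖ ^ 2 + 1) := by
    have := parallelogram_law_with_norm ℝ ζ 1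
    rw [norm_one] at this
    nlinarith [this]
  have hs : sJ w = (‖ζ‖ + 1 / ‖ζ‖) / 2 := by
    unfold sJ
    field_simp
    nlinarith
  have hsq : sJ w ^ 2 - 1 = ((‖ζ‖ - 1 / ‖ζ‖) / 2) ^ 2 := by
    rw [hs]; field_simp; ring
  have hinv : 1 / ‖ζ‖ ≤ 1 := by
    rw [div_le_one hpos]; exact h1
  unfold J
  rw [hsq, Real.sqrt_sq (by linarith), hs]
  congr 1
  ring

end Pool.Agent.Helper50.Gaps
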