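import Mathlib
import Pool.Agent.Helper50.Gaps.J

set_option autoImplicit false

namespace Pool.Agent.Helper50.Gaps

open Set Real Filter Topology MeasureTheory

theorem circle_log (ζ : ℂ) (hζ : 1 ≤ ‖ζ‖) :
    ∫ θ in (0 : ℝ)..(2 * π), Real.log ‖circleMap 0 1 θ - ζ‖ = 2 * π * Real.log ‖ζ‖ := by
  have h := circleAverage_log_norm_sub_const_eq_posLog (a := ζ)
  rw [Real.circleAverage_def, Real.posLog_eq_log (by rw [abs_of_nonneg (norm_nonneg _)]; exact hζ),
    smul_eq_mul] at h
  have hpi := Real.pi_pos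
  field_simp at h
  linarith

/-- The arcsine integral. -/
theorem arcsine (w : ℂ) (hw : ∀ θ : ℝ, w ≠ Real.cos θ) :
    ∫ α in (0 : ℝ)..1, Real.log ‖w - Real.cos (π * α)‖ = J w - Real.log 2 := by
  obtain ⟨ζ, hζ1, hζ⟩ := exists_joukowski w
  have hζ0 : ζ ≠ 0 := by
    intro h; rw [h, norm_zero] at hζ1; linarith
  have hne : ∀ θ : ℝ, circleMap 0 1 θ - ζ ≠ 0 := by
    intro θ h
    apply hw θ
    have h1 : ζ = Complex.exp (θ * Complex.I) := by
      rw [sub_eq_zero] at h
      rw [← h]
      simp [circleMap]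
    have h2 : w = (ζ + ζ⁻¹) / 2 := by
      field_simp
      linear_combination -hζ
    rw [h2, h1, ← Complex.exp_neg, Complex.ofReal_cos, Complex.cos, neg_mul]
  set A : ℝ → ℝ := fun θ => Real.log ‖circleMap 0 1 θ - ζ‖ with hA
  have hAc : Continuous A := by
    refine Continuous.log ?_ fun θ => ?_
    · have := continuous_circleMap (0 : ℂ) 1
      fun_prop
    · exact norm_ne_zero_iff.2 (hne θ)
  have hsplit : ∀ θ : ℝ, Real.log ‖w - Real.cos θ‖ =
      A θ + A (-θ) - (Real.log 2 + Real.log ‖ζ‖) := by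
    intro θ
    have h1 : (circleMap 0 1 θ - ζ) * (circleMap 0 1 (-θ) - ζ) = 2 * ζ * (w - Real.cos θ) := by
      have e1 : circleMap 0 1 θ = Complex.exp (θ * Complex.I) := by simp [circleMap]
      have e2 : circleMap 0 1 (-θ) = Complex.exp (-(θ * Complex.I)) := by simp [circleMap]
      have e3 : Complex.exp (θ * Complex.I) * Complex.exp (-(θ * Complex.I)) = 1 := by
        rw [← Complex.exp_add]; simp
      have e4 : 2 * ((Real.cos θ : ℝ) : ℂ) = Complex.exp (θ * Complex.I) +
          Complex.exp (-(θ * Complex.I)) := by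
        rw [Complex.ofReal_cos, Complex.cos, neg_mul]; ring
      rw [e1, e2]
      linear_combination e3 + ζ * e4 + hζ
    have h2 : w - Real.cos θ ≠ 0 := sub_ne_zero.2 (hw θ)
    have h3 : ‖circleMap 0 1 θ - ζ‖ * ‖circleMap 0 1 (-θ) - ζ‖ =
        2 * ‖ζ‖ * ‖w - Real.cos θ‖ := by
      rw [← norm_mul, h1, norm_mul, norm_mul]; norm_num
    have h4 := congrArg Real.log h3
    rw [Real.log_mul (norm_ne_zero_iff.2 (hne θ)) (norm_ne_zero_iff.2 (hne (-θ))),
      Real.log_mul (by positivity) (norm_ne_zero_iff.2 h2),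
      Real.log_mul (by norm_num) (norm_ne_zero_iff.2 hζ0)] at h4
    simp only [hA]
    linarith
  have hpi := Real.pi_pos
  have h1 : ∫ α in (0 : ℝ)..1, Real.log ‖w - Real.cos (π * α)‖ =
      π⁻¹ * ∫ θ in (0 : ℝ)..π, Real.log ‖w - Real.cos θ‖ := by
    have := intervalIntegral.integral_comp_mul_left (a := 0) (b := 1)
      (fun θ : ℝ => Real.log ‖w - Real.cos θ‖) hpi.ne'
    rw [mul_zero, mul_one, smul_eq_mul] at this
    exact this
  have h2 : ∫ θ in (0 : ℝ)..π, Real.log ‖w - Real.cos θ‖ =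
      2 * π * Real.log ‖ζ‖ - π * (Real.log 2 + Real.log ‖ζ‖) := by
    simp_rw [hsplit]
    have i1 : IntervalIntegrable A volume 0 π := hAc.intervalIntegrable _ _
    have i2 : IntervalIntegrable (fun θ => A (-θ)) volume 0 π :=
      (hAc.comp continuous_neg).intervalIntegrable _ _
    rw [intervalIntegral.integral_sub (i1.add i2) intervalIntegrable_const,
      intervalIntegral.integral_add i1 i2, intervalIntegral.integral_comp_neg, neg_zero,
      add_comm (∫ x in (0 : ℝ)..π, A x),
      intervalIntegral.integral_add_adjacent_intervals (hAc.intervalIntegrable _ _)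
        (hAc.intervalIntegrable _ _)]
    have hper : Function.Periodic A (2 * π) := by
      intro θ
      simp only [hA]
      rw [periodic_circleMap 0 1 θ]
    have h3 := hper.intervalIntegral_add_eq (-π) 0
    rw [zero_add] at h3
    have h4 : -π + 2 * π = π := by ring
    rw [h4] at h3
    rw [h3, hA, circle_log ζ hζ1]
    simp
    ring
  rw [h1, h2, J_joukowski ζ w hζ1 hζ]
  field_simp
  ring

end Pool.Agent.Helper50.Gaps
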