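import Mathlib

set_option autoImplicit false

namespace Pool.Agent.Helper50.Gaps

open Polynomial Set Real

/-- A polynomial with `N - 1` real critical points `y 1 > ... > y (N-1)` in `(-2,2)`, with
alternating critical values of modulus at least one. -/
structure Stage where
  N : ℕ
  hN : 1 ≤ N
  P : Polynomial ℝ
  deg : P.natDegree = N
  lead : 0 < P.leadingCoeff
  y : ℕ → ℝ
  y0 : y 0 = 2
  yN : y N = -2
  anti : ∀ j < N, y (j + 1) < y j
  crit : ∀ j, 1 ≤ j → j < N → P.derivative.eval (y j) = 0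
  top : 1 < P.eval (y 0)
  bot : 1 < (-1) ^ N * P.eval (y N)
  val : ∀ j, 1 ≤ j → j < N → 1 ≤ (-1) ^ j * P.eval (y j)

namespace Stage

variable (S : Stage)

theorem val' (j : ℕ) (hj : j ≤ S.N) : 1 ≤ (-1) ^ j * S.P.eval (S.y j) := by
  rcases Nat.eq_zero_or_pos j with h0 | h0
  · subst h0; simpa using S.top.le
  · rcases hj.lt_or_eq with h1 | h1
    · exact S.val j h0 h1
    · rw [h1]; exact S.bot.le

theorem anti_lt {i j : ℕ} (hij : i < j) (hj : j ≤ S.N) : S.y j < S.y i := by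
  induction j with
  | zero => omega
  | succ j ih =>
    rcases Nat.lt_succ_iff_lt_or_eq.1 hij with h | h
    · exact (S.anti j (by omega)).trans (ih h (by omega))
    · subst h; exact S.anti _ (by omega)

theorem anti_le {i j : ℕ} (hij : i ≤ j) (hj : j ≤ S.N) : S.y j ≤ S.y i := by
  rcases hij.lt_or_eq with h | h
  · exact (S.anti_lt h hj).le
  · rw [h]

theorem y_le (j : ℕ) (hj : j ≤ S.N) : S.y j ≤ 2 := by
  have := S.anti_le (Nat.zero_le j) hj
  rwa [S.y0] at this

theorem le_y (j : ℕ) (hj : j ≤ S.N) : -2 ≤ S.y j := by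
  have := S.anti_le hj le_rfl
  rwa [S.yN] at this

theorem deg_deriv : S.P.derivative.natDegree = S.N - 1 := by
  rw [Polynomial.natDegree_derivative, S.deg]

/-- the finset of critical points -/
noncomputable def critSet : Finset ℝ := (Finset.range (S.N - 1)).image fun i => S.y (i + 1)

theorem critSet_card : S.critSet.card = S.N - 1 := by
  unfold critSet
  rw [Finset.card_image_of_injOn, Finset.card_range]
  intro i hi j hj hij
  simp only [Finset.coe_range, mem_Iio] at hi hj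
  by_contra hne
  rcases Nat.lt_or_gt_of_ne hne with h | h
  · have := S.anti_lt (i := i + 1) (j := j + 1) (by omega) (by omega)
    simp only at hij
    rw [hij] at this
    exact lt_irrefl _ this
  · have := S.anti_lt (i := j + 1) (j := i + 1) (by omega) (by omega)
    simp only at hij
    rw [hij] at this
    exact lt_irrefl _ this

theorem deriv_ne_zero : S.P.derivative ≠ 0 := by
  intro h
  have h1 := Polynomial.derivative_eq_zero.1 h
  have h2 := S.deg
  have h3 := S.hN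
  omega

theorem roots_deriv : S.P.derivative.roots = S.critSet.val := by
  symm
  apply Multiset.eq_of_le_of_card_le
  · rw [Multiset.le_iff_subset S.critSet.nodup]
    intro x hx
    rw [Finset.mem_val] at hx
    unfold critSet at hx
    rw [Finset.mem_image] at hx
    obtain ⟨i, hi, rfl⟩ := hx
    rw [Finset.mem_range] at hi
    rw [Polynomial.mem_roots S.deriv_ne_zero]
    exact S.crit (i + 1) (by omega) (by omega)
  · calc Multiset.card S.P.derivative.roots ≤ S.P.derivative.natDegree :=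
          Polynomial.card_roots' _
      _ = S.N - 1 := S.deg_deriv
      _ = Multiset.card S.critSet.val := by rw [Finset.card_val, S.critSet_card]

/-- the derivative vanishes only at the critical points -/
theorem deriv_eq_zero_iff {x : ℝ} :
    S.P.derivative.eval x = 0 ↔ ∃ j, 1 ≤ j ∧ j < S.N ∧ x = S.y j := by
  constructor
  · intro h
    have h1 : x ∈ S.P.derivative.roots := (Polynomial.mem_roots S.deriv_ne_zero).2 h
    rw [S.roots_deriv, Finset.mem_val] at h1
    unfold critSet at h1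
    rw [Finset.mem_image] at h1
    obtain ⟨i, hi, rfl⟩ := h1
    rw [Finset.mem_range] at hi
    exact ⟨i + 1, by omega, by omega, rfl⟩
  · rintro ⟨j, h1, h2, rfl⟩
    exact S.crit j h1 h2

theorem deriv_ne_zero_of_mem {j : ℕ} (hj : j < S.N) {x : ℝ} (hx : x ∈ Ioo (S.y (j + 1)) (S.y j)) :
    S.P.derivative.eval x ≠ 0 := by
  intro h
  obtain ⟨i, hi1, hi2, rfl⟩ := S.deriv_eq_zero_iff.1 h
  rcases le_or_gt i j with h1 | h1
  · exact absurd (S.anti_le h1 hj.le) (not_le.2 hx.2)
  · exact absurd (S.anti_le (Nat.succ_le_of_lt h1) hi2.le) (not_le.2 hx.1)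

/-- the second derivative does not vanish at the critical points -/
theorem deriv2_ne_zero {j : ℕ} (h1 : 1 ≤ j) (h2 : j < S.N) :
    S.P.derivative.derivative.eval (S.y j) ≠ 0 := by
  intro h
  have hmult : 1 < S.P.derivative.rootMultiplicity (S.y j) := by
    rw [Polynomial.one_lt_rootMultiplicity_iff_isRoot S.deriv_ne_zero]
    exact ⟨S.crit j h1 h2, h⟩
  have hn : S.P.derivative.roots.Nodup := by rw [S.roots_deriv]; exact S.critSet.nodup
  have := Multiset.nodup_iff_count_le_one.1 hn (S.y j)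
  rw [Polynomial.count_roots] at this
  omega

theorem sign_sq (j : ℕ) : ((-1 : ℝ) ^ j) * (-1) ^ j = 1 := by
  rw [← mul_pow]; norm_num

/-- strict monotonicity on the bands -/
theorem strictMonoOn {j : ℕ} (hj : j < S.N) :
    StrictMonoOn (fun x => (-1) ^ j * S.P.eval x) (Icc (S.y (j + 1)) (S.y j)) := by
  have hcont : Continuous fun x => (-1 : ℝ) ^ j * S.P.eval x := by fun_prop
  have hder : ∀ x, HasDerivAt (fun x => (-1 : ℝ) ^ j * S.P.eval x)
      ((-1) ^ j * S.P.derivative.eval x) x := fun x =>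
    (S.P.hasDerivAt x).const_mul _
  -- the derivative has constant sign
  have hlt := S.anti j hj
  have hends : (-1 : ℝ) ^ j * S.P.eval (S.y (j + 1)) < (-1) ^ j * S.P.eval (S.y j) := by
    have h1 := S.val' j hj.le
    have h2 := S.val' (j + 1) hj
    rw [pow_succ] at h2
    linarith
  obtain ⟨c, hc, hc2⟩ := exists_deriv_eq_slope (fun x => (-1 : ℝ) ^ j * S.P.eval x) hlt
    hcont.continuousOn (fun x _ => (hder x).differentiableAt.differentiableWithinAt)
  have hcpos : 0 < (-1 : ℝ) ^ j * S.P.derivative.eval c := by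
    rw [← (hder c).deriv, hc2]
    apply div_pos <;> linarith
  have hpos : ∀ x ∈ Ioo (S.y (j + 1)) (S.y j), 0 < (-1 : ℝ) ^ j * S.P.derivative.eval x := by
    intro x hx
    by_contra hneg
    rw [not_lt] at hneg
    have hcont' : ContinuousOn (fun x => (-1 : ℝ) ^ j * S.P.derivative.eval x)
        (uIcc x c) := by fun_prop
    have h3 := intermediate_value_uIcc hcont'
    have h4 : (0 : ℝ) ∈ uIcc ((-1 : ℝ) ^ j * S.P.derivative.eval x)
        ((-1 : ℝ) ^ j * S.P.derivative.eval c) := by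
      rw [mem_uIcc]; left; exact ⟨hneg, hcpos.le⟩
    obtain ⟨w, hw, hw2⟩ := h3 h4
    have hwm : w ∈ Ioo (S.y (j + 1)) (S.y j) := by
      rcases mem_uIcc.1 hw with h5 | h5
      · exact ⟨hx.1.trans_le h5.1, h5.2.trans_lt hc.2⟩
      · exact ⟨hc.1.trans_le h5.1, h5.2.trans_lt hx.2⟩
    have h6 := S.deriv_ne_zero_of_mem hj hwm
    simp only at hw2
    rcases mul_eq_zero.1 hw2 with h7 | h7
    · exact absurd h7 (pow_ne_zero _ (by norm_num))
    · exact h6 h7
  refine strictMonoOn_of_deriv_pos (convex_Icc _ _) hcont.continuousOn ?_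
  intro x hx
  rw [interior_Icc] at hx
  rw [(hder x).deriv]
  exact hpos x hx

/-- existence of band inverse -/
theorem exists_inv {j : ℕ} (hj : j < S.N) {c : ℝ} (hc : |c| ≤ 1) :
    ∃ x ∈ Icc (S.y (j + 1)) (S.y j), (-1) ^ j * S.P.eval x = c := by
  have hcont : ContinuousOn (fun x => (-1 : ℝ) ^ j * S.P.eval x)
      (Icc (S.y (j + 1)) (S.y j)) := by fun_prop
  have h1 := intermediate_value_Icc (S.anti j hj).le hcont
  rw [abs_le] at hc
  have h2 := S.val' j hj.le
  have h3 := S.val' (j + 1) hj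
  rw [pow_succ] at h3
  obtain ⟨x, hx, hx2⟩ := h1 (show c ∈ Icc _ _ from ⟨by linarith, by linarith⟩)
  exact ⟨x, hx, hx2⟩

/-- index of the band -/
noncomputable def idx (u : ℝ) : ℕ := min ⌊(S.N : ℝ) * u⌋₊ (S.N - 1)

theorem idx_lt (u : ℝ) : S.idx u < S.N := by
  unfold idx
  have := S.hN
  omega

theorem idx_le {u : ℝ} (hu : 0 ≤ u) : (S.idx u : ℝ) ≤ S.N * u := by
  unfold idx
  have h1 : ((min ⌊(S.N : ℝ) * u⌋₊ (S.N - 1) : ℕ) : ℝ) ≤ (⌊(S.N : ℝ) * u⌋₊ : ℝ) := by
    exact_mod_cast min_le_left _ _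
  exact h1.trans (Nat.floor_le (by positivity))

theorem le_idx {u : ℝ} (hu : u ≤ 1) : (S.N : ℝ) * u ≤ S.idx u + 1 := by
  unfold idx
  rcases le_total ⌊(S.N : ℝ) * u⌋₊ (S.N - 1) with h | h
  · rw [min_eq_left h]; exact (Nat.lt_floor_add_one _).le
  · rw [min_eq_right h]
    have h2 : ((S.N - 1 : ℕ) : ℝ) = (S.N : ℝ) - 1 := by
      rw [Nat.cast_sub S.hN]; simp
    rw [h2]
    have : (0 : ℝ) < S.N := by exact_mod_cast S.hN
    nlinarith

theorem idx_eq {j : ℕ} (hj : j < S.N) {u : ℝ} (h1 : (j : ℝ) ≤ S.N * u)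
    (h2 : S.N * u < j + 1) : S.idx u = j := by
  unfold idx
  have : ⌊(S.N : ℝ) * u⌋₊ = j := by
    rw [Nat.floor_eq_iff (le_trans (Nat.cast_nonneg j) h1)]
    exact ⟨h1, h2⟩
  rw [this]
  omega

theorem idx_eq_last {u : ℝ} (h1 : ((S.N - 1 : ℕ) : ℝ) ≤ S.N * u) : S.idx u = S.N - 1 := by
  unfold idx
  have : S.N - 1 ≤ ⌊(S.N : ℝ) * u⌋₊ := Nat.le_floor h1
  omega

theorem abs_target (j : ℕ) (u : ℝ) : |(-1 : ℝ) ^ j * Real.cos (π * (S.N * u))| ≤ 1 := by
  rw [abs_mul, abs_pow, abs_neg, abs_one, one_pow, one_mul]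
  exact Real.abs_cos_le_one _

/-- the quantile function -/
noncomputable def t (u : ℝ) : ℝ := (S.exists_inv (S.idx_lt u) (S.abs_target (S.idx u) u)).choose

theorem t_mem (u : ℝ) : S.t u ∈ Icc (S.y (S.idx u + 1)) (S.y (S.idx u)) :=
  (S.exists_inv (S.idx_lt u) (S.abs_target (S.idx u) u)).choose_spec.1

theorem P_t (u : ℝ) : S.P.eval (S.t u) = Real.cos (π * (S.N * u)) := by
  have h := (S.exists_inv (S.idx_lt u) (S.abs_target (S.idx u) u)).choose_spec.2
  have h2 : (-1 : ℝ) ^ (S.idx u) * S.P.eval (S.t u) =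
      (-1) ^ (S.idx u) * Real.cos (π * (S.N * u)) := h
  have h3 : (-1 : ℝ) ^ (S.idx u) ≠ 0 := pow_ne_zero _ (by norm_num)
  exact mul_left_cancel₀ h3 h2

theorem t_mem2 (u : ℝ) : S.t u ∈ Icc (-2 : ℝ) 2 := by
  have h := S.t_mem u
  have h1 := S.idx_lt u
  exact ⟨(S.le_y _ h1).trans h.1, h.2.trans (S.y_le _ h1.le)⟩

/-- `t` is the unique solution in its band -/
theorem t_eq {j : ℕ} (hj : j < S.N) {u x : ℝ} (hidx : S.idx u = j)
    (hx : x ∈ Icc (S.y (j + 1)) (S.y j)) (hP : S.P.eval x = Real.cos (π * (S.N * u))) :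
    S.t u = x := by
  have h1 := S.t_mem u
  rw [hidx] at h1
  refine (S.strictMonoOn hj).injOn h1 hx ?_
  rw [S.P_t, hP]

theorem cos_shift (j : ℕ) (v : ℝ) :
    (-1 : ℝ) ^ j * Real.cos (π * v) = Real.cos (π * (v - j)) := by
  have : π * (v - j) = π * v - j * π := by ring
  rw [this, Real.cos_sub_nat_mul_pi]

theorem strictAnti_band (j : ℕ) {v w : ℝ} (h1 : (j : ℝ) ≤ v) (h2 : v < w) (h3 : w ≤ j + 1) :
    (-1 : ℝ) ^ j * Real.cos (π * w) < (-1) ^ j * Real.cos (π * v) := by
  rw [cos_shift, cos_shift]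
  apply Real.strictAntiOn_cos
  · constructor
    · have := Real.pi_pos; nlinarith
    · have := Real.pi_pos; nlinarith
  · constructor
    · have := Real.pi_pos; nlinarith
    · have := Real.pi_pos; nlinarith
  · have := Real.pi_pos; nlinarith

/-- `t` is strictly antitone on `[0,1]` -/
theorem t_strictAnti : StrictAntiOn S.t (Icc 0 1) := by
  intro u hu w hw huw
  have hNpos : (0 : ℝ) < S.N := by exact_mod_cast S.hN
  have hNuw : (S.N : ℝ) * u < S.N * w := by nlinarith
  have hmono : S.idx u ≤ S.idx w := by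
    unfold idx
    have : ⌊(S.N : ℝ) * u⌋₊ ≤ ⌊(S.N : ℝ) * w⌋₊ := Nat.floor_mono hNuw.le
    omega
  have hu1 := S.t_mem u
  have hw1 := S.t_mem w
  rcases hmono.lt_or_eq with h | h
  · -- different bands
    have h1 : S.y (S.idx w) ≤ S.y (S.idx u + 1) := S.anti_le h (S.idx_lt w).le
    have h2 : S.t w ≤ S.t u := hw1.2.trans (h1.trans hu1.1)
    rcases h2.lt_or_eq with h3 | h3
    · exact h3
    · exfalso
      have e1 : S.t u = S.y (S.idx u + 1) := le_antisymm (by rw [← h3]; exact hw1.2.trans h1) hu1.1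
      have e2 := S.val' (S.idx u + 1) (S.idx_lt u)
      rw [← e1, S.P_t, pow_succ] at e2
      -- N u < idx u + 1
      have e3 : (S.N : ℝ) * u < S.idx u + 1 := by
        have h4 : S.idx u = ⌊(S.N : ℝ) * u⌋₊ := by
          have h5 := S.idx_lt w
          unfold idx at h h5 ⊢
          omega
        rw [h4]
        exact Nat.lt_floor_add_one _
      have e4 := strictAnti_band (S.idx u) (S.idx_le hu.1) e3 le_rfl
      rw [cos_shift] at e4
      have e5 : π * ((S.idx u : ℝ) + 1 - S.idx u) = π := by ring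
      rw [e5, Real.cos_pi] at e4
      linarith
  · -- same band
    rw [← h] at hw1
    have h1 := strictAnti_band (S.idx u) (S.idx_le hu.1) hNuw (by
      rw [h]; exact S.le_idx hw.2)
    by_contra hcon
    rw [not_lt] at hcon
    have h2 : (-1 : ℝ) ^ (S.idx u) * S.P.eval (S.t u) ≤ (-1) ^ (S.idx u) * S.P.eval (S.t w) :=
      (S.strictMonoOn (S.idx_lt u)).monotoneOn hu1 hw1 hcon
    rw [S.P_t, S.P_t] at h2
    linarith

theorem t_anti : AntitoneOn S.t (Icc 0 1) := S.t_strictAnti.antitoneOn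

/-- modulus on one band -/
theorem modulus_one {j : ℕ} (hj : j < S.N) {ε : ℝ} (hε : 0 < ε) :
    ∃ δ > 0, ∀ a ∈ Icc (S.y (j + 1)) (S.y j), ∀ b ∈ Icc (S.y (j + 1)) (S.y j),
      |S.P.eval a - S.P.eval b| < δ → |a - b| < ε := by
  set I := Icc (S.y (j + 1)) (S.y j) with hI
  set K : Set (ℝ × ℝ) := (I ×ˢ I) ∩ {p | ε ≤ |p.1 - p.2|} with hK
  have hKc : IsCompact K := by
    refine (isCompact_Icc.prod isCompact_Icc).inter_right ?_
    exact isClosed_le continuous_const (by fun_prop)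
  have hcont : Continuous fun p : ℝ × ℝ => |S.P.eval p.1 - S.P.eval p.2| := by fun_prop
  rcases K.eq_empty_or_nonempty with h | h
  · refine ⟨1, one_pos, fun a ha b hb _ => ?_⟩
    by_contra hcon
    have : (a, b) ∈ K := ⟨⟨ha, hb⟩, not_lt.1 hcon⟩
    rw [h] at this
    exact this
  · obtain ⟨p0, hp0, hmin⟩ := hKc.exists_isMinOn h hcont.continuousOn
    refine ⟨|S.P.eval p0.1 - S.P.eval p0.2|, ?_, fun a ha b hb hab => ?_⟩
    · rw [gt_iff_lt, abs_pos, sub_ne_zero]
      intro heq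
      have h1 : p0.1 = p0.2 := by
        refine (S.strictMonoOn hj).injOn hp0.1.1 hp0.1.2 ?_
        simp only [heq]
      have h2 : ε ≤ |p0.1 - p0.2| := hp0.2
      rw [h1, sub_self, abs_zero] at h2
      linarith
    · by_contra hcon
      have h1 : (a, b) ∈ K := ⟨⟨ha, hb⟩, not_lt.1 hcon⟩
      have h2 := hmin h1
      exact absurd hab (not_lt.2 h2)

theorem modulus_upto (m : ℕ) (hm : m ≤ S.N) {ε : ℝ} (hε : 0 < ε) :
    ∃ δ > 0, ∀ j < m, ∀ a ∈ Icc (S.y (j + 1)) (S.y j), ∀ b ∈ Icc (S.y (j + 1)) (S.y j),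
      |S.P.eval a - S.P.eval b| < δ → |a - b| < ε := by
  induction m with
  | zero => exact ⟨1, one_pos, fun j hj => absurd hj (Nat.not_lt_zero j)⟩
  | succ m ih =>
    obtain ⟨δ1, hδ1, h1⟩ := ih (by omega)
    obtain ⟨δ2, hδ2, h2⟩ := S.modulus_one (j := m) (by omega) hε
    refine ⟨min δ1 δ2, lt_min hδ1 hδ2, fun j hj a ha b hb hab => ?_⟩
    rcases Nat.lt_succ_iff_lt_or_eq.1 hj with h | h
    · exact h1 j h a ha b hb (hab.trans_le (min_le_left _ _))
    · subst h; exact h2 a ha b hb (hab.trans_le (min_le_right _ _))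

/-- uniform modulus on all bands -/
theorem modulus {ε : ℝ} (hε : 0 < ε) :
    ∃ δ > 0, ∀ j < S.N, ∀ a ∈ Icc (S.y (j + 1)) (S.y j), ∀ b ∈ Icc (S.y (j + 1)) (S.y j),
      |S.P.eval a - S.P.eval b| < δ → |a - b| < ε := S.modulus_upto S.N le_rfl hε

/-- value of `t` at a closed label -/
theorem t_closed {j : ℕ} (h1 : 1 ≤ j) (h2 : j < S.N) (hc : (-1) ^ j * S.P.eval (S.y j) = 1)
    {u : ℝ} (hu : (S.N : ℝ) * u = j) : S.t u = S.y j := by
  have hidx : S.idx u = j := S.idx_eq h2 hu.ge (by rw [hu]; linarith)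
  refine S.t_eq h2 hidx ⟨(S.anti j h2).le, le_rfl⟩ ?_
  rw [hu]
  have h3 : Real.cos (π * j) = (-1) ^ j := by
    rw [mul_comm, Real.cos_nat_mul_pi]
  rw [h3]
  have h4 := sign_sq j
  calc S.P.eval (S.y j) = ((-1) ^ j * (-1) ^ j) * S.P.eval (S.y j) := by rw [h4, one_mul]
    _ = (-1) ^ j * ((-1) ^ j * S.P.eval (S.y j)) := by ring
    _ = _ := by rw [hc, mul_one]

/-- near a point which is not an open label, values of `t` lie in a common band -/
theorem common_band {u : ℝ} (hu : u ∈ Icc (0 : ℝ) 1)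
    (hcl : ∀ j : ℕ, 1 ≤ j → j < S.N → (S.N : ℝ) * u = j → (-1) ^ j * S.P.eval (S.y j) = 1) :
    ∃ δ > 0, ∀ v ∈ Icc (0 : ℝ) 1, |v - u| < δ → ∃ j < S.N,
      S.t u ∈ Icc (S.y (j + 1)) (S.y j) ∧ S.t v ∈ Icc (S.y (j + 1)) (S.y j) := by
  have hNpos : (0 : ℝ) < S.N := by exact_mod_cast S.hN
  set j := S.idx u with hj
  have hjN : j < S.N := S.idx_lt u
  have h1 : (j : ℝ) ≤ S.N * u := S.idx_le hu.1
  have h2 : (S.N : ℝ) * u ≤ j + 1 := S.le_idx hu.2
  -- right side
  have hright : ∃ δ > 0, ∀ v ∈ Icc (0 : ℝ) 1, u ≤ v → v - u < δ → S.idx v = j := by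
    rcases h2.lt_or_eq with h3 | h3
    · refine ⟨(j + 1 - S.N * u) / S.N, by apply div_pos <;> linarith, fun v hv huv hvu => ?_⟩
      refine S.idx_eq hjN ?_ ?_
      · nlinarith
      · rw [lt_div_iff₀ hNpos] at hvu
        nlinarith
    · -- N u = j + 1, so j + 1 = N
      have h4 : j = S.N - 1 := by
        by_contra hne
        have h5 : j + 1 < S.N := by omega
        have h6 : S.idx u = j + 1 := S.idx_eq h5 (by push_cast; linarith) (by push_cast; linarith)
        omega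
      refine ⟨1, one_pos, fun v hv huv _ => ?_⟩
      rw [h4]
      refine S.idx_eq_last ?_
      rw [← h4]
      nlinarith
  -- left side
  have hleft : ∃ δ > 0, ∀ v ∈ Icc (0 : ℝ) 1, v < u → u - v < δ → ∃ i < S.N,
      S.t u ∈ Icc (S.y (i + 1)) (S.y i) ∧ S.t v ∈ Icc (S.y (i + 1)) (S.y i) := by
    rcases h1.lt_or_eq with h3 | h3
    · refine ⟨(S.N * u - j) / S.N, by apply div_pos <;> linarith, fun v hv huv hvu => ?_⟩
      rw [lt_div_iff₀ hNpos] at hvu
      have hidx : S.idx v = j := S.idx_eq hjN (by nlinarith) (by nlinarith)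
      refine ⟨j, hjN, ?_, ?_⟩
      · exact S.t_mem u
      · have := S.t_mem v; rwa [hidx] at this
    · -- N u = j
      rcases Nat.eq_zero_or_pos j with h0 | h0
      · -- u = 0
        refine ⟨1, one_pos, fun v hv huv _ => ?_⟩
        exfalso
        rw [h0] at h3
        have : u = 0 := by
          have : (S.N : ℝ) * u = 0 := by rw [← h3]; simp
          rcases mul_eq_zero.1 this with h | h
          · exact absurd h hNpos.ne'
          · exact h
        linarith [hv.1]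
      · have hc := hcl j h0 hjN h3.symm
        have htu : S.t u = S.y j := S.t_closed h0 hjN hc h3.symm
        refine ⟨1 / S.N, by positivity, fun v hv huv hvu => ?_⟩
        rw [lt_div_iff₀ hNpos] at hvu
        have hcast : ((j - 1 : ℕ) : ℝ) = (j : ℝ) - 1 := by rw [Nat.cast_sub h0]; simp
        have hidx : S.idx v = j - 1 := S.idx_eq (by omega) (by rw [hcast]; nlinarith)
          (by rw [hcast]; nlinarith)
        refine ⟨j - 1, by omega, ?_, ?_⟩
        · rw [htu, Nat.sub_add_cancel h0]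
          exact ⟨le_rfl, S.anti_le (by omega) hjN.le⟩
        · have := S.t_mem v; rwa [hidx] at this
  obtain ⟨δ1, hδ1, hr⟩ := hright
  obtain ⟨δ2, hδ2, hl⟩ := hleft
  refine ⟨min δ1 δ2, lt_min hδ1 hδ2, fun v hv hvu => ?_⟩
  rcases lt_or_ge v u with h | h
  · apply hl v hv h
    rw [abs_of_neg (by linarith)] at hvu
    have := min_le_right δ1 δ2
    linarith
  · have hidx := hr v hv h (by
      rw [abs_of_nonneg (by linarith)] at hvu
      have := min_le_left δ1 δ2
      linarith)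
    refine ⟨j, hjN, S.t_mem u, ?_⟩
    have := S.t_mem v
    rwa [hidx] at this

/-- continuity of `t` away from open labels -/
theorem t_continuousWithinAt {u : ℝ} (hu : u ∈ Icc (0 : ℝ) 1)
    (hcl : ∀ j : ℕ, 1 ≤ j → j < S.N → (S.N : ℝ) * u = j → (-1) ^ j * S.P.eval (S.y j) = 1) :
    ContinuousWithinAt S.t (Icc 0 1) u := by
  rw [Metric.continuousWithinAt_iff]
  intro ε hε
  obtain ⟨δ, hδ, hmod⟩ := S.modulus hε
  obtain ⟨δ1, hδ1, hcb⟩ := S.common_band hu hcl
  have hcos : Continuous fun v : ℝ => Real.cos (π * (S.N * v)) := by fun_prop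
  obtain ⟨δ2, hδ2, hc2⟩ := Metric.continuous_iff.1 hcos u δ hδ
  refine ⟨min δ1 δ2, lt_min hδ1 hδ2, fun v hv hvu => ?_⟩
  obtain ⟨j, hj, hju, hjv⟩ := hcb v hv (hvu.trans_le (min_le_left _ _))
  rw [Real.dist_eq]
  apply hmod j hj _ hjv _ hju
  rw [S.P_t, S.P_t]
  have := hc2 v (hvu.trans_le (min_le_right _ _))
  rwa [Real.dist_eq] at this

/-- the jump at an open label -/
theorem jump {j : ℕ} (h1 : 1 ≤ j) (h2 : j < S.N) (ho : 1 < (-1) ^ j * S.P.eval (S.y j)) :
    ∃ η > 0, ∀ u ∈ Icc (0 : ℝ) 1, ∀ v ∈ Icc (0 : ℝ) 1, S.N * u < j → (j : ℝ) ≤ S.N * v →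
      η ≤ S.t u - S.t v := by
  have hj1 : j - 1 < S.N := by omega
  have hj2 : j - 1 + 1 = j := by omega
  obtain ⟨r, hr, hr2⟩ := S.exists_inv hj1 (c := -1) (by simp)
  rw [hj2] at hr
  have hsign : (-1 : ℝ) ^ j = (-1) ^ (j - 1) * (-1) := by rw [← pow_succ, hj2]
  have hry : S.y j < r := by
    rcases hr.1.lt_or_eq with h | h
    · exact h
    · exfalso
      rw [h, hsign] at ho
      linarith
  refine ⟨r - S.y j, by linarith, fun u hu v hv huj hvj => ?_⟩
  have hNpos : (0 : ℝ) < S.N := by exact_mod_cast S.hN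
  have hcast : ((j - 1 : ℕ) : ℝ) = (j : ℝ) - 1 := by rw [Nat.cast_sub h1]; simp
  -- t v ≤ y j
  have hv' : S.t v ≤ S.y j := by
    have h3 : j ≤ S.idx v := by
      unfold idx
      have : j ≤ ⌊(S.N : ℝ) * v⌋₊ := Nat.le_floor hvj
      omega
    exact (S.t_mem v).2.trans (S.anti_le h3 (S.idx_lt v).le)
  -- r ≤ t u
  have hu' : r ≤ S.t u := by
    have h3 : S.idx u ≤ j - 1 := by
      have := S.idx_le hu.1
      have h4 : (S.idx u : ℝ) < j := by linarith
      have h5 : S.idx u < j := by exact_mod_cast h4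
      omega
    rcases h3.lt_or_eq with h4 | h4
    · have h5 := (S.t_mem u).1
      have h6 : S.y (j - 1) ≤ S.y (S.idx u + 1) := S.anti_le h4 hj1.le
      exact hr.2.trans (h6.trans h5)
    · have h5 := S.t_mem u
      rw [h4, hj2] at h5
      by_contra hcon
      rw [not_le] at hcon
      have hmono := S.strictMonoOn hj1
      rw [hj2] at hmono
      have h6 : (-1 : ℝ) ^ (j - 1) * S.P.eval (S.t u) < (-1) ^ (j - 1) * S.P.eval r :=
        hmono h5 hr hcon
      rw [hr2, S.P_t] at h6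
      have h7 := S.abs_target (j - 1) u
      rw [abs_le] at h7
      linarith [h7.1]
  linarith

/-- closeness of the quantile functions of two stages -/
theorem t_close (S : Stage) {ε : ℝ} (hε : 0 < ε) :
    ∃ δ > 0, ∀ S' : Stage, S'.N = S.N → (∀ j ≤ S.N, |S'.y j - S.y j| ≤ δ) →
      (∀ x ∈ Icc (-2 : ℝ) 2, |S'.P.eval x - S.P.eval x| ≤ δ) →
      ∀ u, |S'.t u - S.t u| ≤ ε := by
  obtain ⟨δ1, hδ1, hmod⟩ := S.modulus (half_pos hε)
  -- uniform continuity of P on [-2,2]
  have huc : UniformContinuousOn (fun x => S.P.eval x) (Icc (-2 : ℝ) 2) :=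
    isCompact_Icc.uniformContinuousOn_of_continuous (by fun_prop)
  rw [Metric.uniformContinuousOn_iff] at huc
  obtain ⟨δ2, hδ2, huc⟩ := huc (δ1 / 2) (half_pos hδ1)
  refine ⟨min (min (δ1 / 3) (δ2 / 2)) (ε / 2), by positivity, ?_⟩
  intro S' hN hy hP u
  set δ := min (min (δ1 / 3) (δ2 / 2)) (ε / 2) with hδ
  have hδ_1 : δ ≤ δ1 / 3 := (min_le_left _ _).trans (min_le_left _ _)
  have hδ_2 : δ ≤ δ2 / 2 := (min_le_left _ _).trans (min_le_right _ _)
  have hδ_3 : δ ≤ ε / 2 := min_le_right _ _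
  have hidx : S'.idx u = S.idx u := by unfold idx; rw [hN]
  set j := S.idx u with hj
  have hjN : j < S.N := S.idx_lt u
  have ha := S.t_mem u
  rw [← hj] at ha
  have hb := S'.t_mem u
  rw [hidx] at hb
  set a := S.t u
  set b := S'.t u
  have hy1 := hy (j + 1) hjN
  have hy2 := hy j hjN.le
  rw [abs_le] at hy1 hy2
  set c := max (S.y (j + 1)) (min b (S.y j)) with hc
  have hanti := (S.anti j hjN).le
  have hcmem : c ∈ Icc (S.y (j + 1)) (S.y j) :=
    ⟨le_max_left _ _, max_le hanti (min_le_right _ _)⟩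
  have hδ0 : 0 ≤ δ := by
    have := S.y0; have := hy 0 (Nat.zero_le _)
    exact (abs_nonneg _).trans this
  have hcb : |b - c| ≤ δ := by
    rw [hc, abs_le]
    rcases le_total b (S.y j) with h1 | h1
    · rw [min_eq_left h1]
      rcases le_total (S.y (j + 1)) b with h2 | h2
      · rw [max_eq_right h2]; constructor <;> linarith
      · rw [max_eq_left h2]; constructor <;> linarith [hb.1]
    · rw [min_eq_right h1, max_eq_right hanti]
      constructor <;> linarith [hb.2]
  have hb2 : b ∈ Icc (-2 : ℝ) 2 := S'.t_mem2 u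
  have hc2 : c ∈ Icc (-2 : ℝ) 2 :=
    ⟨(S.le_y _ hjN).trans hcmem.1, hcmem.2.trans (S.y_le _ hjN.le)⟩
  have hPbc : |S.P.eval b - S.P.eval c| < δ1 / 2 := by
    have := huc b hb2 c hc2 (by rw [Real.dist_eq]; linarith)
    rwa [Real.dist_eq] at this
  have hPb := hP b hb2
  have hPeq : S'.P.eval b = S.P.eval a := by
    rw [S'.P_t, S.P_t, hN]
  have hPca : |S.P.eval c - S.P.eval a| < δ1 := by
    have e : S.P.eval c - S.P.eval a = -(S.P.eval b - S.P.eval c) -
        (S'.P.eval b - S.P.eval b) := by rw [← hPeq]; ring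
    rw [e]
    calc |-(S.P.eval b - S.P.eval c) - (S'.P.eval b - S.P.eval b)|
        ≤ |-(S.P.eval b - S.P.eval c)| + |S'.P.eval b - S.P.eval b| := abs_sub _ _
      _ < δ1 := by rw [abs_neg]; linarith
  have hca := hmod j hjN c hcmem a ha hPca
  calc |b - a| = |(b - c) + (c - a)| := by ring_nf
    _ ≤ |b - c| + |c - a| := abs_add_le _ _
    _ ≤ ε := by linarith

end Stage

end Pool.Agent.Helper50.Gaps
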