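import Mathlib
import Pool.Agent.Helper50.Gaps.Stage

set_option autoImplicit false

namespace Pool.Agent.Helper50.Gaps

open Polynomial Set Real

namespace Stage

variable (S : Stage)

/-- the zero in the `j`-th band -/
noncomputable def zero (j : ℕ) : ℝ :=
  if h : j < S.N then (S.exists_inv h (c := 0) (by simp)).choose else 0

theorem zero_mem' {j : ℕ} (h : j < S.N) : S.zero j ∈ Icc (S.y (j + 1)) (S.y j) := by
  unfold zero
  rw [dif_pos h]
  exact (S.exists_inv h (c := 0) (by simp)).choose_spec.1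

theorem P_zero {j : ℕ} (h : j < S.N) : S.P.eval (S.zero j) = 0 := by
  unfold zero
  rw [dif_pos h]
  have := (S.exists_inv h (c := 0) (by simp)).choose_spec.2
  rcases mul_eq_zero.1 this with h1 | h1
  · exact absurd h1 (pow_ne_zero _ (by norm_num))
  · exact h1

theorem P_y_ne_zero {j : ℕ} (h : j ≤ S.N) : S.P.eval (S.y j) ≠ 0 := by
  intro h1
  have := S.val' j h
  rw [h1, mul_zero] at this
  linarith

theorem zero_mem {j : ℕ} (h : j < S.N) : S.zero j ∈ Ioo (S.y (j + 1)) (S.y j) := by
  have h1 := S.zero_mem' h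
  have h2 := S.P_zero h
  constructor
  · rcases h1.1.lt_or_eq with h3 | h3
    · exact h3
    · rw [← h3] at h2; exact absurd h2 (S.P_y_ne_zero h)
  · rcases h1.2.lt_or_eq with h3 | h3
    · exact h3
    · rw [h3] at h2; exact absurd h2 (S.P_y_ne_zero h.le)

theorem sq_P_y {j : ℕ} (h : j ≤ S.N) : 1 ≤ (S.P.eval (S.y j)) ^ 2 := by
  have h1 := S.val' j h
  have h2 := sign_sq j
  have h3 : (S.P.eval (S.y j)) ^ 2 = ((-1) ^ j * S.P.eval (S.y j)) ^ 2 := by
    rw [mul_pow, sq ((-1 : ℝ) ^ j), h2, one_mul]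
  rw [h3]
  nlinarith

/-- the doubled polynomial `2 P^2 - 1` -/
noncomputable def dP : Polynomial ℝ := C 2 * S.P ^ 2 - 1

theorem dP_eval (x : ℝ) : S.dP.eval x = 2 * (S.P.eval x) ^ 2 - 1 := by
  unfold dP; simp

theorem dP_deriv_eval (x : ℝ) :
    S.dP.derivative.eval x = 4 * S.P.eval x * S.P.derivative.eval x := by
  unfold dP
  simp [Polynomial.derivative_pow]
  ring

theorem P_ne_zero : S.P ≠ 0 := by
  intro h
  have := S.lead
  rw [h] at this
  simp at this

theorem natDegree_main : (C (2 : ℝ) * S.P ^ 2).natDegree = 2 * S.N := by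
  rw [Polynomial.natDegree_C_mul (by norm_num), Polynomial.natDegree_pow, S.deg]

theorem dP_natDegree : S.dP.natDegree = 2 * S.N := by
  unfold dP
  rw [Polynomial.natDegree_sub_eq_left_of_natDegree_lt, S.natDegree_main]
  rw [S.natDegree_main, Polynomial.natDegree_one]
  have := S.hN
  omega

theorem dP_leadingCoeff : S.dP.leadingCoeff = 2 * S.P.leadingCoeff ^ 2 := by
  unfold dP
  rw [Polynomial.leadingCoeff_sub_of_degree_lt, Polynomial.leadingCoeff_mul,
    Polynomial.leadingCoeff_C, Polynomial.leadingCoeff_pow]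
  apply Polynomial.degree_lt_degree
  rw [S.natDegree_main, Polynomial.natDegree_one]
  have := S.hN
  omega

/-- the nodes of the doubled stage -/
noncomputable def dy (m : ℕ) : ℝ := if m % 2 = 0 then S.y (m / 2) else S.zero (m / 2)

theorem dy_even (j : ℕ) : S.dy (2 * j) = S.y j := by
  unfold dy
  rw [if_pos (by omega)]
  congr 1
  omega

theorem dy_odd (j : ℕ) : S.dy (2 * j + 1) = S.zero j := by
  unfold dy
  rw [if_neg (by omega)]
  congr 1
  omega

/-- the doubled stage -/
noncomputable def double : Stage where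
  N := 2 * S.N
  hN := by have := S.hN; omega
  P := S.dP
  deg := S.dP_natDegree
  lead := by
    rw [S.dP_leadingCoeff]
    have := S.lead
    positivity
  y := S.dy
  y0 := by
    have := S.dy_even 0
    rw [mul_zero] at this
    rw [this, S.y0]
  yN := by rw [S.dy_even, S.yN]
  anti := by
    intro m hm
    rcases Nat.even_or_odd' m with ⟨j, rfl | rfl⟩
    · rw [S.dy_even, S.dy_odd]
      exact (S.zero_mem (by omega)).2
    · have e : 2 * j + 1 + 1 = 2 * (j + 1) := by ring
      rw [S.dy_odd, e, S.dy_even]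
      exact (S.zero_mem (by omega)).1
  crit := by
    intro m h1 h2
    rw [S.dP_deriv_eval]
    rcases Nat.even_or_odd' m with ⟨j, rfl | rfl⟩
    · rw [S.dy_even, S.crit j (by omega) (by omega), mul_zero]
    · rw [S.dy_odd, S.P_zero (by omega), mul_zero, zero_mul]
  top := by
    have := S.dy_even 0
    rw [mul_zero] at this
    rw [this, S.dP_eval]
    have := S.top
    nlinarith
  bot := by
    rw [S.dP_eval, S.dy_even, pow_mul]
    have h1 := S.bot
    have h2 := sign_sq S.N
    have h3 : (S.P.eval (S.y S.N)) ^ 2 = ((-1) ^ S.N * S.P.eval (S.y S.N)) ^ 2 := by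
      rw [mul_pow, sq ((-1 : ℝ) ^ S.N), h2, one_mul]
    rw [h3]
    norm_num
    nlinarith
  val := by
    intro m h1 h2
    rw [S.dP_eval]
    rcases Nat.even_or_odd' m with ⟨j, rfl | rfl⟩
    · rw [S.dy_even, pow_mul]
      have := S.sq_P_y (j := j) (by omega)
      norm_num
      linarith
    · rw [S.dy_odd, S.P_zero (by omega), pow_succ, pow_mul]
      norm_num

theorem double_N : S.double.N = 2 * S.N := rfl
theorem double_P : S.double.P = S.dP := rfl
theorem double_y : S.double.y = S.dy := rfl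

/-- odd labels of the doubled stage are closed -/
theorem double_closed_odd {j : ℕ} (h : j < S.N) :
    (-1) ^ (2 * j + 1) * S.double.P.eval (S.double.y (2 * j + 1)) = 1 := by
  rw [double_P, double_y, S.dy_odd, S.dP_eval, S.P_zero h, pow_succ, pow_mul]
  norm_num

/-- even labels of the doubled stage are closed iff the original was -/
theorem double_closed_even {j : ℕ} (hc : (-1) ^ j * S.P.eval (S.y j) = 1) :
    (-1) ^ (2 * j) * S.double.P.eval (S.double.y (2 * j)) = 1 := by
  rw [double_P, double_y, S.dy_even, S.dP_eval, pow_mul]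
  have h2 := sign_sq j
  have h3 : (S.P.eval (S.y j)) ^ 2 = ((-1) ^ j * S.P.eval (S.y j)) ^ 2 := by
    rw [mul_pow, sq ((-1 : ℝ) ^ j), h2, one_mul]
  rw [h3, hc]
  norm_num

/-- doubling does not change the quantile function -/
theorem double_t {u : ℝ} (hu : u ∈ Icc (0 : ℝ) 1) : S.double.t u = S.t u := by
  have hNpos : (0 : ℝ) < S.N := by exact_mod_cast S.hN
  set m := S.double.idx u with hm
  have hmN : m < 2 * S.N := S.double.idx_lt u
  have h1 : (m : ℝ) ≤ (S.double.N : ℝ) * u := S.double.idx_le hu.1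
  have h2 : (S.double.N : ℝ) * u ≤ m + 1 := S.double.le_idx hu.2
  rw [double_N] at h1 h2
  push_cast at h1 h2
  have hP : S.double.P.eval (S.t u) = Real.cos (π * (S.double.N * u)) := by
    rw [double_P, S.dP_eval, S.P_t, double_N]
    push_cast
    have : π * (2 * (S.N : ℝ) * u) = 2 * (π * (S.N * u)) := by ring
    rw [this, Real.cos_two_mul]
  refine S.double.t_eq hmN hm.symm ?_ hP
  -- the band
  have hidx : S.idx u = m / 2 := by
    have e1 : m = min ⌊((2 * S.N : ℕ) : ℝ) * u⌋₊ (2 * S.N - 1) := rfl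
    have e2 : S.idx u = min ⌊(S.N : ℝ) * u⌋₊ (S.N - 1) := rfl
    have e3 : ⌊(S.N : ℝ) * u⌋₊ = ⌊((2 * S.N : ℕ) : ℝ) * u⌋₊ / 2 := by
      have : (S.N : ℝ) * u = (((2 * S.N : ℕ) : ℝ) * u) / (2 : ℕ) := by push_cast; ring
      rw [this, Nat.floor_div_natCast]
    rw [e2, e3, e1]
    omega
  have ht := S.t_mem u
  rw [hidx] at ht
  have hjN : m / 2 < S.N := by omega
  have hval : (-1 : ℝ) ^ (m / 2) * S.P.eval (S.t u) = Real.cos (π * (S.N * u - (m / 2 : ℕ))) := by
    rw [S.P_t, cos_shift]
  have hzero : (-1 : ℝ) ^ (m / 2) * S.P.eval (S.zero (m / 2)) = 0 := by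
    rw [S.P_zero hjN, mul_zero]
  have hpi := Real.pi_pos
  rw [double_y]
  rcases Nat.even_or_odd' m with ⟨j, hj | hj⟩
  · have hj2 : m / 2 = j := by omega
    rw [hj2] at ht hval hzero hjN
    rw [hj] at h1 h2 ⊢
    push_cast at h1 h2
    rw [S.dy_even, S.dy_odd]
    refine ⟨?_, ht.2⟩
    by_contra hcon
    rw [not_le] at hcon
    have h3 : (-1 : ℝ) ^ j * S.P.eval (S.t u) < (-1) ^ j * S.P.eval (S.zero j) :=
      S.strictMonoOn hjN ht (S.zero_mem' hjN) hcon
    rw [hval, hzero] at h3
    have h4 : 0 ≤ Real.cos (π * (S.N * u - (j : ℕ))) := by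
      apply Real.cos_nonneg_of_neg_pi_div_two_le_of_le
      · nlinarith
      · nlinarith
    linarith
  · have hj2 : m / 2 = j := by omega
    rw [hj2] at ht hval hzero hjN
    rw [hj] at h1 h2 ⊢
    push_cast at h1 h2
    have e : 2 * j + 1 + 1 = 2 * (j + 1) := by ring
    rw [S.dy_odd, e, S.dy_even]
    refine ⟨ht.1, ?_⟩
    by_contra hcon
    rw [not_le] at hcon
    have h3 : (-1 : ℝ) ^ j * S.P.eval (S.zero j) < (-1) ^ j * S.P.eval (S.t u) :=
      S.strictMonoOn hjN (S.zero_mem' hjN) ht hcon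
    rw [hval, hzero] at h3
    have h4 : Real.cos (π * (S.N * u - (j : ℕ))) ≤ 0 := by
      apply Real.cos_nonpos_of_pi_div_two_le_of_le
      · nlinarith
      · nlinarith
    linarith

/-- the base stage `P = X` -/
noncomputable def base : Stage where
  N := 1
  hN := le_rfl
  P := X
  deg := Polynomial.natDegree_X
  lead := by simp
  y := fun j => if j = 0 then 2 else -2
  y0 := by simp
  yN := by simp
  anti := by
    intro j hj
    have : j = 0 := by omega
    subst this
    norm_num
  crit := by intro j h1 h2; omega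
  top := by norm_num
  bot := by norm_num
  val := by intro j h1 h2; omega

end Stage

end Pool.Agent.Helper50.Gaps
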