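import Mathlib
import Pool.Agent.Helper50.Gaps.Defs

set_option autoImplicit false

namespace Pool.Agent.Helper50.Gaps

open Set Real Filter Topology MeasureTheory
open scoped ENNReal

/-- the interval kernel factor -/
noncomputable def phi (q : ℝ × ℝ) (x : ℝ) : ℝ≥0∞ :=
  {p : (ℝ × ℝ) × ℝ | p.1.2 ≤ p.2 ∧ p.2 ≤ p.1.2 + p.1.1}.indicator
    (fun p => ENNReal.ofReal (1 / p.1.1)) (q, x)

theorem phi_measurable : Measurable (Function.uncurry phi) := by
  unfold phi Function.uncurry
  simp only [Prod.mk.eta]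
  refine Measurable.indicator (by fun_prop) ?_
  have h1 : MeasurableSet {p : (ℝ × ℝ) × ℝ | p.1.2 ≤ p.2} :=
    measurableSet_le (by fun_prop) (by fun_prop)
  have h2 : MeasurableSet {p : (ℝ × ℝ) × ℝ | p.2 ≤ p.1.2 + p.1.1} :=
    measurableSet_le (by fun_prop) (by fun_prop)
  exact h1.inter h2

/-- parameter measure -/
noncomputable def mR (R : ℝ) : Measure (ℝ × ℝ) := (volume.restrict (Ioo 0 R)).prod volume

theorem inner_kernel {r : ℝ} (hr : 0 < r) (x y : ℝ) :
    ∫⁻ s : ℝ, phi (r, s) x * phi (r, s) y = ENNReal.ofReal ((r - |x - y|) / r ^ 2) := by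
  have e : ∀ s : ℝ, phi (r, s) x * phi (r, s) y =
      (Icc (max x y - r) (min x y)).indicator (fun _ => ENNReal.ofReal (1 / r ^ 2)) s := by
    intro s
    unfold phi
    by_cases hx : s ≤ x ∧ x ≤ s + r
    · by_cases hy : s ≤ y ∧ y ≤ s + r
      · rw [indicator_of_mem (by exact hx), indicator_of_mem (by exact hy), indicator_of_mem,
          ← ENNReal.ofReal_mul (by positivity)]
        · congr 1; field_simp
        · constructor
          · rcases le_total x y with h | h
            · rw [max_eq_right h]; linarith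
            · rw [max_eq_left h]; linarith
          · exact le_min hx.1 hy.1
      · rw [indicator_of_notMem (a := ((r, s), y)) (by exact hy), mul_zero, indicator_of_notMem]
        intro h
        apply hy
        have h1 := le_max_right x y
        have h2 := min_le_right x y
        exact ⟨h.2.trans h2, by linarith [h.1]⟩
    · rw [indicator_of_notMem (a := ((r, s), x)) (by exact hx), zero_mul, indicator_of_notMem]
      intro h
      apply hx
      have h1 := le_max_left x y
      have h2 := min_le_left x y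
      exact ⟨h.2.trans h2, by linarith [h.1]⟩
  simp_rw [e]
  rw [lintegral_indicator_const measurableSet_Icc, Real.volume_Icc,
    ← ENNReal.ofReal_mul (by positivity)]
  congr 1
  have h2 : max x y - min x y = |x - y| := max_sub_min_eq_abs x y |>.trans (abs_sub_comm _ _)
  rw [div_mul_eq_mul_div, one_mul]
  congr 1
  linarith

theorem kernel_value {R : ℝ} {x y : ℝ} (hxy : x ≠ y) (hR : |x - y| < R) :
    ∫⁻ q, phi q x * phi q y ∂(mR R) =
      ENNReal.ofReal (Real.log R - Real.log |x - y| - 1 + |x - y| / R) := by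
  set a := |x - y| with ha
  have ha0 : 0 < a := abs_pos.2 (sub_ne_zero.2 hxy)
  have hR0 : 0 < R := ha0.trans hR
  have hmeas : Measurable fun q : ℝ × ℝ => phi q x * phi q y := by
    have h1 : Measurable fun q : ℝ × ℝ => phi q x :=
      phi_measurable.comp (measurable_id.prodMk measurable_const)
    have h2 : Measurable fun q : ℝ × ℝ => phi q y :=
      phi_measurable.comp (measurable_id.prodMk measurable_const)
    exact h1.mul h2
  unfold mR
  rw [lintegral_prod _ hmeas.aemeasurable]
  have h1 : ∫⁻ r in Ioo 0 R, ∫⁻ s : ℝ, phi (r, s) x * phi (r, s) y =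
      ∫⁻ r in Ioo 0 R, ENNReal.ofReal ((r - a) / r ^ 2) := by
    refine setLIntegral_congr_fun measurableSet_Ioo fun r hr => ?_
    exact inner_kernel hr.1 x y
  rw [h1]
  have h2 : ∫⁻ r in Ioo 0 R, ENNReal.ofReal ((r - a) / r ^ 2) =
      ∫⁻ r in Ioc a R, ENNReal.ofReal ((r - a) / r ^ 2) := by
    rw [← lintegral_indicator measurableSet_Ioo, ← lintegral_indicator measurableSet_Ioc]
    apply lintegral_congr_ae
    have hne : ∀ᵐ r : ℝ, r ≠ R := by rw [ae_iff]; simp
    filter_upwards [hne] with r hr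
    by_cases h : r ∈ Ioc a R
    · rw [indicator_of_mem h, indicator_of_mem]
      exact ⟨ha0.trans h.1, lt_of_le_of_ne h.2 hr⟩
    · rw [indicator_of_notMem h]
      by_cases h' : r ∈ Ioo 0 R
      · rw [indicator_of_mem h']
        apply ENNReal.ofReal_of_nonpos
        have h3 : r ≤ a := by
          by_contra hcon
          exact h ⟨not_le.1 hcon, h'.2.le⟩
        apply div_nonpos_of_nonpos_of_nonneg (by linarith) (by positivity)
      · rw [indicator_of_notMem h']
  rw [h2]
  have hder : ∀ r ∈ uIcc a R, HasDerivAt (fun r => Real.log r + a / r) ((r - a) / r ^ 2) r := by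
    intro r hr
    rw [uIcc_of_le hR.le] at hr
    have hr0 : 0 < r := ha0.trans_le hr.1
    have h3 := (Real.hasDerivAt_log hr0.ne').add ((hasDerivAt_inv hr0.ne').const_mul a)
    refine h3.congr_deriv ?_
    field_simp
    ring
  have hcont : ContinuousOn (fun r : ℝ => (r - a) / r ^ 2) (uIcc a R) := by
    rw [uIcc_of_le hR.le]
    refine ContinuousOn.div (by fun_prop) (by fun_prop) fun r hr => ?_
    have hr0 : 0 < r := ha0.trans_le hr.1
    positivity
  have hint := intervalIntegral.integral_eq_sub_of_hasDerivAt hder hcont.intervalIntegrable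
  rw [intervalIntegral.integral_of_le hR.le] at hint
  rw [← ofReal_integral_eq_lintegral_ofReal]
  · rw [hint]
    congr 1
    field_simp
    ring
  · have := hcont.intervalIntegrable (μ := volume)
    exact (intervalIntegrable_iff_integrableOn_Ioc_of_le hR.le).1 this
  · rw [EventuallyLE, ae_restrict_iff' measurableSet_Ioc]
    refine Eventually.of_forall fun r hr => ?_
    have h5 : 0 ≤ r - a := by linarith [hr.1]
    simp only [Pi.zero_apply]
    positivity


/-- A quadratic identity in `ℝ≥0∞`. -/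
theorem enn_sq (a b : ℝ≥0∞) : a * a + b * b = 2 * (a * b) + ((a - b) * (a - b) + (b - a) * (b - a)) := by
  rcases le_total a b with h | h
  · obtain ⟨c, rfl⟩ := exists_add_of_le h
    rw [tsub_eq_zero_of_le h]
    by_cases ha : a = ∞
    · subst ha; simp
    · rw [ENNReal.add_sub_cancel_left ha]
      ring
  · obtain ⟨c, rfl⟩ := exists_add_of_le h
    rw [tsub_eq_zero_of_le h]
    by_cases hb : b = ∞
    · subst hb; simp
    · rw [ENNReal.add_sub_cancel_left hb]
      ring

/-- mass function -/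
noncomputable def mass (ν : Measure ℝ) (q : ℝ × ℝ) : ℝ≥0∞ := ∫⁻ x, phi q x ∂ν

theorem mass_measurable (ν : Measure ℝ) [SFinite ν] : Measurable (mass ν) := by
  unfold mass
  exact phi_measurable.lintegral_prod_right'

/-- the positive-definite bilinear form -/
noncomputable def form (R : ℝ) (ν μ : Measure ℝ) : ℝ≥0∞ :=
  ∫⁻ x, ∫⁻ y, ∫⁻ q, phi q x * phi q y ∂(mR R) ∂μ ∂ν

theorem form_eq (R : ℝ) (ν μ : Measure ℝ) [SFinite ν] [SFinite μ] :
    form R ν μ = ∫⁻ q, mass ν q * mass μ q ∂(mR R) := by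
  have : SFinite (mR R) := by unfold mR; infer_instance
  have hphi : ∀ x : ℝ, Measurable fun q : ℝ × ℝ => phi q x := fun x =>
    phi_measurable.comp (measurable_id.prodMk measurable_const)
  have hphi2 : ∀ q : ℝ × ℝ, Measurable fun x : ℝ => phi q x := fun q =>
    phi_measurable.comp (measurable_const.prodMk measurable_id)
  unfold form
  have h1 : ∀ x : ℝ, ∫⁻ y, ∫⁻ q, phi q x * phi q y ∂(mR R) ∂μ =
      ∫⁻ q, phi q x * mass μ q ∂(mR R) := by
    intro x
    rw [lintegral_lintegral_swap]
    · refine lintegral_congr fun q => ?_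
      rw [lintegral_const_mul _ (hphi2 q)]
      rfl
    · have : Measurable fun p : ℝ × (ℝ × ℝ) => phi p.2 x * phi p.2 p.1 := by
        refine ((hphi x).comp measurable_snd).mul ?_
        exact phi_measurable.comp (measurable_snd.prodMk measurable_fst)
      exact this.aemeasurable
  simp_rw [h1]
  rw [lintegral_lintegral_swap]
  · refine lintegral_congr fun q => ?_
    rw [lintegral_mul_const _ (hphi2 q)]
    rfl
  · have : Measurable fun p : ℝ × (ℝ × ℝ) => phi p.2 p.1 * mass μ p.2 := by
      refine Measurable.mul ?_ ((mass_measurable μ).comp measurable_snd)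
      exact phi_measurable.comp (measurable_snd.prodMk measurable_fst)
    exact this.aemeasurable

/-- the quadratic deviation -/
noncomputable def dev (R : ℝ) (ν μ : Measure ℝ) : ℝ≥0∞ :=
  ∫⁻ q, ((mass ν q - mass μ q) * (mass ν q - mass μ q) +
    (mass μ q - mass ν q) * (mass μ q - mass ν q)) ∂(mR R)

theorem form_identity (R : ℝ) (ν μ : Measure ℝ) [SFinite ν] [SFinite μ] :
    form R ν ν + form R μ μ = 2 * form R ν μ + dev R ν μ := by
  rw [form_eq, form_eq, form_eq]
  unfold dev
  have m1 := mass_measurable ν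
  have m2 := mass_measurable μ
  have m3 : Measurable fun q => mass ν q * mass ν q := m1.mul m1
  have m4 : Measurable fun q => mass ν q * mass μ q := m1.mul m2
  have m5 : Measurable fun q => 2 * (mass ν q * mass μ q) := m4.const_mul 2
  rw [← lintegral_add_left m3, ← lintegral_const_mul _ m4, ← lintegral_add_left m5]
  exact lintegral_congr fun q => enn_sq _ _

/-- value of the form -/
theorem form_value {R : ℝ} (hR : 4 < R) (ν μ : Measure ℝ) [IsProbabilityMeasure ν]
    [IsProbabilityMeasure μ] (hν : ∀ᵐ x ∂ν, |x| ≤ 2) (hμ : ∀ᵐ x ∂μ, |x| ≤ 2)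
    (hd : (ν.prod μ) {p : ℝ × ℝ | p.1 = p.2} = 0)
    (hi : Integrable (fun p : ℝ × ℝ => Real.log |p.1 - p.2|) (ν.prod μ)) :
    form R ν μ = ENNReal.ofReal (Real.log R - 1 - ∫ p : ℝ × ℝ, Real.log |p.1 - p.2| ∂(ν.prod μ) +
      (∫ p : ℝ × ℝ, |p.1 - p.2| ∂(ν.prod μ)) / R) ∧
    0 ≤ Real.log R - 1 - ∫ p : ℝ × ℝ, Real.log |p.1 - p.2| ∂(ν.prod μ) +
      (∫ p : ℝ × ℝ, |p.1 - p.2| ∂(ν.prod μ)) / R := by
  have hR0 : 0 < R := by linarith
  have hae : ∀ᵐ p ∂(ν.prod μ), p.1 ≠ p.2 ∧ |p.1 - p.2| ≤ 4 := by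
    have h1 : ∀ᵐ p ∂(ν.prod μ), p.1 ≠ p.2 := by
      rw [ae_iff]
      simpa using hd
    have h2 : ∀ᵐ p ∂(ν.prod μ), |p.1| ≤ 2 := Measure.quasiMeasurePreserving_fst.ae hν
    have h3 : ∀ᵐ p ∂(ν.prod μ), |p.2| ≤ 2 := Measure.quasiMeasurePreserving_snd.ae hμ
    filter_upwards [h1, h2, h3] with p hp1 hp2 hp3
    refine ⟨hp1, ?_⟩
    have := abs_sub p.1 p.2
    linarith
  have hiabs : Integrable (fun p : ℝ × ℝ => |p.1 - p.2|) (ν.prod μ) := by
    refine Integrable.of_bound (by fun_prop) 4 ?_
    filter_upwards [hae] with p hp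
    rw [Real.norm_eq_abs, abs_abs]
    exact hp.2
  have hmeas : Measurable fun p : ℝ × ℝ => ∫⁻ q, phi q p.1 * phi q p.2 ∂(mR R) := by
    have : SFinite (mR R) := by unfold mR; infer_instance
    have : Measurable fun p : (ℝ × ℝ) × (ℝ × ℝ) => phi p.2 p.1.1 * phi p.2 p.1.2 := by
      refine Measurable.mul ?_ ?_
      · exact phi_measurable.comp (measurable_snd.prodMk (measurable_fst.comp measurable_fst))
      · exact phi_measurable.comp (measurable_snd.prodMk (measurable_snd.comp measurable_fst))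
    exact this.lintegral_prod_right'
  set h : ℝ × ℝ → ℝ := fun p => Real.log R - Real.log |p.1 - p.2| - 1 + |p.1 - p.2| / R with hh
  have hint : Integrable h (ν.prod μ) :=
    (((integrable_const _).sub hi).sub (integrable_const _)).add (hiabs.div_const R)
  have hnn : 0 ≤ᵐ[ν.prod μ] h := by
    filter_upwards [hae] with p hp
    have ha0 : 0 < |p.1 - p.2| := abs_pos.2 (sub_ne_zero.2 hp.1)
    have h1 := Real.add_one_le_exp (Real.log (|p.1 - p.2| / R))
    rw [Real.exp_log (by positivity), Real.log_div ha0.ne' hR0.ne'] at h1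
    simp only [hh, Pi.zero_apply]
    linarith
  have hval : ∫ p, h p ∂(ν.prod μ) = Real.log R - 1 -
      ∫ p : ℝ × ℝ, Real.log |p.1 - p.2| ∂(ν.prod μ) +
      (∫ p : ℝ × ℝ, |p.1 - p.2| ∂(ν.prod μ)) / R := by
    simp only [hh]
    have i1 : Integrable (fun p : ℝ × ℝ => Real.log R - Real.log |p.1 - p.2|) (ν.prod μ) :=
      (integrable_const _).sub hi
    have i2 : Integrable (fun p : ℝ × ℝ => Real.log R - Real.log |p.1 - p.2| - 1) (ν.prod μ) :=
      i1.sub (integrable_const _)
    have i3 : Integrable (fun p : ℝ × ℝ => |p.1 - p.2| / R) (ν.prod μ) := hiabs.div_const R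
    rw [integral_add i2 i3, integral_sub i1 (integrable_const _),
      integral_sub (integrable_const _) hi, integral_div]
    simp
    ring
  constructor
  · rw [← hval, ofReal_integral_eq_lintegral_ofReal hint hnn]
    unfold form
    rw [← lintegral_prod _ hmeas.aemeasurable]
    apply lintegral_congr_ae
    filter_upwards [hae] with p hp
    exact kernel_value hp.1 (lt_of_le_of_lt hp.2 hR)
  · rw [← hval]
    exact integral_nonneg_of_ae hnn

/-- `∬ |x-y|` lies between `0` and `4` -/
theorem abs_integral_bounds (ν μ : Measure ℝ) [IsProbabilityMeasure ν]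
    [IsProbabilityMeasure μ] (hν : ∀ᵐ x ∂ν, |x| ≤ 2) (hμ : ∀ᵐ x ∂μ, |x| ≤ 2) :
    0 ≤ ∫ p : ℝ × ℝ, |p.1 - p.2| ∂(ν.prod μ) ∧ ∫ p : ℝ × ℝ, |p.1 - p.2| ∂(ν.prod μ) ≤ 4 := by
  constructor
  · exact integral_nonneg fun p => abs_nonneg _
  · have h2 : ∀ᵐ p ∂(ν.prod μ), |p.1| ≤ 2 := Measure.quasiMeasurePreserving_fst.ae hν
    have h3 : ∀ᵐ p ∂(ν.prod μ), |p.2| ≤ 2 := Measure.quasiMeasurePreserving_snd.ae hμ
    have h4 : ∀ᵐ p ∂(ν.prod μ), |p.1 - p.2| ≤ 4 := by
      filter_upwards [h2, h3] with p hp2 hp3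
      have := abs_sub p.1 p.2
      linarith
    have hiabs : Integrable (fun p : ℝ × ℝ => |p.1 - p.2|) (ν.prod μ) := by
      refine Integrable.of_bound (by fun_prop) 4 ?_
      filter_upwards [h4] with p hp
      rw [Real.norm_eq_abs, abs_abs]
      exact hp
    calc ∫ p : ℝ × ℝ, |p.1 - p.2| ∂(ν.prod μ) ≤ ∫ _p : ℝ × ℝ, (4 : ℝ) ∂(ν.prod μ) :=
          integral_mono_ae hiabs (integrable_const _) h4
      _ = 4 := by simp

end Pool.Agent.Helper50.Gaps
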