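import Mathlib
import Pool.Agent.Helper50.Gaps.Energy

set_option autoImplicit false

namespace Pool.Agent.Helper50.Gaps

open Set Real Filter Topology MeasureTheory
open scoped ENNReal

theorem abs_log_bound {a : ℝ} (h0 : 0 ≤ a) (h4 : a ≤ 4) :
    |Real.log a| ≤ -Real.log a + 2 * Real.log 4 := by
  have hl4 : 0 ≤ Real.log 4 := Real.log_nonneg (by norm_num)
  rcases le_total a 1 with h | h
  · rw [abs_of_nonpos (Real.log_nonpos h0 h)]
    linarith
  · rw [abs_of_nonneg (Real.log_nonneg h)]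
    have := Real.log_le_log (by linarith) h4
    linarith

section

variable {K : Set ℝ} {μ : Measure ℝ} {V : ℝ}

theorem ae_le_two (hK : ∀ x ∈ K, |x| ≤ 2) {ν : Measure ℝ} (hν : ν Kᶜ = 0) : ∀ᵐ x ∂ν, |x| ≤ 2 := by
  have h : ∀ᵐ x ∂ν, x ∈ K := by
    rw [ae_iff]; exact hν
  filter_upwards [h] with x hx using hK x hx

theorem mutualE [IsProbabilityMeasure μ] (hK : ∀ x ∈ K, |x| ≤ 2) (hμ : μ Kᶜ = 0)
    (hatom : ∀ x, μ {x} = 0)
    (hint : ∀ x ∈ K, Integrable (fun y => Real.log |x - y|) μ)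
    (hpot : ∀ x ∈ K, ∫ y, Real.log |x - y| ∂μ = -V)
    (ν : Measure ℝ) [IsProbabilityMeasure ν] (hν : ν Kᶜ = 0) :
    (ν.prod μ) {p : ℝ × ℝ | p.1 = p.2} = 0 ∧
      Integrable (fun p : ℝ × ℝ => Real.log |p.1 - p.2|) (ν.prod μ) ∧
      ∫ p : ℝ × ℝ, Real.log |p.1 - p.2| ∂(ν.prod μ) = -V := by
  have haeK : ∀ᵐ x ∂ν, x ∈ K := by rw [ae_iff]; exact hν
  have hae2 := ae_le_two hK hμ
  have hmeas : Measurable fun p : ℝ × ℝ => Real.log |p.1 - p.2| := by fun_prop
  have h1 : (ν.prod μ) {p : ℝ × ℝ | p.1 = p.2} = 0 := by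
    rw [Measure.measure_prod_null (measurableSet_eq_fun measurable_fst measurable_snd)]
    refine Eventually.of_forall fun x => ?_
    have : (Prod.mk x ⁻¹' {p : ℝ × ℝ | p.1 = p.2}) = {x} := by
      ext y
      simp [eq_comm]
    change μ (Prod.mk x ⁻¹' _) = 0
    rw [this]
    exact hatom x
  have h2 : Integrable (fun p : ℝ × ℝ => Real.log |p.1 - p.2|) (ν.prod μ) := by
    rw [integrable_prod_iff hmeas.aestronglyMeasurable]
    constructor
    · filter_upwards [haeK] with x hx using hint x hx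
    · refine Integrable.of_bound hmeas.aestronglyMeasurable.norm.integral_prod_right'
        (V + 2 * Real.log 4) ?_
      filter_upwards [haeK] with x hx
      rw [Real.norm_eq_abs, abs_of_nonneg (integral_nonneg fun y => norm_nonneg _)]
      have i0 : Integrable (fun y => -Real.log |x - y|) μ := (hint x hx).neg
      have i1 : Integrable (fun y => -Real.log |x - y| + 2 * Real.log 4) μ :=
        i0.add (integrable_const _)
      calc ∫ y, ‖Real.log |x - y|‖ ∂μ ≤ ∫ y, (-Real.log |x - y| + 2 * Real.log 4) ∂μ := by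
            refine integral_mono_ae (hint x hx).norm i1 ?_
            filter_upwards [hae2] with y hy
            rw [Real.norm_eq_abs]
            refine abs_log_bound (abs_nonneg _) ?_
            have := abs_sub x y
            have := hK x hx
            linarith
        _ = V + 2 * Real.log 4 := by
            rw [integral_add i0 (integrable_const _), integral_neg, hpot x hx]
            simp
  refine ⟨h1, h2, ?_⟩
  rw [integral_prod _ h2]
  calc ∫ x, ∫ y, Real.log |x - y| ∂μ ∂ν = ∫ _x, -V ∂ν := by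
        apply integral_congr_ae
        filter_upwards [haeK] with x hx using hpot x hx
    _ = -V := by simp

/-- main estimate -/
theorem dev_estimate [IsProbabilityMeasure μ] (hK : ∀ x ∈ K, |x| ≤ 2) (hμ : μ Kᶜ = 0)
    (hatom : ∀ x, μ {x} = 0)
    (hint : ∀ x ∈ K, Integrable (fun y => Real.log |x - y|) μ)
    (hpot : ∀ x ∈ K, ∫ y, Real.log |x - y| ∂μ = -V)
    (ν : Measure ℝ) [IsProbabilityMeasure ν] (hν : ν Kᶜ = 0) (hfin : HasFiniteEnergy ν)
    {R : ℝ} (hR : 4 < R) :
    dev R ν μ ≤ ENNReal.ofReal (logEnergy ν - V + 8 / R) ∧ V ≤ logEnergy ν + 8 / R := by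
  have hR0 : 0 < R := by linarith
  have h2ν := ae_le_two hK hν
  have h2μ := ae_le_two hK hμ
  obtain ⟨a1, a2, a3⟩ := mutualE hK hμ hatom hint hpot ν hν
  obtain ⟨b1, b2, b3⟩ := mutualE hK hμ hatom hint hpot μ hμ
  obtain ⟨f1, f1'⟩ := form_value hR ν μ h2ν h2μ a1 a2
  obtain ⟨f2, f2'⟩ := form_value hR μ μ h2μ h2μ b1 b2
  obtain ⟨f3, f3'⟩ := form_value hR ν ν h2ν h2ν hfin.1 hfin.2
  have e1 := abs_integral_bounds ν μ h2ν h2μ
  have e2 := abs_integral_bounds μ μ h2μ h2μ
  have e3 := abs_integral_bounds ν ν h2ν h2ν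
  have hI : ∫ p : ℝ × ℝ, Real.log |p.1 - p.2| ∂(ν.prod ν) = -logEnergy ν := by
    unfold logEnergy
    rw [integral_neg, neg_neg]
  rw [a3] at f1 f1'
  rw [b3] at f2 f2'
  rw [hI] at f3 f3'
  have hid := form_identity R ν μ
  rw [f1, f2, f3, ← ENNReal.ofReal_add f3' f2'] at hid
  have h2 : (2 : ℝ≥0∞) = ENNReal.ofReal 2 := by simp
  rw [h2, ← ENNReal.ofReal_mul (by norm_num)] at hid
  set E1 := ∫ p : ℝ × ℝ, |p.1 - p.2| ∂(ν.prod μ)
  set E2 := ∫ p : ℝ × ℝ, |p.1 - p.2| ∂(μ.prod μ)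
  set E3 := ∫ p : ℝ × ℝ, |p.1 - p.2| ∂(ν.prod ν)
  have hdevfin : dev R ν μ ≠ ∞ := by
    intro h
    rw [h] at hid
    simp at hid
  have hid2 := congrArg ENNReal.toReal hid
  rw [ENNReal.toReal_add ENNReal.ofReal_ne_top hdevfin, ENNReal.toReal_ofReal (by linarith),
    ENNReal.toReal_ofReal (by linarith)] at hid2
  have hdnn : 0 ≤ (dev R ν μ).toReal := ENNReal.toReal_nonneg
  have g1 : 0 ≤ E1 / R := div_nonneg e1.1 hR0.le
  have g2 : E2 / R ≤ 4 / R := div_le_div_of_nonneg_right e2.2 hR0.le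
  have g3 : E3 / R ≤ 4 / R := div_le_div_of_nonneg_right e3.2 hR0.le
  have g4 : (8 : ℝ) / R = 4 / R + 4 / R := by ring
  constructor
  · rw [← ENNReal.ofReal_toReal hdevfin]
    apply ENNReal.ofReal_le_ofReal
    linarith
  · linarith

theorem le_energy [IsProbabilityMeasure μ] (hK : ∀ x ∈ K, |x| ≤ 2) (hμ : μ Kᶜ = 0)
    (hatom : ∀ x, μ {x} = 0)
    (hint : ∀ x ∈ K, Integrable (fun y => Real.log |x - y|) μ)
    (hpot : ∀ x ∈ K, ∫ y, Real.log |x - y| ∂μ = -V)
    (ν : Measure ℝ) [IsProbabilityMeasure ν] (hν : ν Kᶜ = 0) (hfin : HasFiniteEnergy ν) :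
    V ≤ logEnergy ν := by
  have hlim : Tendsto (fun R : ℝ => logEnergy ν + 8 / R) atTop (𝓝 (logEnergy ν + 0)) :=
    (tendsto_const_nhds).add (tendsto_const_nhds.div_atTop tendsto_id)
  rw [add_zero] at hlim
  refine ge_of_tendsto hlim ?_
  filter_upwards [eventually_gt_atTop 4] with R hR
  exact (dev_estimate hK hμ hatom hint hpot ν hν hfin hR).2

theorem energy_eq [IsProbabilityMeasure μ] (hK : ∀ x ∈ K, |x| ≤ 2) (hμ : μ Kᶜ = 0)
    (hatom : ∀ x, μ {x} = 0)
    (hint : ∀ x ∈ K, Integrable (fun y => Real.log |x - y|) μ)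
    (hpot : ∀ x ∈ K, ∫ y, Real.log |x - y| ∂μ = -V) : logEnergy μ = V := by
  obtain ⟨b1, b2, b3⟩ := mutualE hK hμ hatom hint hpot μ hμ
  unfold logEnergy
  rw [integral_neg, b3, neg_neg]

/-- Frostman: a measure with constant potential on `K` is an equilibrium measure. -/
theorem isEquilibrium [hp : IsProbabilityMeasure μ] (hK : ∀ x ∈ K, |x| ≤ 2) (hμ : μ Kᶜ = 0)
    (hatom : ∀ x, μ {x} = 0)
    (hint : ∀ x ∈ K, Integrable (fun y => Real.log |x - y|) μ)
    (hpot : ∀ x ∈ K, ∫ y, Real.log |x - y| ∂μ = -V) : IsEquilibriumMeasure K μ := by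
  obtain ⟨b1, b2, b3⟩ := mutualE hK hμ hatom hint hpot μ hμ
  refine ⟨hp, hμ, ⟨b1, b2⟩, fun ν hν hνK hfin => ?_⟩
  rw [energy_eq hK hμ hatom hint hpot]
  exact le_energy hK hμ hatom hint hpot ν hνK hfin

theorem dev_mono {R R' : ℝ} (h : R ≤ R') (ν μ : Measure ℝ) : dev R ν μ ≤ dev R' ν μ := by
  unfold dev
  refine lintegral_mono' ?_ le_rfl
  unfold mR
  have e : ∀ R : ℝ, (volume.restrict (Ioo 0 R)).prod (volume : Measure ℝ) =
      ((volume : Measure ℝ).prod volume).restrict (Ioo 0 R ×ˢ univ) := by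
    intro R
    rw [← Measure.prod_restrict, Measure.restrict_univ]
  rw [e, e]
  exact Measure.restrict_mono (prod_mono (Ioo_subset_Ioo_right h) subset_rfl) le_rfl

/-- uniqueness of the equilibrium measure -/
theorem equilibrium_unique [hp : IsProbabilityMeasure μ] (hK : ∀ x ∈ K, |x| ≤ 2) (hμ : μ Kᶜ = 0)
    (hatom : ∀ x, μ {x} = 0)
    (hint : ∀ x ∈ K, Integrable (fun y => Real.log |x - y|) μ)
    (hpot : ∀ x ∈ K, ∫ y, Real.log |x - y| ∂μ = -V) (ν : Measure ℝ)
    (hν : IsEquilibriumMeasure K ν) : ν = μ := by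
  obtain ⟨hprob, hνK, hfin, hmin⟩ := hν
  have heq := isEquilibrium hK hμ hatom hint hpot
  have hIν : logEnergy ν = V := by
    refine le_antisymm ?_ (le_energy hK hμ hatom hint hpot ν hνK hfin)
    rw [← energy_eq hK hμ hatom hint hpot]
    exact hmin μ hp hμ heq.2.2.1
  -- the deviation vanishes
  have hdev : dev 6 ν μ = 0 := by
    rw [← nonpos_iff_eq_zero]
    have hlim : Tendsto (fun R : ℝ => ENNReal.ofReal (logEnergy ν - V + 8 / R)) atTop (𝓝 0) := by
      have h1 : Tendsto (fun R : ℝ => logEnergy ν - V + 8 / R) atTop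
          (𝓝 (logEnergy ν - V + 0)) :=
        (tendsto_const_nhds).add (tendsto_const_nhds.div_atTop tendsto_id)
      have h2 := (ENNReal.continuous_ofReal.tendsto _).comp h1
      rw [hIν, sub_self, add_zero, ENNReal.ofReal_zero] at h2
      rw [hIν]
      have e : (fun R : ℝ => ENNReal.ofReal (V - V + 8 / R)) =
          ENNReal.ofReal ∘ fun R : ℝ => (0 : ℝ) + 8 / R := by
        funext R; simp
      rw [e]
      exact h2
    refine ge_of_tendsto hlim ?_
    filter_upwards [eventually_ge_atTop 6] with R hR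
    exact (dev_mono hR ν μ).trans
      (dev_estimate hK hμ hatom hint hpot ν hνK hfin (by linarith)).1
  have : SFinite (mR 6) := by unfold mR; infer_instance
  have hmass : ∀ᵐ q ∂(mR 6), mass ν q = mass μ q := by
    unfold dev at hdev
    have m1 := mass_measurable ν
    have m2 := mass_measurable μ
    rw [lintegral_eq_zero_iff (by fun_prop)] at hdev
    filter_upwards [hdev] with q hq
    simp only [Pi.zero_apply, add_eq_zero, mul_self_eq_zero] at hq
    exact le_antisymm (tsub_eq_zero_iff_le.1 hq.1) (tsub_eq_zero_iff_le.1 hq.2)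
  have hmass2 : ∀ᵐ r ∂(volume.restrict (Ioo (0 : ℝ) 6)), ∀ᵐ s : ℝ,
      mass ν (r, s) = mass μ (r, s) := Measure.ae_ae_of_ae_prod hmass
  obtain ⟨r, hr, hrs⟩ : ∃ r ∈ Ioo (5 : ℝ) 6, ∀ᵐ s : ℝ, mass ν (r, s) = mass μ (r, s) := by
    by_contra hcon
    push Not at hcon
    rw [ae_iff] at hmass2
    have h1 : volume.restrict (Ioo (0 : ℝ) 6) (Ioo (5 : ℝ) 6) ≤ 0 := by
      rw [← hmass2]
      exact measure_mono fun r hr => fun h => (hcon r hr) (h.mono fun _ h' => not_not.2 h')
    rw [Measure.restrict_apply measurableSet_Ioo,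
      inter_eq_left.2 (Ioo_subset_Ioo_left (by norm_num)), Real.volume_Ioo] at h1
    norm_num at h1
  have hr0 : 0 < r := by linarith [hr.1]
  have hmassval : ∀ (ρ : Measure ℝ) (s : ℝ), mass ρ (r, s) =
      ENNReal.ofReal (1 / r) * ρ (Icc s (s + r)) := by
    intro ρ s
    unfold mass
    have e : (fun x => phi (r, s) x) =
        (Icc s (s + r)).indicator (fun _ => ENNReal.ofReal (1 / r)) := by
      funext x
      unfold phi
      by_cases hx : s ≤ x ∧ x ≤ s + r
      · rw [indicator_of_mem (by exact hx), indicator_of_mem (by exact hx)]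
      · rw [indicator_of_notMem (by exact hx), indicator_of_notMem (by exact hx)]
    rw [e, lintegral_indicator_const measurableSet_Icc]
  have hIcc : ∀ᵐ s : ℝ, ν (Icc s (s + r)) = μ (Icc s (s + r)) := by
    filter_upwards [hrs] with s hs
    rw [hmassval, hmassval] at hs
    refine (ENNReal.mul_right_inj ?_ ENNReal.ofReal_ne_top).1 hs
    rw [Ne, ENNReal.ofReal_eq_zero, not_le]
    positivity
  -- distribution functions
  have hIccIic : ∀ ρ : Measure ℝ, ρ Kᶜ = 0 → ∀ s : ℝ, s < -2 →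
      ρ (Icc s (s + r)) = ρ (Iic (s + r)) := by
    intro ρ hρ s hs
    apply le_antisymm (measure_mono Icc_subset_Iic_self)
    have hsub : Iic (s + r) ⊆ Icc s (s + r) ∪ Kᶜ := by
      intro x hx
      by_cases hxK : x ∈ K
      · left
        have := hK x hxK
        rw [abs_le] at this
        exact ⟨by linarith, hx⟩
      · right; exact hxK
    calc ρ (Iic (s + r)) ≤ ρ (Icc s (s + r) ∪ Kᶜ) := measure_mono hsub
      _ ≤ ρ (Icc s (s + r)) + ρ Kᶜ := measure_union_le _ _
      _ = ρ (Icc s (s + r)) := by rw [hρ, add_zero]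
  have hae : ∀ᵐ s : ℝ, s < -2 → ν (Iic (s + r)) = μ (Iic (s + r)) := by
    filter_upwards [hIcc] with s hs hs2
    rw [← hIccIic ν hνK s hs2, ← hIccIic μ hμ s hs2, hs]
  have hbig : ∀ ρ : Measure ℝ, IsProbabilityMeasure ρ → ρ Kᶜ = 0 → ∀ c : ℝ, 2 ≤ c →
      ρ (Iic c) = 1 := by
    intro ρ hρp hρ c hc
    apply le_antisymm prob_le_one
    have hsub : (univ : Set ℝ) ⊆ Iic c ∪ Kᶜ := by
      intro x _
      by_cases hxK : x ∈ K
      · left
        have := hK x hxK
        rw [abs_le] at this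
        exact this.2.trans hc
      · right; exact hxK
    calc (1 : ℝ≥0∞) = ρ univ := measure_univ.symm
      _ ≤ ρ (Iic c ∪ Kᶜ) := measure_mono hsub
      _ ≤ ρ (Iic c) + ρ Kᶜ := measure_union_le _ _
      _ = ρ (Iic c) := by rw [hρ, add_zero]
  apply Measure.eq_of_cdf
  ext c
  rcases le_or_gt 2 c with hc | hc
  · rw [ProbabilityTheory.cdf_eq_real, ProbabilityTheory.cdf_eq_real, Measure.real, Measure.real,
      hbig ν hprob hνK c hc, hbig μ hp hμ c hc]
  · by_contra hne
    have hcont : ContinuousWithinAt (fun x => ProbabilityTheory.cdf ν x -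
        ProbabilityTheory.cdf μ x) (Ici c) c :=
      ((ProbabilityTheory.cdf ν).right_continuous c).sub
        ((ProbabilityTheory.cdf μ).right_continuous c)
    have h1 : ∀ᶠ x in 𝓝[≥] c, ProbabilityTheory.cdf ν x - ProbabilityTheory.cdf μ x ≠ 0 :=
      hcont.eventually_ne (sub_ne_zero.2 hne)
    rw [eventually_nhdsWithin_iff, Metric.eventually_nhds_iff] at h1
    obtain ⟨δ, hδ, h1⟩ := h1
    set c' := min (c + δ) 2 with hc'
    have hcc' : c < c' := lt_min (by linarith) hc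
    have hall : Ioo (c - r) (c' - r) ⊆
        {s : ℝ | ¬(s < -2 → ν (Iic (s + r)) = μ (Iic (s + r)))} := by
      intro s hs
      have h3 : c' ≤ 2 := min_le_right _ _
      have h4 : c' ≤ c + δ := min_le_left _ _
      have h2 := h1 (y := s + r) (by
        rw [Real.dist_eq, abs_of_nonneg (by linarith [hs.1])]
        linarith [hs.2]) (show c ≤ s + r by linarith [hs.1])
      intro hcon
      apply h2
      have h5 := hcon (by linarith [hs.2, hr.1])
      rw [ProbabilityTheory.cdf_eq_real, ProbabilityTheory.cdf_eq_real, Measure.real,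
        Measure.real, h5, sub_self]
    rw [ae_iff] at hae
    have h6 : volume (Ioo (c - r) (c' - r)) ≤ 0 := by
      rw [← hae]
      exact measure_mono hall
    rw [Real.volume_Ioo] at h6
    have h7 : ENNReal.ofReal (c' - r - (c - r)) = 0 := nonpos_iff_eq_zero.1 h6
    rw [ENNReal.ofReal_eq_zero] at h7
    linarith

end

end Pool.Agent.Helper50.Gaps
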