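import Mathlib

set_option autoImplicit false

namespace Pool.Agent.Helper50.Gaps

open Polynomial Set Real Filter Topology

section IFT

variable {n : ℕ}

/-- perturbation by a combination of Lagrange basis polynomials -/
noncomputable def pert (P : ℝ[X]) (ξ : Fin n → ℝ) (v : Fin n → ℝ) : ℝ[X] :=
  P + ∑ k, C (v k) * Lagrange.basis Finset.univ ξ k

/-- critical value map -/
noncomputable def Phi (P : ℝ[X]) (ξ : Fin n → ℝ) (p : (Fin n → ℝ) × (Fin n → ℝ)) :
    (Fin n → ℝ) × (Fin n → ℝ) :=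
  (fun i => (pert P ξ p.1).eval (p.2 i), fun i => (pert P ξ p.1).derivative.eval (p.2 i))

theorem pert_zero (P : ℝ[X]) (ξ : Fin n → ℝ) : pert P ξ 0 = P := by
  unfold pert
  simp

theorem pert_eval (P : ℝ[X]) (ξ : Fin n → ℝ) (v : Fin n → ℝ) (x : ℝ) :
    (pert P ξ v).eval x = P.eval x + ∑ k, v k * (Lagrange.basis Finset.univ ξ k).eval x := by
  unfold pert
  simp [Polynomial.eval_finsetSum]

theorem pert_deriv_eval (P : ℝ[X]) (ξ : Fin n → ℝ) (v : Fin n → ℝ) (x : ℝ) :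
    (pert P ξ v).derivative.eval x = P.derivative.eval x +
      ∑ k, v k * (Lagrange.basis Finset.univ ξ k).derivative.eval x := by
  unfold pert
  simp [Polynomial.eval_finsetSum]

/-- the linear functional appearing as derivative -/
noncomputable def lf (Q : ℝ[X]) (L : Fin n → ℝ[X]) (ξ : Fin n → ℝ) (i : Fin n) :
    ((Fin n → ℝ) × (Fin n → ℝ)) →L[ℝ] ℝ :=
  Q.derivative.eval (ξ i) • ((ContinuousLinearMap.proj (R := ℝ) (φ := fun _ : Fin n => ℝ) i).comp
      (ContinuousLinearMap.snd ℝ (Fin n → ℝ) (Fin n → ℝ))) +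
    ∑ k, (L k).eval (ξ i) • ((ContinuousLinearMap.proj (R := ℝ) (φ := fun _ : Fin n => ℝ) k).comp
      (ContinuousLinearMap.fst ℝ (Fin n → ℝ) (Fin n → ℝ)))

theorem lf_apply (Q : ℝ[X]) (L : Fin n → ℝ[X]) (ξ : Fin n → ℝ) (i : Fin n)
    (p : (Fin n → ℝ) × (Fin n → ℝ)) :
    lf Q L ξ i p = Q.derivative.eval (ξ i) * p.2 i + ∑ k, (L k).eval (ξ i) * p.1 k := by
  unfold lf
  simp

theorem hasStrict_comp (Q : ℝ[X]) (L : Fin n → ℝ[X]) (ξ : Fin n → ℝ) (i : Fin n) :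
    HasStrictFDerivAt (fun p : (Fin n → ℝ) × (Fin n → ℝ) =>
      Q.eval (p.2 i) + ∑ k, p.1 k * (L k).eval (p.2 i)) (lf Q L ξ i) (0, ξ) := by
  have h2 : HasStrictFDerivAt (fun p : (Fin n → ℝ) × (Fin n → ℝ) => p.2 i)
      ((ContinuousLinearMap.proj (R := ℝ) (φ := fun _ : Fin n => ℝ) i).comp
      (ContinuousLinearMap.snd ℝ (Fin n → ℝ) (Fin n → ℝ))) (0, ξ) :=
    ((ContinuousLinearMap.proj (R := ℝ) (φ := fun _ : Fin n => ℝ) i).comp
      (ContinuousLinearMap.snd ℝ (Fin n → ℝ) (Fin n → ℝ))).hasStrictFDerivAt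
  have h1 : ∀ k : Fin n, HasStrictFDerivAt (fun p : (Fin n → ℝ) × (Fin n → ℝ) => p.1 k)
      ((ContinuousLinearMap.proj (R := ℝ) (φ := fun _ : Fin n => ℝ) k).comp
      (ContinuousLinearMap.fst ℝ (Fin n → ℝ) (Fin n → ℝ))) (0, ξ) := fun k =>
    ((ContinuousLinearMap.proj (R := ℝ) (φ := fun _ : Fin n => ℝ) k).comp
      (ContinuousLinearMap.fst ℝ (Fin n → ℝ) (Fin n → ℝ))).hasStrictFDerivAt
  have hQ : ∀ Q : ℝ[X], HasStrictFDerivAt
      (fun p : (Fin n → ℝ) × (Fin n → ℝ) => Q.eval (p.2 i)) (Q.derivative.eval (ξ i) •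
        ((ContinuousLinearMap.proj (R := ℝ) (φ := fun _ : Fin n => ℝ) i).comp
          (ContinuousLinearMap.snd ℝ (Fin n → ℝ) (Fin n → ℝ)))) (0, ξ) := fun Q =>
    HasStrictDerivAt.comp_hasStrictFDerivAt_of_eq (y := ξ i) (0, ξ) (Q.hasStrictDerivAt (ξ i)) h2 rfl
  unfold lf
  refine (hQ Q).add ?_
  refine HasStrictFDerivAt.fun_sum fun k _ => ?_
  have h3 := (h1 k).mul (hQ (L k))
  refine h3.congr_fderiv ?_
  ext p <;> simp

/-- derivative of `Phi` -/
noncomputable def dPhi (P : ℝ[X]) (ξ : Fin n → ℝ) :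
    ((Fin n → ℝ) × (Fin n → ℝ)) →L[ℝ] ((Fin n → ℝ) × (Fin n → ℝ)) :=
  (ContinuousLinearMap.pi (lf P (Lagrange.basis Finset.univ ξ) ξ)).prod
    (ContinuousLinearMap.pi (lf P.derivative
      (fun k => (Lagrange.basis Finset.univ ξ k).derivative) ξ))

theorem hasStrict_Phi (P : ℝ[X]) (ξ : Fin n → ℝ) :
    HasStrictFDerivAt (Phi P ξ) (dPhi P ξ) (0, ξ) := by
  unfold dPhi
  have e : Phi P ξ = fun p : (Fin n → ℝ) × (Fin n → ℝ) =>
      (fun i => P.eval (p.2 i) + ∑ k, p.1 k * (Lagrange.basis Finset.univ ξ k).eval (p.2 i),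
      fun i => P.derivative.eval (p.2 i) +
        ∑ k, p.1 k * (Lagrange.basis Finset.univ ξ k).derivative.eval (p.2 i)) := by
    funext p
    unfold Phi
    simp only [pert_eval, pert_deriv_eval]
  rw [e]
  refine HasStrictFDerivAt.prodMk ?_ ?_
  · rw [hasStrictFDerivAt_pi']
    intro i
    exact hasStrict_comp P (Lagrange.basis Finset.univ ξ) ξ i
  · rw [hasStrictFDerivAt_pi']
    intro i
    exact hasStrict_comp P.derivative (fun k => (Lagrange.basis Finset.univ ξ k).derivative) ξ i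

theorem dPhi_surj (P : ℝ[X]) (ξ : Fin n → ℝ) (hinj : Function.Injective ξ)
    (h1 : ∀ i, P.derivative.eval (ξ i) = 0) (h2 : ∀ i, P.derivative.derivative.eval (ξ i) ≠ 0) :
    (dPhi P ξ).range = ⊤ := by
  rw [LinearMap.range_eq_top]
  rintro ⟨a, b⟩
  have hb : ∀ i : Fin n, ∑ k, (Lagrange.basis Finset.univ ξ k).eval (ξ i) * a k = a i := by
    intro i
    rw [Finset.sum_eq_single i]
    · rw [Lagrange.eval_basis_self hinj.injOn (Finset.mem_univ i), one_mul]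
    · intro k _ hk
      rw [Lagrange.eval_basis_of_ne hk (Finset.mem_univ i), zero_mul]
    · intro h; exact absurd (Finset.mem_univ i) h
  refine ⟨(a, fun i => (b i - ∑ k, (Lagrange.basis Finset.univ ξ k).derivative.eval (ξ i) * a k) /
    P.derivative.derivative.eval (ξ i)), ?_⟩
  unfold dPhi
  ext i
  · change lf P (Lagrange.basis Finset.univ ξ) ξ i _ = a i
    rw [lf_apply, h1 i, zero_mul, zero_add]
    exact hb i
  · change lf P.derivative (fun k => (Lagrange.basis Finset.univ ξ k).derivative) ξ i _ = b i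
    rw [lf_apply]
    have := h2 i
    simp only
    rw [mul_div_cancel₀ _ this]
    ring

theorem map_nhds_Phi (P : ℝ[X]) (ξ : Fin n → ℝ) (hinj : Function.Injective ξ)
    (h1 : ∀ i, P.derivative.eval (ξ i) = 0) (h2 : ∀ i, P.derivative.derivative.eval (ξ i) ≠ 0) :
    map (Phi P ξ) (𝓝 (0, ξ)) = 𝓝 (fun i => P.eval (ξ i), 0) := by
  have h := (hasStrict_Phi P ξ).map_nhds_eq_of_surj (dPhi_surj P ξ hinj h1 h2)
  rw [h]
  congr 1
  unfold Phi
  simp only [pert_zero]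
  ext i
  · rfl
  · simp [h1 i]

/-- Realising nearby critical values. -/
theorem exists_crit_values (P : ℝ[X]) (ξ : Fin n → ℝ) (hinj : Function.Injective ξ)
    (h1 : ∀ i, P.derivative.eval (ξ i) = 0) (h2 : ∀ i, P.derivative.derivative.eval (ξ i) ≠ 0)
    (i0 : Fin n) (s : ℝ) (W : Set ((Fin n → ℝ) × (Fin n → ℝ))) (hW : W ∈ 𝓝 (0, ξ)) :
    ∃ η > 0, ∃ v x : Fin n → ℝ, (v, x) ∈ W ∧
      (∀ i, (pert P ξ v).eval (x i) = P.eval (ξ i) + if i = i0 then η * s else 0) ∧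
      (∀ i, (pert P ξ v).derivative.eval (x i) = 0) := by
  have hmem : Phi P ξ '' W ∈ 𝓝 ((fun i => P.eval (ξ i), 0) : (Fin n → ℝ) × (Fin n → ℝ)) := by
    rw [← map_nhds_Phi P ξ hinj h1 h2]
    exact image_mem_map hW
  have hcont : Continuous fun η : ℝ =>
      ((fun i => P.eval (ξ i) + if i = i0 then η * s else 0, 0) :
        (Fin n → ℝ) × (Fin n → ℝ)) := by
    refine Continuous.prodMk (continuous_pi fun i => ?_) continuous_const
    split_ifs <;> fun_prop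
  have h0 : ((fun i => P.eval (ξ i) + if i = i0 then (0 : ℝ) * s else 0, 0) :
        (Fin n → ℝ) × (Fin n → ℝ)) = (fun i => P.eval (ξ i), 0) := by
    ext i <;> simp
  have hev : ∀ᶠ η : ℝ in 𝓝 0, ((fun i => P.eval (ξ i) + if i = i0 then η * s else 0, 0) :
        (Fin n → ℝ) × (Fin n → ℝ)) ∈ Phi P ξ '' W := by
    apply hcont.continuousAt.eventually_mem
    rw [h0]
    exact hmem
  have hev2 : ∀ᶠ η : ℝ in 𝓝[>] 0, ((fun i => P.eval (ξ i) + if i = i0 then η * s else 0, 0) :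
        (Fin n → ℝ) × (Fin n → ℝ)) ∈ Phi P ξ '' W ∧ 0 < η :=
    (hev.filter_mono nhdsWithin_le_nhds).and self_mem_nhdsWithin
  obtain ⟨η, hη, hη0⟩ := hev2.exists
  obtain ⟨⟨v, x⟩, hvx, heq⟩ := hη
  refine ⟨η, hη0, v, x, hvx, ?_, ?_⟩
  · intro i
    have := congrFun (congrArg Prod.fst heq) i
    exact this
  · intro i
    have := congrFun (congrArg Prod.snd heq) i
    exact this

end IFT

end Pool.Agent.Helper50.Gaps
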