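import Mathlib
import Pool.Agent.Helper50.Gaps.Double
import Pool.Agent.Helper50.Gaps.IFT
import Pool.Agent.Helper50.Gaps.J

set_option autoImplicit false

namespace Pool.Agent.Helper50.Gaps

open Polynomial Set Real Filter Topology

theorem exists_norm_bound (P : ℝ[X]) (R : ℝ) : ∃ M : ℝ, 0 ≤ M ∧ ∀ z : ℂ, ‖z‖ ≤ R →
    ‖aeval z P‖ ≤ M := by
  have hc : Continuous fun z : ℂ => ‖aeval z P‖ := by
    have : (fun z : ℂ => ‖aeval z P‖) = fun z : ℂ => ‖(P.map (algebraMap ℝ ℂ)).eval z‖ := by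
      funext z; rw [Polynomial.eval_map_algebraMap]
    rw [this]
    fun_prop
  obtain ⟨M, hM⟩ := (isCompact_closedBall (0 : ℂ) R).bddAbove_image hc.continuousOn
  refine ⟨max M 0, le_max_right _ _, fun z hz => ?_⟩
  refine le_trans (hM ⟨z, ?_, rfl⟩) (le_max_left _ _)
  simpa using hz

theorem J_close (P : ℝ[X]) (R : ℝ) {ε : ℝ} (hε : 0 < ε) :
    ∃ δ > 0, ∀ z : ℂ, ‖z‖ ≤ R → ∀ w : ℂ, ‖w - aeval z P‖ ≤ δ → |J w - J (aeval z P)| ≤ ε := by
  obtain ⟨M, hM0, hM⟩ := exists_norm_bound P R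
  have huc := (isCompact_closedBall (0 : ℂ) (M + 1)).uniformContinuousOn_of_continuous
    J_continuous.continuousOn
  rw [Metric.uniformContinuousOn_iff] at huc
  obtain ⟨δ, hδ, h⟩ := huc ε hε
  refine ⟨min (δ / 2) 1, by positivity, fun z hz w hw => ?_⟩
  have h1 := hM z hz
  have h2 : ‖w‖ ≤ M + 1 := by
    calc ‖w‖ = ‖(w - aeval z P) + aeval z P‖ := by ring_nf
      _ ≤ ‖w - aeval z P‖ + ‖aeval z P‖ := norm_add_le _ _
      _ ≤ 1 + M := add_le_add (hw.trans (min_le_right _ _)) h1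
      _ = M + 1 := by ring
  have h3 := h w (by simpa using h2) (aeval z P) (by simp; linarith) (by
    rw [dist_eq_norm]
    have := hw.trans (min_le_left _ _)
    linarith)
  rw [Real.dist_eq] at h3
  exact h3.le

namespace Stage

variable (S : Stage)

/-- nodes after moving the critical points -/
noncomputable def newY (x : Fin (S.N - 1) → ℝ) (j : ℕ) : ℝ :=
  if h : 1 ≤ j ∧ j < S.N then x ⟨j - 1, by omega⟩ else S.y j

theorem newY_continuous (j : ℕ) : Continuous fun x => S.newY x j := by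
  unfold newY
  by_cases h : 1 ≤ j ∧ j < S.N
  · simp only [dif_pos h]; fun_prop
  · simp only [dif_neg h]; fun_prop

theorem newY_xi (j : ℕ) : S.newY (fun i => S.y (i + 1)) j = S.y j := by
  unfold newY
  by_cases h : 1 ≤ j ∧ j < S.N
  · rw [dif_pos h]
    simp only
    rw [Nat.sub_add_cancel h.1]
  · rw [dif_neg h]

theorem xi_inj : Function.Injective fun i : Fin (S.N - 1) => S.y (i + 1) := by
  intro i j hij
  by_contra hne
  have hij' : S.y (i + 1) = S.y (j + 1) := hij
  have hi := i.2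
  have hj := j.2
  rcases lt_or_gt_of_ne hne with h | h
  · have := S.anti_lt (i := i + 1) (j := j + 1) (by simpa using h) (by omega)
    rw [hij'] at this; exact lt_irrefl _ this
  · have := S.anti_lt (i := j + 1) (j := i + 1) (by simpa using h) (by omega)
    rw [hij'] at this; exact lt_irrefl _ this

theorem pert_degree {n : ℕ} (P : ℝ[X]) (ξ : Fin n → ℝ) (hinj : Function.Injective ξ)
    (hP : n < P.natDegree) (v : Fin n → ℝ) :
    (∑ k, C (v k) * Lagrange.basis Finset.univ ξ k).degree < P.degree := by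
  have hP0 : P ≠ 0 := by rintro rfl; simp at hP
  refine lt_of_le_of_lt (Polynomial.degree_sum_le _ _) ?_
  rw [Finset.sup_lt_iff]
  · intro k _
    rw [Polynomial.degree_eq_natDegree hP0]
    by_cases hv : v k = 0
    · rw [hv]; simp
    · rw [Polynomial.degree_C_mul hv, Lagrange.degree_basis hinj.injOn (Finset.mem_univ k)]
      rw [Finset.card_univ, Fintype.card_fin]
      have : n - 1 < P.natDegree := by omega
      exact_mod_cast this
  · rw [Polynomial.degree_eq_natDegree hP0]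
    exact WithBot.bot_lt_coe _

theorem pert_natDegree {n : ℕ} (P : ℝ[X]) (ξ : Fin n → ℝ) (hinj : Function.Injective ξ)
    (hP : n < P.natDegree) (v : Fin n → ℝ) : (pert P ξ v).natDegree = P.natDegree := by
  unfold pert
  exact Polynomial.natDegree_add_eq_left_of_degree_lt (pert_degree P ξ hinj hP v)

theorem pert_leadingCoeff {n : ℕ} (P : ℝ[X]) (ξ : Fin n → ℝ) (hinj : Function.Injective ξ)
    (hP : n < P.natDegree) (v : Fin n → ℝ) :
    (pert P ξ v).leadingCoeff = P.leadingCoeff := by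
  unfold pert
  rw [Polynomial.leadingCoeff_add_of_degree_lt' (pert_degree P ξ hinj hP v)]

/-- opening the first (closed) gap a little -/
theorem exists_perturb (hN : 2 ≤ S.N) (hc : (-1) ^ 1 * S.P.eval (S.y 1) = 1) {ε : ℝ} (R : ℝ)
    (hε : 0 < ε) :
    ∃ S' : Stage, S'.N = S.N ∧ S'.P.leadingCoeff = S.P.leadingCoeff ∧
      1 < (-1) ^ 1 * S'.P.eval (S'.y 1) ∧
      (∀ j, 2 ≤ j → j < S.N → S'.P.eval (S'.y j) = S.P.eval (S.y j)) ∧
      (∀ u, |S'.t u - S.t u| ≤ ε) ∧
      ∀ z : ℂ, ‖z‖ ≤ R → |J (aeval z S'.P) - J (aeval z S.P)| ≤ ε := by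
  set n := S.N - 1 with hn
  set ξ : Fin n → ℝ := fun i => S.y (i + 1) with hξ
  have hinj : Function.Injective ξ := S.xi_inj
  have hdeg : n < S.P.natDegree := by rw [S.deg]; omega
  obtain ⟨δ1, hδ1, ht⟩ := S.t_close hε
  obtain ⟨δ2, hδ2, hJ⟩ := J_close S.P R hε
  set R' := max R 2 with hR'
  -- bound for the basis polynomials
  have hb : ∀ k : Fin n, ∃ M : ℝ, 0 ≤ M ∧ ∀ z : ℂ, ‖z‖ ≤ R' →
      ‖aeval z (Lagrange.basis Finset.univ ξ k)‖ ≤ M := fun k => exists_norm_bound _ _
  choose M hM0 hM using hb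
  set MM := ∑ k, M k with hMM
  have hMM0 : 0 ≤ MM := Finset.sum_nonneg fun k _ => hM0 k
  set δ := min δ1 δ2 with hδ
  have hδ0 : 0 < δ := lt_min hδ1 hδ2
  have hpert : ∀ v : Fin n → ℝ, ‖v‖ * (MM + 1) ≤ δ → ∀ z : ℂ, ‖z‖ ≤ R' →
      ‖aeval z (pert S.P ξ v) - aeval z S.P‖ ≤ δ := by
    intro v hv z hz
    have e : aeval z (pert S.P ξ v) - aeval z S.P =
        ∑ k, (v k : ℂ) * aeval z (Lagrange.basis Finset.univ ξ k) := by
      unfold pert
      rw [map_add, add_sub_cancel_left, map_sum]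
      refine Finset.sum_congr rfl fun k _ => ?_
      rw [map_mul, Polynomial.aeval_C]
      rfl
    rw [e]
    calc ‖∑ k, (v k : ℂ) * aeval z (Lagrange.basis Finset.univ ξ k)‖
        ≤ ∑ k, ‖(v k : ℂ) * aeval z (Lagrange.basis Finset.univ ξ k)‖ := norm_sum_le _ _
      _ ≤ ∑ k, ‖v‖ * M k := by
          refine Finset.sum_le_sum fun k _ => ?_
          rw [norm_mul, Complex.norm_real]
          exact mul_le_mul (norm_le_pi_norm v k) (hM k z hz) (norm_nonneg _) (norm_nonneg _)
      _ = ‖v‖ * MM := by rw [← Finset.mul_sum]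
      _ ≤ ‖v‖ * (MM + 1) := by
          apply mul_le_mul_of_nonneg_left _ (norm_nonneg _); linarith
      _ ≤ δ := hv
  -- the neighbourhood
  have hfst : Continuous fun p : (Fin n → ℝ) × (Fin n → ℝ) => p.1 := continuous_fst
  have hW1 : ∀ᶠ p : (Fin n → ℝ) × (Fin n → ℝ) in 𝓝 (0, ξ), ‖p.1‖ * (MM + 1) < δ := by
    have : Continuous fun p : (Fin n → ℝ) × (Fin n → ℝ) => ‖p.1‖ * (MM + 1) := by fun_prop
    refine this.continuousAt.eventually_lt continuousAt_const ?_
    simpa using hδ0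
  have hW2 : ∀ j ∈ Finset.range (S.N + 1),
      ∀ᶠ p : (Fin n → ℝ) × (Fin n → ℝ) in 𝓝 (0, ξ), |S.newY p.2 j - S.y j| < δ := by
    intro j _
    have : Continuous fun p : (Fin n → ℝ) × (Fin n → ℝ) => |S.newY p.2 j - S.y j| := by
      have := (S.newY_continuous j).comp (continuous_snd (X := Fin n → ℝ))
      exact (this.sub continuous_const).abs
    refine this.continuousAt.eventually_lt continuousAt_const ?_
    have h := S.newY_xi j
    simp only [hξ] 
    rw [h]
    simpa using hδ0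
  have hW3 : ∀ j ∈ Finset.range S.N,
      ∀ᶠ p : (Fin n → ℝ) × (Fin n → ℝ) in 𝓝 (0, ξ), S.newY p.2 (j + 1) < S.newY p.2 j := by
    intro j hj
    rw [Finset.mem_range] at hj
    have c1 : Continuous fun p : (Fin n → ℝ) × (Fin n → ℝ) => S.newY p.2 (j + 1) :=
      (S.newY_continuous (j + 1)).comp (continuous_snd (X := Fin n → ℝ))
    have c2 : Continuous fun p : (Fin n → ℝ) × (Fin n → ℝ) => S.newY p.2 j :=
      (S.newY_continuous j).comp (continuous_snd (X := Fin n → ℝ))
    refine c1.continuousAt.eventually_lt c2.continuousAt ?_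
    simp only [hξ]
    rw [S.newY_xi, S.newY_xi]
    exact S.anti j hj
  have hev : ∀ x : ℝ, Continuous fun p : (Fin n → ℝ) × (Fin n → ℝ) =>
      (pert S.P ξ p.1).eval x := by
    intro x
    simp only [pert_eval]
    fun_prop
  have hW4 : ∀ᶠ p : (Fin n → ℝ) × (Fin n → ℝ) in 𝓝 (0, ξ), 1 < (pert S.P ξ p.1).eval 2 := by
    refine continuousAt_const.eventually_lt (hev 2).continuousAt ?_
    simp only [pert_zero]
    have := S.top
    rwa [S.y0] at this
  have hW5 : ∀ᶠ p : (Fin n → ℝ) × (Fin n → ℝ) in 𝓝 (0, ξ),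
      1 < (-1) ^ S.N * (pert S.P ξ p.1).eval (-2) := by
    refine continuousAt_const.eventually_lt ((hev (-2)).const_smul ((-1 : ℝ) ^ S.N)).continuousAt ?_
    simp only [pert_zero]
    have := S.bot
    rw [S.yN] at this
    simpa using this
  have hW : ∀ᶠ p : (Fin n → ℝ) × (Fin n → ℝ) in 𝓝 (0, ξ),
      (‖p.1‖ * (MM + 1) < δ ∧ (∀ j ∈ Finset.range (S.N + 1), |S.newY p.2 j - S.y j| < δ)) ∧
      (∀ j ∈ Finset.range S.N, S.newY p.2 (j + 1) < S.newY p.2 j) ∧
      (1 < (pert S.P ξ p.1).eval 2 ∧ 1 < (-1) ^ S.N * (pert S.P ξ p.1).eval (-2)) :=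
    (hW1.and ((eventually_all_finset _).2 hW2)).and (((eventually_all_finset _).2 hW3).and
      (hW4.and hW5))
  obtain ⟨η, hη, v, x, hvx, hval, hder⟩ := exists_crit_values S.P ξ hinj
    (fun i => S.crit (i + 1) (by omega) (by have := i.2; omega))
    (fun i => S.deriv2_ne_zero (by omega) (by have := i.2; omega)) ⟨0, by omega⟩ (-1) _ hW
  obtain ⟨⟨hv, hy⟩, hord, htop, hbot⟩ := hvx
  simp only at hv hy hord htop hbot
  have hnode : ∀ j, (h1 : 1 ≤ j) → (h2 : j < S.N) → S.newY x j = x ⟨j - 1, by omega⟩ := by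
    intro j h1 h2
    unfold newY
    rw [dif_pos ⟨h1, h2⟩]
  have hvalj : ∀ j, 1 ≤ j → j < S.N → (pert S.P ξ v).eval (S.newY x j) =
      S.P.eval (S.y j) + if j = 1 then η * (-1) else 0 := by
    intro j h1 h2
    rw [hnode j h1 h2, hval]
    simp only [hξ]
    rw [Nat.sub_add_cancel h1]
    congr 1
    by_cases hj : j = 1
    · subst hj; simp
    · rw [if_neg hj, if_neg]
      intro h
      rw [Fin.mk.injEq] at h
      omega
  have hderj : ∀ j, 1 ≤ j → j < S.N → (pert S.P ξ v).derivative.eval (S.newY x j) = 0 := by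
    intro j h1 h2
    rw [hnode j h1 h2, hder]
  have hy0 : S.newY x 0 = 2 := by
    unfold newY
    rw [dif_neg (by omega), S.y0]
  have hyN : S.newY x S.N = -2 := by
    unfold newY
    rw [dif_neg (by omega), S.yN]
  let S' : Stage :=
    { N := S.N
      hN := S.hN
      P := pert S.P ξ v
      deg := by rw [pert_natDegree _ _ hinj hdeg, S.deg]
      lead := by rw [pert_leadingCoeff _ _ hinj hdeg]; exact S.lead
      y := S.newY x
      y0 := hy0
      yN := hyN
      anti := fun j hj => hord j (Finset.mem_range.2 hj)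
      crit := hderj
      top := by rw [hy0]; exact htop
      bot := by rw [hyN]; exact hbot
      val := by
        intro j h1 h2
        rw [hvalj j h1 h2]
        by_cases hj : j = 1
        · subst hj
          rw [if_pos rfl, mul_add, hc]
          linarith
        · rw [if_neg hj, add_zero]
          exact S.val j h1 h2 }
  refine ⟨S', rfl, pert_leadingCoeff _ _ hinj hdeg v, ?_, ?_, ?_, ?_⟩
  · change 1 < (-1) ^ 1 * (pert S.P ξ v).eval (S.newY x 1)
    rw [hvalj 1 le_rfl (by omega), if_pos rfl, mul_add, hc]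
    linarith
  · intro j h1 h2
    change (pert S.P ξ v).eval (S.newY x j) = _
    rw [hvalj j (by omega) h2, if_neg (by omega), add_zero]
  · refine ht S' rfl ?_ ?_
    · intro j hj
      have h1 := hy j (Finset.mem_range.2 (by omega))
      exact h1.le.trans (min_le_left _ _)
    · intro w hw
      have h1 := hpert v hv.le (w : ℂ) (by
        rw [Complex.norm_real, Real.norm_eq_abs]
        exact (abs_le.2 ⟨by linarith [hw.1], hw.2⟩ : |w| ≤ 2).trans (le_max_right _ _))
      have e1 : aeval (w : ℂ) (pert S.P ξ v) = (((pert S.P ξ v).eval w : ℝ) : ℂ) := by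
        exact Polynomial.aeval_algebraMap_apply_eq_algebraMap_eval w (pert S.P ξ v)
      have e2 : aeval (w : ℂ) S.P = ((S.P.eval w : ℝ) : ℂ) := by
        exact Polynomial.aeval_algebraMap_apply_eq_algebraMap_eval w S.P
      rw [e1, e2, ← Complex.ofReal_sub, Complex.norm_real, Real.norm_eq_abs] at h1
      exact h1.trans (min_le_left _ _)
  · intro z hz
    exact hJ z hz _ ((hpert v hv.le z (hz.trans (le_max_left _ _))).trans (min_le_right _ _))

end Stage

end Pool.Agent.Helper50.Gaps
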