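import Mathlib
import Pool.Agent.Helper50.Gaps.Double
import Pool.Agent.Helper50.Gaps.Arcsine

set_option autoImplicit false

namespace Pool.Agent.Helper50.Gaps

open Polynomial Set Real Filter Topology MeasureTheory

/-- integrability of the log kernel off the real axis -/
theorem intervalIntegrable_log {τ : ℝ → ℝ} (hτ : AntitoneOn τ (Icc 0 1))
    (hb : ∀ u ∈ Icc (0 : ℝ) 1, |τ u| ≤ 2) {z : ℂ} (hz : z.im ≠ 0) {a b : ℝ}
    (ha : a ∈ Icc (0 : ℝ) 1) (hb1 : b ∈ Icc (0 : ℝ) 1) :
    IntervalIntegrable (fun u => Real.log ‖z - τ u‖) volume a b := by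
  rw [intervalIntegrable_iff]
  have hsub : uIoc a b ⊆ Icc 0 1 := by
    refine uIoc_subset_uIcc.trans ?_
    exact uIcc_subset_Icc ha hb1
  have hm : AEMeasurable τ (volume.restrict (Icc (0 : ℝ) 1)) :=
    aemeasurable_restrict_of_antitoneOn measurableSet_Icc hτ
  have hm2 : AEStronglyMeasurable (fun u => Real.log ‖z - τ u‖)
      (volume.restrict (Icc (0 : ℝ) 1)) := by
    have h1 : Measurable fun x : ℝ => Real.log ‖z - x‖ := by fun_prop
    exact (h1.comp_aemeasurable hm).aestronglyMeasurable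
  refine IntegrableOn.mono_set ?_ hsub
  refine Integrable.of_bound hm2 (|Real.log (|z.im|)| + |Real.log (‖z‖ + 2)|) ?_
  rw [ae_restrict_iff' measurableSet_Icc]
  refine Eventually.of_forall fun u hu => ?_
  have h1 : |z.im| ≤ ‖z - τ u‖ := by
    have := Complex.abs_im_le_norm (z - τ u)
    simpa using this
  have h2 : ‖z - τ u‖ ≤ ‖z‖ + 2 := by
    refine (norm_sub_le _ _).trans ?_
    rw [Complex.norm_real, Real.norm_eq_abs]
    linarith [hb u hu]
  have h3 : 0 < |z.im| := abs_pos.2 hz
  have h4 : Real.log (|z.im|) ≤ Real.log ‖z - τ u‖ := Real.log_le_log h3 h1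
  have h5 : Real.log ‖z - τ u‖ ≤ Real.log (‖z‖ + 2) := Real.log_le_log (h3.trans_le h1) h2
  rw [Real.norm_eq_abs, abs_le]
  have h6 := neg_abs_le (Real.log (|z.im|))
  have h7 := le_abs_self (Real.log (‖z‖ + 2))
  have h8 := abs_nonneg (Real.log (‖z‖ + 2))
  have h9 := abs_nonneg (Real.log (|z.im|))
  constructor <;> linarith

namespace Stage

variable (S : Stage)

/-- the preimage parameter in band `j` -/
noncomputable def uj (j : ℕ) (α : ℝ) : ℝ :=
  if Even j then (j : ℝ) / S.N + α / S.N else ((j : ℝ) + 1) / S.N - α / S.N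

theorem Npos : (0 : ℝ) < S.N := by exact_mod_cast S.hN

theorem N_mul_uj (j : ℕ) (α : ℝ) :
    (S.N : ℝ) * S.uj j α = if Even j then (j : ℝ) + α else (j : ℝ) + 1 - α := by
  have := S.Npos
  unfold uj
  split_ifs <;> field_simp

theorem uj_mem {j : ℕ} {α : ℝ} (h0 : 0 < α) (h1 : α < 1) :
    (j : ℝ) < S.N * S.uj j α ∧ S.N * S.uj j α < j + 1 := by
  rw [N_mul_uj]
  split_ifs <;> constructor <;> linarith

theorem uj_mem01 {j : ℕ} (hj : j < S.N) {α : ℝ} (h0 : 0 < α) (h1 : α < 1) :
    S.uj j α ∈ Icc (0 : ℝ) 1 := by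
  obtain ⟨h2, h3⟩ := S.uj_mem (j := j) h0 h1
  have hN := S.Npos
  have hj' : (j : ℝ) + 1 ≤ S.N := by exact_mod_cast hj
  have h4 : (0 : ℝ) ≤ j := Nat.cast_nonneg j
  constructor
  · by_contra hcon
    rw [not_le] at hcon
    nlinarith
  · by_contra hcon
    rw [not_le] at hcon
    nlinarith

theorem cos_uj (j : ℕ) (α : ℝ) : Real.cos (π * (S.N * S.uj j α)) = Real.cos (π * α) := by
  rw [N_mul_uj]
  by_cases h : Even j
  · rw [if_pos h]
    obtain ⟨k, hk⟩ := h
    have : π * ((j : ℝ) + α) = π * α + k * (2 * π) := by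
      rw [hk]; push_cast; ring
    rw [this, Real.cos_add_nat_mul_two_pi]
  · rw [if_neg h]
    rw [Nat.not_even_iff_odd] at h
    obtain ⟨k, hk⟩ := h
    have : π * ((j : ℝ) + 1 - α) = -(π * α) + ((k + 1 : ℕ) : ℝ) * (2 * π) := by
      rw [hk]; push_cast; ring
    rw [this, Real.cos_add_nat_mul_two_pi, Real.cos_neg]

theorem uj_injOn {α : ℝ} (h0 : 0 < α) (h1 : α < 1) :
    Set.InjOn (fun j => S.t (S.uj j α)) (Finset.range S.N) := by
  intro i hi j hj hij
  simp only [Finset.coe_range, mem_Iio] at hi hj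
  have h2 : S.uj i α = S.uj j α :=
    S.t_strictAnti.injOn (S.uj_mem01 hi h0 h1) (S.uj_mem01 hj h0 h1) hij
  obtain ⟨h3, h4⟩ := S.uj_mem (j := i) h0 h1
  obtain ⟨h5, h6⟩ := S.uj_mem (j := j) h0 h1
  rw [h2] at h3 h4
  have h7 : (i : ℝ) < j + 1 := by linarith
  have h8 : (j : ℝ) < i + 1 := by linarith
  have h9 : i < j + 1 := by exact_mod_cast h7
  have h10 : j < i + 1 := by exact_mod_cast h8
  omega

theorem factor {α : ℝ} (h0 : 0 < α) (h1 : α < 1) (z : ℂ) :
    aeval z S.P - (Real.cos (π * α) : ℝ) =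
      (S.P.leadingCoeff : ℂ) * ∏ j ∈ Finset.range S.N, (z - S.t (S.uj j α)) := by
  set c := Real.cos (π * α) with hc
  set Q : ℝ[X] := S.P - C c with hQ
  have hdlt : (C c).degree < S.P.degree := by
    rw [Polynomial.degree_eq_natDegree S.P_ne_zero, S.deg]
    refine lt_of_le_of_lt Polynomial.degree_C_le ?_
    exact_mod_cast S.hN
  have hQdeg : Q.natDegree = S.N := by
    rw [hQ, Polynomial.natDegree_sub_C, S.deg]
  have hQlead : Q.leadingCoeff = S.P.leadingCoeff := by
    rw [hQ, Polynomial.leadingCoeff_sub_of_degree_lt hdlt]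
  have hQ0 : Q ≠ 0 := by
    intro h
    have := S.lead
    rw [← hQlead, h, Polynomial.leadingCoeff_zero] at this
    exact lt_irrefl _ this
  set F : Finset ℝ := (Finset.range S.N).image fun j => S.t (S.uj j α) with hF
  have hFcard : F.card = S.N := by
    rw [hF, Finset.card_image_of_injOn (S.uj_injOn h0 h1), Finset.card_range]
  have hroots : Q.roots = F.val := by
    symm
    apply Multiset.eq_of_le_of_card_le
    · rw [Multiset.le_iff_subset F.nodup]
      intro x hx
      rw [Finset.mem_val, hF, Finset.mem_image] at hx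
      obtain ⟨j, hj, rfl⟩ := hx
      rw [Polynomial.mem_roots hQ0, Polynomial.IsRoot.def, hQ, Polynomial.eval_sub,
        Polynomial.eval_C, S.P_t, S.cos_uj, sub_self]
    · calc Multiset.card Q.roots ≤ Q.natDegree := Polynomial.card_roots' _
        _ = S.N := hQdeg
        _ = Multiset.card F.val := by rw [Finset.card_val, hFcard]
  have hcard : Multiset.card Q.roots = Q.natDegree := by
    rw [hroots, Finset.card_val, hFcard, hQdeg]
  have hprod := Polynomial.C_leadingCoeff_mul_prod_multiset_X_sub_C hcard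
  rw [hroots, hQlead] at hprod
  have h2 : (Multiset.map (fun a => X - C a) F.val).prod =
      ∏ j ∈ Finset.range S.N, (X - C (S.t (S.uj j α))) := by
    change ∏ a ∈ F, (X - C a) = _
    rw [hF, Finset.prod_image (S.uj_injOn h0 h1)]
  rw [h2] at hprod
  have h3 := congrArg (aeval z) hprod
  rw [hQ, map_mul, map_prod, map_sub, Polynomial.aeval_C, Polynomial.aeval_C] at h3
  simp only [map_sub, Polynomial.aeval_X, Polynomial.aeval_C] at h3
  exact h3.symm

/-- the potential formula -/
theorem potential {z : ℂ} (hz : z.im ≠ 0) :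
    ∫ u in (0 : ℝ)..1, Real.log ‖z - S.t u‖ =
      (J (aeval z S.P) - Real.log (2 * S.P.leadingCoeff)) / S.N := by
  have hN := S.Npos
  have htb : ∀ u ∈ Icc (0 : ℝ) 1, |S.t u| ≤ 2 := fun u _ => abs_le.2 (S.t_mem2 u)
  have hne : ∀ x : ℝ, z - x ≠ 0 := by
    intro x h
    apply hz
    have := congrArg Complex.im h
    simpa using this
  -- P z is not in [-1,1]
  have hPz : ∀ θ : ℝ, aeval z S.P ≠ Real.cos θ := by
    intro θ h
    set m := S.P.leadingCoeff * |z.im| ^ S.N with hm
    have hm0 : 0 < m := mul_pos S.lead (pow_pos (abs_pos.2 hz) _)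
    have hlow : ∀ α ∈ Ioo (0 : ℝ) 1, m ≤ ‖aeval z S.P - (Real.cos (π * α) : ℝ)‖ := by
      intro α hα
      rw [S.factor hα.1 hα.2 z, norm_mul, norm_prod, Complex.norm_real, Real.norm_eq_abs,
        abs_of_pos S.lead, hm]
      refine mul_le_mul_of_nonneg_left ?_ S.lead.le
      calc |z.im| ^ S.N = ∏ _j ∈ Finset.range S.N, |z.im| := by
            rw [Finset.prod_const, Finset.card_range]
        _ ≤ _ := by
            refine Finset.prod_le_prod (fun _ _ => abs_nonneg _) fun j _ => ?_
            have := Complex.abs_im_le_norm (z - S.t (S.uj j α))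
            simpa using this
    have hclosed : IsClosed {α : ℝ | m ≤ ‖aeval z S.P - (Real.cos (π * α) : ℝ)‖} := by
      refine isClosed_le continuous_const ?_
      have : Continuous fun α : ℝ => Real.cos (π * α) := by fun_prop
      fun_prop
    have h2 : Icc (0 : ℝ) 1 ⊆ {α : ℝ | m ≤ ‖aeval z S.P - (Real.cos (π * α) : ℝ)‖} := by
      rw [← closure_Ioo (zero_ne_one)]
      exact hclosed.closure_subset_iff.2 hlow
    have hpi := Real.pi_pos
    have h3 : Real.arccos (Real.cos θ) / π ∈ Icc (0 : ℝ) 1 :=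
      ⟨div_nonneg (Real.arccos_nonneg _) hpi.le, (div_le_one hpi).2 (Real.arccos_le_pi _)⟩
    have h4 := h2 h3
    simp only [mem_ofPred_eq] at h4
    rw [mul_div_cancel₀ _ hpi.ne', Real.cos_arccos (Real.neg_one_le_cos θ) (Real.cos_le_one θ),
      h, sub_self, norm_zero] at h4
    linarith
  set f : ℝ → ℝ := fun u => Real.log ‖z - S.t u‖ with hf
  have hfi : ∀ a ∈ Icc (0 : ℝ) 1, ∀ b ∈ Icc (0 : ℝ) 1, IntervalIntegrable f volume a b :=
    fun a ha b hb => intervalIntegrable_log S.t_anti htb hz ha hb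
  have harc := arcsine (aeval z S.P) hPz
  -- the integral over one band
  have hband : ∀ j < S.N, IntervalIntegrable (fun α => f (S.uj j α)) volume 0 1 ∧
      ∫ α in (0 : ℝ)..1, f (S.uj j α) =
      S.N * ∫ u in ((j : ℝ) / S.N)..(((j + 1 : ℕ) : ℝ) / S.N), f u := by
    intro j hj
    have hj' : (j : ℝ) + 1 ≤ S.N := by exact_mod_cast hj
    have hj0 : (0 : ℝ) ≤ j := Nat.cast_nonneg j
    have ha : (j : ℝ) / S.N ∈ Icc (0 : ℝ) 1 := ⟨by positivity, by rw [div_le_one hN]; linarith⟩
    have hb : ((j + 1 : ℕ) : ℝ) / S.N ∈ Icc (0 : ℝ) 1 :=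
      ⟨by positivity, by rw [div_le_one hN]; push_cast; linarith⟩
    have hg : IntervalIntegrable (fun β => f ((j : ℝ) / S.N + β / S.N)) volume 0 1 := by
      have hmem : ∀ β ∈ Icc (0 : ℝ) 1, (j : ℝ) / S.N + β / S.N ∈ Icc (0 : ℝ) 1 := by
        intro β hβ
        constructor
        · have := hβ.1; positivity
        · rw [← add_div, div_le_one hN]; linarith [hβ.2]
      refine intervalIntegrable_log (τ := fun β => S.t ((j : ℝ) / S.N + β / S.N)) ?_ ?_ hz
        ⟨le_rfl, zero_le_one⟩ ⟨zero_le_one, le_rfl⟩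
      · intro x hx y hy hxy
        refine S.t_anti (hmem x hx) (hmem y hy) ?_
        gcongr
      · intro u hu
        exact htb _ (hmem u hu)
    by_cases he : Even j
    · have e : (fun α => f (S.uj j α)) = fun α => f ((j : ℝ) / S.N + α / S.N) := by
        funext α; unfold uj; rw [if_pos he]
      constructor
      · rw [e]; exact hg
      · rw [e, intervalIntegral.integral_comp_add_div f hN.ne', smul_eq_mul]
        congr 2
        · ring
        · push_cast; ring
    · have e : (fun α => f (S.uj j α)) = fun α => f (((j : ℝ) + 1) / S.N - α / S.N) := by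
        funext α; unfold uj; rw [if_neg he]
      constructor
      · have h1 := (hg.comp_sub_left 1).symm
        rw [sub_self, sub_zero] at h1
        rw [e]
        have e2 : (fun α : ℝ => f (((j : ℝ) + 1) / S.N - α / S.N)) =
            fun x : ℝ => f ((j : ℝ) / S.N + (1 - x) / S.N) := by
          funext x
          congr 1
          ring
        rw [e2]
        exact h1
      · rw [e, intervalIntegral.integral_comp_sub_div f hN.ne', smul_eq_mul]
        congr 2
        · ring
        · push_cast; ring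
  have hkey : ∀ α ∈ Ioo (0 : ℝ) 1, Real.log ‖aeval z S.P - (Real.cos (π * α) : ℝ)‖ =
      Real.log S.P.leadingCoeff + ∑ j ∈ Finset.range S.N, f (S.uj j α) := by
    intro α hα
    rw [S.factor hα.1 hα.2 z, norm_mul, norm_prod, Complex.norm_real, Real.norm_eq_abs,
      abs_of_pos S.lead, Real.log_mul S.lead.ne', Real.log_prod]
    · intro j _
      exact norm_ne_zero_iff.2 (hne _)
    · rw [Finset.prod_ne_zero_iff]
      intro j _
      exact norm_ne_zero_iff.2 (hne _)
  have hI : ∫ α in (0 : ℝ)..1, Real.log ‖aeval z S.P - (Real.cos (π * α) : ℝ)‖ =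
      ∫ α in (0 : ℝ)..1, (Real.log S.P.leadingCoeff + ∑ j ∈ Finset.range S.N, f (S.uj j α)) := by
    apply intervalIntegral.integral_congr_ae
    have h1 : ∀ᵐ x : ℝ, x ≠ 1 := by
      rw [ae_iff]
      simp
    filter_upwards [h1] with x hx hx2
    rw [uIoc_of_le zero_le_one] at hx2
    exact hkey x ⟨hx2.1, lt_of_le_of_ne hx2.2 hx⟩
  have hsumI : IntervalIntegrable (fun α => ∑ j ∈ Finset.range S.N, f (S.uj j α)) volume 0 1 := by
    have h1 := IntervalIntegrable.sum (Finset.range S.N) (f := fun j α => f (S.uj j α))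
      (fun j hj => (hband j (Finset.mem_range.1 hj)).1)
    have e : (∑ j ∈ Finset.range S.N, fun α => f (S.uj j α)) =
        fun α => ∑ j ∈ Finset.range S.N, f (S.uj j α) := by
      funext α; simp
    rw [e] at h1
    exact h1
  rw [harc, intervalIntegral.integral_add intervalIntegrable_const hsumI,
    intervalIntegral.integral_finsetSum fun j hj => (hband j (Finset.mem_range.1 hj)).1,
    Finset.sum_congr rfl fun j hj => (hband j (Finset.mem_range.1 hj)).2, ← Finset.mul_sum,
    intervalIntegral.sum_integral_adjacent_intervals] at hI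
  · rw [Real.log_mul (by norm_num) S.lead.ne', eq_div_iff hN.ne']
    rw [Nat.cast_zero, zero_div, div_self hN.ne'] at hI
    simp only [intervalIntegral.integral_const, sub_zero, smul_eq_mul, one_mul] at hI
    linarith
  · intro k hk
    have hk' : (k : ℝ) + 1 ≤ S.N := by exact_mod_cast hk
    have hk0 : (0 : ℝ) ≤ k := Nat.cast_nonneg k
    exact hfi _ ⟨by positivity, by rw [div_le_one hN]; linarith⟩ _
      ⟨by positivity, by rw [div_le_one hN]; push_cast; linarith⟩

end Stage

end Pool.Agent.Helper50.Gaps
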