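import Mathlib
import Pool.Agent.Helper50.Gaps.Pot
import Pool.Agent.Helper50.Gaps.Perturb

set_option autoImplicit false

namespace Pool.Agent.Helper50.Gaps

open Polynomial Set Real Filter Topology MeasureTheory

theorem J_double (w : ℂ) : J (2 * w ^ 2 - 1) = 2 * J w := by
  obtain ⟨ζ, h1, h2⟩ := exists_joukowski w
  rw [J_joukowski ζ w h1 h2, J_joukowski (ζ ^ 2) (2 * w ^ 2 - 1) ?_ ?_, norm_pow, Real.log_pow]
  · norm_num
  · rw [norm_pow]; exact one_le_pow₀ h1
  · linear_combination (ζ ^ 2 + 1 + 2 * w * ζ) * h2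

theorem step (n : ℕ) (S : Stage) {d : ℝ} (hd : 0 < d) : ∃ (S' : Stage) (d' : ℝ),
    0 < d' ∧ d' ≤ d / 2 ∧ S'.N = 2 * S.N ∧ S'.P.leadingCoeff = 2 * S.P.leadingCoeff ^ 2 ∧
    (∀ j, 2 ≤ j → j < S'.N → S'.P.eval (S'.y j) = S.double.P.eval (S.double.y j)) ∧
    (∀ u ∈ Icc (0 : ℝ) 1, |S'.t u - S.t u| ≤ d) ∧
    (∀ z : ℂ, ‖z‖ ≤ n → |J (aeval z S'.P) - 2 * J (aeval z S.P)| ≤ d) ∧
    (∀ u ∈ Icc (0 : ℝ) 1, ∀ v ∈ Icc (0 : ℝ) 1, (S'.N : ℝ) * u < 1 → 1 ≤ (S'.N : ℝ) * v →
      8 * d' ≤ S'.t u - S'.t v) := by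
  have hN : 2 ≤ S.double.N := by
    rw [Stage.double_N]; have := S.hN; omega
  have hc : (-1) ^ 1 * S.double.P.eval (S.double.y 1) = 1 := by
    have := S.double_closed_odd (j := 0) S.hN
    simpa using this
  obtain ⟨S', h1, h2, h3, h4, h5, h6⟩ := S.double.exists_perturb hN hc (n : ℝ) hd
  obtain ⟨η, hη, hj⟩ := S'.jump (j := 1) le_rfl (by rw [h1]; omega) h3
  refine ⟨S', min (d / 2) (η / 8), by positivity, min_le_left _ _, by rw [h1, Stage.double_N],
    by rw [h2, Stage.double_P, S.dP_leadingCoeff], ?_, ?_, ?_, ?_⟩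
  · intro j hj1 hj2
    rw [h1] at hj2
    exact h4 j hj1 hj2
  · intro u hu
    have := h5 u
    rwa [S.double_t hu] at this
  · intro z hz
    have := h6 z hz
    have e : aeval z S.double.P = 2 * (aeval z S.P) ^ 2 - 1 := by
      rw [Stage.double_P]
      unfold Stage.dP
      rw [map_sub, map_mul, map_pow, map_one, Polynomial.aeval_C]
      norm_num
    rwa [e, J_double] at this
  · intro u hu v hv huj hvj
    have h7 := hj u hu v hv (by simpa using huj) (by simpa using hvj)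
    have h8 := min_le_right (d / 2) (η / 8)
    linarith

/-- next state -/
noncomputable def nxt (n : ℕ) (p : {p : Stage × ℝ // 0 < p.2}) : {p : Stage × ℝ // 0 < p.2} :=
  ⟨((step n p.1.1 p.2).choose, (step n p.1.1 p.2).choose_spec.choose),
    (step n p.1.1 p.2).choose_spec.choose_spec.1⟩

/-- the sequence of states -/
noncomputable def sq : ℕ → {p : Stage × ℝ // 0 < p.2}
  | 0 => ⟨(Stage.base, 1), one_pos⟩
  | n + 1 => nxt n (sq n)

/-- stages -/
noncomputable def Sn (n : ℕ) : Stage := (sq n).1.1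

/-- tolerances -/
noncomputable def dn (n : ℕ) : ℝ := (sq n).1.2

theorem dn_pos (n : ℕ) : 0 < dn n := (sq n).2

theorem sq_spec (n : ℕ) : 0 < dn (n + 1) ∧ dn (n + 1) ≤ dn n / 2 ∧ (Sn (n + 1)).N = 2 * (Sn n).N ∧
    (Sn (n + 1)).P.leadingCoeff = 2 * (Sn n).P.leadingCoeff ^ 2 ∧
    (∀ j, 2 ≤ j → j < (Sn (n + 1)).N → (Sn (n + 1)).P.eval ((Sn (n + 1)).y j) =
      (Sn n).double.P.eval ((Sn n).double.y j)) ∧
    (∀ u ∈ Icc (0 : ℝ) 1, |(Sn (n + 1)).t u - (Sn n).t u| ≤ dn n) ∧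
    (∀ z : ℂ, ‖z‖ ≤ n → |J (aeval z (Sn (n + 1)).P) - 2 * J (aeval z (Sn n).P)| ≤ dn n) ∧
    (∀ u ∈ Icc (0 : ℝ) 1, ∀ v ∈ Icc (0 : ℝ) 1, ((Sn (n + 1)).N : ℝ) * u < 1 →
      1 ≤ ((Sn (n + 1)).N : ℝ) * v → 8 * dn (n + 1) ≤ (Sn (n + 1)).t u - (Sn (n + 1)).t v) :=
  (step n (sq n).1.1 (sq n).2).choose_spec.choose_spec

theorem Sn_N (n : ℕ) : (Sn n).N = 2 ^ n := by
  induction n with
  | zero => rfl
  | succ n ih => rw [(sq_spec n).2.2.1, ih, pow_succ]; ring

theorem dn_le (n : ℕ) : dn n ≤ (1 / 2) ^ n := by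
  induction n with
  | zero => change (1 : ℝ) ≤ _; simp
  | succ n ih =>
    have := (sq_spec n).2.1
    rw [pow_succ]
    linarith

theorem dn_half (n : ℕ) : dn (n + 1) ≤ dn n / 2 := (sq_spec n).2.1

theorem closed_label (n : ℕ) : ∀ j, 1 ≤ j → j < (Sn n).N → (∀ i, j ≠ 2 ^ i) →
    (-1) ^ j * (Sn n).P.eval ((Sn n).y j) = 1 := by
  induction n with
  | zero =>
    intro j h1 h2
    rw [Sn_N] at h2
    omega
  | succ n ih =>
    intro j h1 h2 h3
    have h4 : 2 ≤ j := by
      have := h3 0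
      rw [pow_zero] at this
      omega
    rw [(sq_spec n).2.2.2.2.1 j h4 h2]
    rw [(sq_spec n).2.2.1] at h2
    rcases Nat.even_or_odd' j with ⟨k, rfl | rfl⟩
    · apply (Sn n).double_closed_even
      apply ih k (by omega) (by omega)
      intro i hi
      apply h3 (i + 1)
      rw [hi, pow_succ]; ring
    · exact (Sn n).double_closed_odd (by omega)

/-- quantitative limits -/
theorem exists_lim (a d : ℕ → ℝ) (n0 : ℕ) (hd0 : ∀ n, 0 < d n) (hd : ∀ n, d (n + 1) ≤ d n / 2)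
    (hd1 : ∀ n, d n ≤ (1 / 2) ^ n)
    (ha : ∀ n ≥ n0, |a (n + 1) - a n| ≤ d n) : ∃ l, ∀ n ≥ n0, |l - a n| ≤ 2 * d n := by
  have hcauchy : ∀ n ≥ n0, ∀ k, |a (n + k) - a n| ≤ 2 * d n - 2 * d (n + k) := by
    intro n hn k
    induction k with
    | zero => simp
    | succ k ih =>
      have h1 := ha (n + k) (by omega)
      have h2 := hd (n + k)
      calc |a (n + (k + 1)) - a n| = |(a (n + k + 1) - a (n + k)) + (a (n + k) - a n)| := by
            rw [← add_assoc]; ring_nf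
        _ ≤ |a (n + k + 1) - a (n + k)| + |a (n + k) - a n| := abs_add_le _ _
        _ ≤ d (n + k) + (2 * d n - 2 * d (n + k)) := add_le_add h1 ih
        _ ≤ 2 * d n - 2 * d (n + (k + 1)) := by rw [← add_assoc]; linarith
  have hlim : Tendsto (fun n => 2 * d n) atTop (𝓝 0) := by
    have h1 : Tendsto (fun n : ℕ => 2 * (1 / 2 : ℝ) ^ n) atTop (𝓝 (2 * 0)) :=
      (tendsto_pow_atTop_nhds_zero_of_lt_one (by norm_num) (by norm_num)).const_mul 2
    rw [mul_zero] at h1
    refine squeeze_zero (fun n => by have := hd0 n; linarith) (fun n => ?_) h1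
    have := hd1 n
    linarith
  have hC : CauchySeq a := by
    rw [Metric.cauchySeq_iff']
    intro ε hε
    obtain ⟨M, hM⟩ := (hlim.eventually_lt_const hε).exists_forall_of_atTop
    refine ⟨max M n0, fun m hm => ?_⟩
    obtain ⟨k, rfl⟩ := Nat.exists_eq_add_of_le hm
    rw [Real.dist_eq]
    have h1 := hcauchy (max M n0) (le_max_right _ _) k
    have h2 := hM (max M n0) (le_max_left _ _)
    have h3 := hd0 (max M n0 + k)
    linarith
  obtain ⟨l, hl⟩ := cauchySeq_tendsto_of_complete hC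
  refine ⟨l, fun n hn => ?_⟩
  have h1 : Tendsto (fun k => |a (n + k) - a n|) atTop (𝓝 |l - a n|) := by
    have h2 : Tendsto (fun k => a (n + k)) atTop (𝓝 l) := by
      have := (tendsto_add_atTop_iff_nat n).2 hl
      simpa [add_comm] using this
    exact (h2.sub_const _).abs
  refine le_of_tendsto h1 (Eventually.of_forall fun k => ?_)
  have := hcauchy n hn k
  have := hd0 (n + k)
  linarith

/-- the approximating Green functions -/
noncomputable def gn (n : ℕ) (z : ℂ) : ℝ := J (aeval z (Sn n).P) / (Sn n).N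

theorem gn_continuous (n : ℕ) : Continuous (gn n) := by
  unfold gn
  have : Continuous fun z : ℂ => aeval z (Sn n).P := by
    have e : (fun z : ℂ => aeval z (Sn n).P) =
        fun z : ℂ => ((Sn n).P.map (algebraMap ℝ ℂ)).eval z := by
      funext z; rw [Polynomial.eval_map_algebraMap]
    rw [e]
    fun_prop
  exact (J_continuous.comp this).div_const _

theorem gn_diff (n : ℕ) {z : ℂ} (hz : ‖z‖ ≤ n) : |gn (n + 1) z - gn n z| ≤ dn n := by
  have h1 := (sq_spec n).2.2.2.2.2.2.1 z hz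
  have hN := (Sn n).Npos
  have hN1 : (1 : ℝ) ≤ (Sn n).N := by exact_mod_cast (Sn n).hN
  unfold gn
  rw [(sq_spec n).2.2.1]
  push_cast
  have e : J (aeval z (Sn (n + 1)).P) / (2 * (Sn n).N) - J (aeval z (Sn n).P) / (Sn n).N =
      (J (aeval z (Sn (n + 1)).P) - 2 * J (aeval z (Sn n).P)) / (2 * (Sn n).N) := by
    field_simp
  rw [e, abs_div, abs_of_pos (by positivity : (0 : ℝ) < 2 * (Sn n).N), div_le_iff₀ (by positivity)]
  have := dn_pos n
  nlinarith

theorem exists_g : ∃ g : ℂ → ℝ, ∀ z : ℂ, ∀ n : ℕ, ‖z‖ ≤ n → |g z - gn n z| ≤ 2 * dn n := by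
  have h : ∀ z : ℂ, ∃ l, ∀ n ≥ ⌈‖z‖⌉₊, |l - gn n z| ≤ 2 * dn n := by
    intro z
    refine exists_lim (fun n => gn n z) dn ⌈‖z‖⌉₊ dn_pos dn_half dn_le fun n hn => ?_
    exact gn_diff n (Nat.ceil_le.1 hn)
  choose g hg using h
  exact ⟨g, fun z n hn => hg z n (Nat.ceil_le.2 hn)⟩

theorem exists_t : ∃ t : ℝ → ℝ, ∀ u ∈ Icc (0 : ℝ) 1, ∀ n, |t u - (Sn n).t u| ≤ 2 * dn n := by
  have h : ∀ u : ℝ, ∃ l, u ∈ Icc (0 : ℝ) 1 → ∀ n, |l - (Sn n).t u| ≤ 2 * dn n := by
    intro u
    by_cases hu : u ∈ Icc (0 : ℝ) 1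
    · obtain ⟨l, hl⟩ := exists_lim (fun n => (Sn n).t u) dn 0 dn_pos dn_half dn_le
        (fun n _ => (sq_spec n).2.2.2.2.2.1 u hu)
      exact ⟨l, fun _ n => hl n (Nat.zero_le n)⟩
    · exact ⟨0, fun h => absurd h hu⟩
  choose t ht using h
  exact ⟨t, ht⟩

theorem dn_tendsto : Tendsto (fun n => 2 * dn n) atTop (𝓝 0) := by
  have h1 : Tendsto (fun n : ℕ => 2 * (1 / 2 : ℝ) ^ n) atTop (𝓝 (2 * 0)) :=
    (tendsto_pow_atTop_nhds_zero_of_lt_one (by norm_num) (by norm_num)).const_mul 2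
  rw [mul_zero] at h1
  refine squeeze_zero (fun n => by have := dn_pos n; linarith) (fun n => ?_) h1
  have := dn_le n
  linarith

theorem dn_anti {m n : ℕ} (h : m ≤ n) : dn n ≤ dn m := by
  induction n with
  | zero =>
    have : m = 0 := by omega
    rw [this]
  | succ n ih =>
    rcases Nat.lt_or_ge n m with h1 | h1
    · have : m = n + 1 := by omega
      rw [this]
    · have := ih h1
      have := dn_half n
      have := dn_pos n
      linarith

/-- the constant -/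
theorem V_const (n : ℕ) : Real.log (2 * (Sn n).P.leadingCoeff) / (Sn n).N = Real.log 2 := by
  induction n with
  | zero =>
    change Real.log (2 * (X : ℝ[X]).leadingCoeff) / ((1 : ℕ) : ℝ) = Real.log 2
    simp
  | succ n ih =>
    have hN := (Sn n).Npos
    have hl := (Sn n).lead
    rw [(sq_spec n).2.2.1, (sq_spec n).2.2.2.1]
    have e : 2 * (2 * (Sn n).P.leadingCoeff ^ 2) = (2 * (Sn n).P.leadingCoeff) ^ 2 := by ring
    rw [e, Real.log_pow]
    push_cast
    rw [← ih]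
    field_simp

theorem exists_limit : ∃ (t : ℝ → ℝ) (g : ℂ → ℝ),
    AntitoneOn t (Icc 0 1) ∧ (∀ u ∈ Icc (0 : ℝ) 1, |t u| ≤ 2) ∧
    (∀ u ∈ Icc (0 : ℝ) 1, (∀ i : ℕ, 1 ≤ i → u ≠ (1 / 2) ^ i) →
      ContinuousWithinAt t (Icc 0 1) u) ∧
    (∀ i : ℕ, 1 ≤ i → ∃ η > 0, ∀ u ∈ Icc (0 : ℝ) 1, ∀ v ∈ Icc (0 : ℝ) 1,
      u < (1 / 2) ^ i → (1 / 2) ^ i ≤ v → η ≤ t u - t v) ∧
    Continuous g ∧ (∀ z, 0 ≤ g z) ∧ (∀ u ∈ Icc (0 : ℝ) 1, g (t u) = 0) ∧
    (∀ z : ℂ, z.im ≠ 0 → ∫ u in (0 : ℝ)..1, Real.log ‖z - t u‖ = g z - Real.log 2) := by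
  obtain ⟨g, hg⟩ := exists_g
  obtain ⟨t, ht⟩ := exists_t
  have htend : ∀ u ∈ Icc (0 : ℝ) 1, Tendsto (fun n => (Sn n).t u) atTop (𝓝 (t u)) := by
    intro u hu
    rw [tendsto_iff_dist_tendsto_zero]
    refine squeeze_zero (fun _ => dist_nonneg) (fun n => ?_) dn_tendsto
    rw [Real.dist_eq, abs_sub_comm]
    exact ht u hu n
  have hanti : AntitoneOn t (Icc 0 1) := by
    intro u hu v hv huv
    exact le_of_tendsto_of_tendsto' (htend v hv) (htend u hu) fun n => (Sn n).t_anti hu hv huv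
  have hbd : ∀ u ∈ Icc (0 : ℝ) 1, |t u| ≤ 2 := by
    intro u hu
    refine le_of_tendsto (htend u hu).abs (Eventually.of_forall fun n => ?_)
    exact abs_le.2 ((Sn n).t_mem2 u)
  have hgtend : ∀ z : ℂ, Tendsto (fun n => gn n z) atTop (𝓝 (g z)) := by
    intro z
    rw [tendsto_iff_dist_tendsto_zero]
    refine squeeze_zero' (Eventually.of_forall fun _ => dist_nonneg) ?_ dn_tendsto
    filter_upwards [eventually_ge_atTop ⌈‖z‖⌉₊] with n hn
    rw [Real.dist_eq, abs_sub_comm]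
    exact hg z n (Nat.ceil_le.1 hn)
  have hgc : Continuous g := by
    rw [continuous_iff_continuousAt]
    intro z0
    rw [Metric.continuousAt_iff]
    intro ε hε
    obtain ⟨n, hn1, hn2⟩ : ∃ n : ℕ, 2 * dn n < ε / 3 ∧ ‖z0‖ + 1 ≤ n := by
      have h1 := dn_tendsto.eventually_lt_const (by positivity : (0 : ℝ) < ε / 3)
      have h2 : ∀ᶠ n : ℕ in atTop, ‖z0‖ + 1 ≤ n := by
        filter_upwards [eventually_ge_atTop ⌈‖z0‖ + 1⌉₊] with n hn
        exact Nat.ceil_le.1 hn
      exact (h1.and h2).exists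
    have hcn : ContinuousAt (gn n) z0 := (gn_continuous n).continuousAt
    obtain ⟨δ, hδ, h3⟩ := Metric.continuousAt_iff.1 hcn (ε / 3) (by positivity)
    refine ⟨min δ 1, by positivity, fun z hz => ?_⟩
    have h4 := h3 (hz.trans_le (min_le_left _ _))
    have h5 : ‖z‖ ≤ n := by
      have : dist z z0 < 1 := hz.trans_le (min_le_right _ _)
      rw [dist_eq_norm] at this
      calc ‖z‖ = ‖(z - z0) + z0‖ := by ring_nf
        _ ≤ ‖z - z0‖ + ‖z0‖ := norm_add_le _ _
        _ ≤ n := by linarith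
    have h6 := hg z n h5
    have h7 := hg z0 n (by linarith)
    rw [Real.dist_eq] at h4 ⊢
    calc |g z - g z0| = |(g z - gn n z) + (gn n z - gn n z0) + (gn n z0 - g z0)| := by ring_nf
      _ ≤ |g z - gn n z| + |gn n z - gn n z0| + |gn n z0 - g z0| := abs_add_three _ _ _
      _ < ε := by rw [abs_sub_comm (gn n z0)]; linarith
  have hg0 : ∀ z, 0 ≤ g z := by
    intro z
    refine ge_of_tendsto' (hgtend z) fun n => ?_
    unfold gn
    exact div_nonneg (J_nonneg _) (Nat.cast_nonneg _)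
  have hgt : ∀ u ∈ Icc (0 : ℝ) 1, g (t u) = 0 := by
    intro u hu
    have h1 : Tendsto (fun n => g ((Sn n).t u : ℂ)) atTop (𝓝 (g (t u))) := by
      have h2 : Tendsto (fun n => ((Sn n).t u : ℂ)) atTop (𝓝 (t u : ℂ)) :=
        (Complex.continuous_ofReal.tendsto _).comp (htend u hu)
      exact (hgc.tendsto _).comp h2
    have h2 : Tendsto (fun n => g ((Sn n).t u : ℂ)) atTop (𝓝 0) := by
      refine squeeze_zero' (Eventually.of_forall fun n => hg0 _) ?_ dn_tendsto
      filter_upwards [eventually_ge_atTop 2] with n hn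
      have h3 : ‖((Sn n).t u : ℂ)‖ ≤ n := by
        rw [Complex.norm_real, Real.norm_eq_abs]
        have h4 : |(Sn n).t u| ≤ 2 := abs_le.2 ((Sn n).t_mem2 u)
        have h5 : (2 : ℝ) ≤ n := by exact_mod_cast hn
        linarith
      have h4 := hg _ n h3
      have h5 : gn n ((Sn n).t u : ℂ) = 0 := by
        unfold gn
        have e : aeval ((Sn n).t u : ℂ) (Sn n).P = (((Sn n).P.eval ((Sn n).t u) : ℝ) : ℂ) :=
          Polynomial.aeval_algebraMap_apply_eq_algebraMap_eval _ _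
        rw [e, (Sn n).P_t, J_of_mem (Real.abs_cos_le_one _), zero_div]
      rw [h5, sub_zero] at h4
      exact (le_abs_self _).trans h4
    exact tendsto_nhds_unique h1 h2
  refine ⟨t, g, hanti, hbd, ?_, ?_, hgc, hg0, hgt, ?_⟩
  · -- continuity
    intro u hu hui
    rw [Metric.continuousWithinAt_iff]
    intro ε hε
    obtain ⟨n, hn⟩ := (dn_tendsto.eventually_lt_const (by positivity : (0 : ℝ) < ε / 3)).exists
    have hcl : ContinuousWithinAt (Sn n).t (Icc 0 1) u := by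
      refine (Sn n).t_continuousWithinAt hu fun j h1 h2 h3 => ?_
      refine closed_label n j h1 h2 fun i hi => ?_
      rw [Sn_N] at h2 h3
      have h4 : i < n := by
        by_contra hcon
        rw [not_lt] at hcon
        have := Nat.pow_le_pow_right (by norm_num : 0 < 2) hcon
        omega
      apply hui (n - i) (by omega)
      rw [hi] at h3
      push_cast at h3
      have h5 : (2 : ℝ) ^ n = 2 ^ i * 2 ^ (n - i) := by
        rw [← pow_add]; congr 1; omega
      rw [h5] at h3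
      have h6 : (2 : ℝ) ^ i ≠ 0 := by positivity
      have h7 : (2 : ℝ) ^ (n - i) ≠ 0 := by positivity
      rw [one_div, inv_pow]
      field_simp
      have : (2 : ℝ) ^ i * (2 ^ (n - i) * u) = 2 ^ i * 1 := by linarith
      have := mul_left_cancel₀ h6 this
      linarith
    obtain ⟨δ, hδ, h3⟩ := Metric.continuousWithinAt_iff.1 hcl (ε / 3) (by positivity)
    refine ⟨δ, hδ, fun v hv hvu => ?_⟩
    have h4 := h3 hv hvu
    have h5 := ht v hv n
    have h6 := ht u hu n
    rw [Real.dist_eq] at h4 ⊢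
    calc |t v - t u| = |(t v - (Sn n).t v) + ((Sn n).t v - (Sn n).t u) + ((Sn n).t u - t u)| := by
          ring_nf
      _ ≤ |t v - (Sn n).t v| + |(Sn n).t v - (Sn n).t u| + |(Sn n).t u - t u| :=
          abs_add_three _ _ _
      _ < ε := by rw [abs_sub_comm ((Sn n).t u)]; linarith
  · -- jumps
    intro i hi
    obtain ⟨n, rfl⟩ : ∃ n, i = n + 1 := ⟨i - 1, by omega⟩
    refine ⟨4 * dn (n + 1), by have := dn_pos (n + 1); linarith, fun u hu v hv huj hvj => ?_⟩
    have hN : ((Sn (n + 1)).N : ℝ) = 2 ^ (n + 1) := by rw [Sn_N]; push_cast; rfl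
    have h0 : (2 : ℝ) ^ (n + 1) * (1 / 2) ^ (n + 1) = 1 := by
      rw [← mul_pow]; norm_num
    have hpos : (0 : ℝ) < 2 ^ (n + 1) := by positivity
    have h1 := (sq_spec n).2.2.2.2.2.2.2 u hu v hv (by rw [hN]; nlinarith) (by rw [hN]; nlinarith)
    have h2 := ht u hu (n + 1)
    have h3 := ht v hv (n + 1)
    rw [abs_le] at h2 h3
    linarith [h2.1, h3.2]
  · -- potential
    intro z hz
    have h1 : Tendsto (fun n => ∫ u in (0 : ℝ)..1, Real.log ‖z - (Sn n).t u‖) atTop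
        (𝓝 (∫ u in (0 : ℝ)..1, Real.log ‖z - t u‖)) := by
      refine intervalIntegral.tendsto_integral_filter_of_dominated_convergence
        (fun _ => |Real.log (|z.im|)| + |Real.log (‖z‖ + 2)|) ?_ ?_ intervalIntegrable_const ?_
      · refine Eventually.of_forall fun n => ?_
        have := intervalIntegrable_log (Sn n).t_anti (fun u _ => abs_le.2 ((Sn n).t_mem2 u)) hz
          (a := 0) (b := 1) ⟨le_rfl, zero_le_one⟩ ⟨zero_le_one, le_rfl⟩
        exact (intervalIntegrable_iff.1 this).aestronglyMeasurable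
      · refine Eventually.of_forall fun n => Eventually.of_forall fun u _ => ?_
        have h1 : |z.im| ≤ ‖z - (Sn n).t u‖ := by
          have := Complex.abs_im_le_norm (z - (Sn n).t u)
          simpa using this
        have h2 : ‖z - (Sn n).t u‖ ≤ ‖z‖ + 2 := by
          refine (norm_sub_le _ _).trans ?_
          rw [Complex.norm_real, Real.norm_eq_abs]
          have : |(Sn n).t u| ≤ 2 := abs_le.2 ((Sn n).t_mem2 u)
          linarith
        have h3 : 0 < |z.im| := abs_pos.2 hz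
        have h4 : Real.log (|z.im|) ≤ Real.log ‖z - (Sn n).t u‖ := Real.log_le_log h3 h1
        have h5 : Real.log ‖z - (Sn n).t u‖ ≤ Real.log (‖z‖ + 2) :=
          Real.log_le_log (h3.trans_le h1) h2
        rw [Real.norm_eq_abs, abs_le]
        have h6 := neg_abs_le (Real.log (|z.im|))
        have h7 := le_abs_self (Real.log (‖z‖ + 2))
        have h8 := abs_nonneg (Real.log (‖z‖ + 2))
        have h9 := abs_nonneg (Real.log (|z.im|))
        constructor <;> linarith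
      · refine Eventually.of_forall fun u hu => ?_
        rw [uIoc_of_le zero_le_one] at hu
        have hu' : u ∈ Icc (0 : ℝ) 1 := ⟨hu.1.le, hu.2⟩
        have hc : ContinuousAt (fun x : ℝ => Real.log ‖z - x‖) (t u) := by
          refine ContinuousAt.log (by fun_prop) ?_
          rw [norm_ne_zero_iff]
          intro h
          apply hz
          have := congrArg Complex.im h
          simpa using this
        exact hc.tendsto.comp (htend u hu')
    have h2 : Tendsto (fun n => ∫ u in (0 : ℝ)..1, Real.log ‖z - (Sn n).t u‖) atTop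
        (𝓝 (g z - Real.log 2)) := by
      have h3 : ∀ n, ∫ u in (0 : ℝ)..1, Real.log ‖z - (Sn n).t u‖ = gn n z - Real.log 2 := by
        intro n
        rw [(Sn n).potential hz, sub_div, V_const]
        rfl
      simp_rw [h3]
      exact (hgtend z).sub_const _
    exact tendsto_nhds_unique h1 h2

end Pool.Agent.Helper50.Gaps
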