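import Mathlib
import Pool.Agent.Helper50.Gaps.Limit
import Pool.Agent.Helper50.Gaps.Energy2

set_option autoImplicit false

namespace Pool.Agent.Helper50.Gaps

open Set Real Filter Topology MeasureTheory
open scoped ENNReal

/-- the data produced by the construction -/
structure LD where
  t : ℝ → ℝ
  g : ℂ → ℝ
  anti : AntitoneOn t (Icc 0 1)
  bd : ∀ u ∈ Icc (0 : ℝ) 1, |t u| ≤ 2
  cont : ∀ u ∈ Icc (0 : ℝ) 1, (∀ i : ℕ, 1 ≤ i → u ≠ (1 / 2) ^ i) →
      ContinuousWithinAt t (Icc 0 1) u
  jump : ∀ i : ℕ, 1 ≤ i → ∃ η > 0, ∀ u ∈ Icc (0 : ℝ) 1, ∀ v ∈ Icc (0 : ℝ) 1,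
      u < (1 / 2) ^ i → (1 / 2) ^ i ≤ v → η ≤ t u - t v
  gc : Continuous g
  gnn : ∀ z, 0 ≤ g z
  gt : ∀ u ∈ Icc (0 : ℝ) 1, g (t u) = 0
  pot : ∀ z : ℂ, z.im ≠ 0 → ∫ u in (0 : ℝ)..1, Real.log ‖z - t u‖ = g z - Real.log 2

theorem exists_LD : Nonempty LD := by
  obtain ⟨t, g, h1, h2, h3, h4, h5, h6, h7, h8⟩ := exists_limit
  exact ⟨⟨t, g, h1, h2, h3, h4, h5, h6, h7, h8⟩⟩

namespace LD

variable (D : LD)

/-- the compact set -/
def K : Set ℝ := closure (D.t '' Icc 0 1)

theorem K_closed : IsClosed D.K := isClosed_closure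

theorem t_mem_K {u : ℝ} (hu : u ∈ Icc (0 : ℝ) 1) : D.t u ∈ D.K := subset_closure ⟨u, hu, rfl⟩

theorem K_bd : ∀ x ∈ D.K, |x| ≤ 2 := by
  have h : D.K ⊆ Icc (-2) 2 := by
    apply closure_minimal _ isClosed_Icc
    rintro _ ⟨u, hu, rfl⟩
    exact abs_le.1 (D.bd u hu)
  exact fun x hx => abs_le.2 (h hx)

theorem K_compact : IsCompact D.K := by
  apply Metric.isCompact_of_isClosed_isBounded D.K_closed
  refine (Metric.isBounded_Icc (-2 : ℝ) 2).subset fun x hx => abs_le.1 (D.K_bd x hx)

theorem K_nonempty : D.K.Nonempty := ⟨_, D.t_mem_K (u := 0) ⟨le_rfl, zero_le_one⟩⟩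

/-- the Lebesgue measure on the unit interval -/
noncomputable def lam : Measure ℝ := volume.restrict (Icc 0 1)

instance : IsProbabilityMeasure lam := ⟨by unfold lam; simp⟩

theorem t_aemeas : AEMeasurable D.t lam :=
  aemeasurable_restrict_of_antitoneOn measurableSet_Icc D.anti

theorem ae_lam : ∀ᵐ u ∂lam, u ∈ Icc (0 : ℝ) 1 := ae_restrict_mem measurableSet_Icc

/-- the equilibrium measure -/
noncomputable def mu : Measure ℝ := lam.map D.t

instance : IsProbabilityMeasure D.mu := Measure.isProbabilityMeasure_map D.t_aemeas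

theorem mu_K : D.mu D.Kᶜ = 0 := by
  unfold mu
  rw [Measure.map_apply_of_aemeasurable D.t_aemeas D.K_closed.isOpen_compl.measurableSet]
  have h : ∀ᵐ u ∂lam, D.t u ∈ D.K := by
    filter_upwards [ae_lam] with u hu
    exact D.t_mem_K hu
  rw [ae_iff] at h
  exact h

theorem integral_mu {f : ℝ → ℝ} (hf : Measurable f) : ∫ x, f x ∂D.mu = ∫ u, f (D.t u) ∂lam := by
  unfold mu
  rw [integral_map D.t_aemeas hf.aestronglyMeasurable]

theorem integrable_mu {f : ℝ → ℝ} (hf : Measurable f) (h : Integrable (fun u => f (D.t u)) lam) :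
    Integrable f D.mu := by
  unfold mu
  rw [integrable_map_measure hf.aestronglyMeasurable D.t_aemeas]
  exact h

theorem pot_lam {z : ℂ} (hz : z.im ≠ 0) :
    Integrable (fun u => Real.log ‖z - D.t u‖) lam ∧
      ∫ u, Real.log ‖z - D.t u‖ ∂lam = D.g z - Real.log 2 := by
  constructor
  · have := intervalIntegrable_log D.anti D.bd hz (a := 0) (b := 1) ⟨le_rfl, zero_le_one⟩
      ⟨zero_le_one, le_rfl⟩
    rw [intervalIntegrable_iff_integrableOn_Icc_of_le zero_le_one] at this
    exact this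
  · rw [← D.pot z hz, intervalIntegral.integral_of_le zero_le_one,
      ← integral_Icc_eq_integral_Ioc]
    rfl

theorem g_K {x : ℝ} (hx : x ∈ D.K) : D.g x = 0 := by
  have h1 : IsClosed {x : ℝ | D.g x = 0} :=
    isClosed_eq (D.gc.comp Complex.continuous_ofReal) continuous_const
  have h2 : D.K ⊆ {x : ℝ | D.g x = 0} := by
    apply closure_minimal _ h1
    rintro _ ⟨u, hu, rfl⟩
    exact D.gt u hu
  exact h2 hx

/-- approximating points -/
noncomputable def zn (x : ℝ) (n : ℕ) : ℂ := x + ((1 / ((n : ℝ) + 1) : ℝ) : ℂ) * Complex.I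

theorem zn_im (x : ℝ) (n : ℕ) : (zn x n).im = 1 / ((n : ℝ) + 1) := by
  unfold zn
  rw [Complex.add_im, Complex.ofReal_im, Complex.mul_im, Complex.I_re, Complex.I_im,
    Complex.ofReal_re]
  ring

theorem zn_im_ne (x : ℝ) (n : ℕ) : (zn x n).im ≠ 0 := by
  rw [zn_im]; positivity

theorem zn_tendsto (x : ℝ) : Tendsto (zn x) atTop (𝓝 (x : ℂ)) := by
  unfold zn
  have h1 : Tendsto (fun n : ℕ => (1 / ((n : ℝ) + 1) : ℝ)) atTop (𝓝 0) :=
    tendsto_one_div_add_atTop_nhds_zero_nat
  have h2 : Tendsto (fun n : ℕ => ((1 / ((n : ℝ) + 1) : ℝ) : ℂ)) atTop (𝓝 ((0 : ℝ) : ℂ)) :=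
    (Complex.continuous_ofReal.tendsto 0).comp h1
  have h3 := (h2.mul_const Complex.I).const_add (x : ℂ)
  simpa using h3

theorem zn_norm (x y : ℝ) (n : ℕ) : ‖zn x n - y‖ = √((x - y) ^ 2 + (1 / ((n : ℝ) + 1)) ^ 2) := by
  have : zn x n - y = ((x - y : ℝ) : ℂ) + ((1 / ((n : ℝ) + 1) : ℝ) : ℂ) * Complex.I := by
    unfold zn; push_cast; ring
  rw [this, Complex.norm_add_mul_I]

/-- potential on the real axis: integrability and value; also no atoms -/
theorem pot_real (x : ℝ) : lam {u | D.t u = x} = 0 ∧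
    Integrable (fun u => Real.log |x - D.t u|) lam ∧
      ∫ u, Real.log |x - D.t u| ∂lam = D.g x - Real.log 2 := by
  set M : ℝ := |x| + 4 with hM
  have hMpos : 0 < M := by positivity
  have hn : ∀ n : ℕ, (0 : ℝ) < 1 / ((n : ℝ) + 1) := fun n => by positivity
  have hn1 : ∀ n : ℕ, 1 / ((n : ℝ) + 1) ≤ 1 := fun n => by
    rw [div_le_one (by positivity)]; linarith [Nat.cast_nonneg (α := ℝ) n]
  -- the functions
  set F : ℕ → ℝ → ℝ := fun n u => Real.log M - Real.log ‖zn x n - D.t u‖ with hF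
  have hnormpos : ∀ n u, 0 < ‖zn x n - D.t u‖ := by
    intro n u
    rw [zn_norm]
    have := hn n
    positivity
  have hnormle : ∀ n, ∀ u ∈ Icc (0 : ℝ) 1, ‖zn x n - D.t u‖ ≤ M := by
    intro n u hu
    have h1 : ‖zn x n‖ ≤ |x| + 1 := by
      unfold zn
      refine (norm_add_le _ _).trans ?_
      rw [norm_mul, Complex.norm_I, mul_one, Complex.norm_real, Complex.norm_real,
        Real.norm_eq_abs, Real.norm_eq_abs, abs_of_pos (hn n)]
      linarith [hn1 n]
    refine (norm_sub_le _ _).trans ?_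
    rw [Complex.norm_real, Real.norm_eq_abs]
    have := D.bd u hu
    rw [hM]; linarith
  have hFnn : ∀ n, ∀ u ∈ Icc (0 : ℝ) 1, 0 ≤ F n u := by
    intro n u hu
    simp only [hF]
    have := Real.log_le_log (hnormpos n u) (hnormle n u hu)
    linarith
  have hFint : ∀ n, Integrable (F n) lam := fun n =>
    (integrable_const _).sub (D.pot_lam (zn_im_ne x n)).1
  have hFval : ∀ n, ∫ u, F n u ∂lam = Real.log M + Real.log 2 - D.g (zn x n) := by
    intro n
    simp only [hF]
    rw [integral_sub (integrable_const _) (D.pot_lam (zn_im_ne x n)).1,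
      (D.pot_lam (zn_im_ne x n)).2]
    simp
    ring
  have hFlint : ∀ n, ∫⁻ u, ENNReal.ofReal (F n u) ∂lam =
      ENNReal.ofReal (Real.log M + Real.log 2 - D.g (zn x n)) := by
    intro n
    rw [← hFval n, ofReal_integral_eq_lintegral_ofReal (hFint n)]
    filter_upwards [ae_lam] with u hu using hFnn n u hu
  have hFbound : ∀ n, ∫⁻ u, ENNReal.ofReal (F n u) ∂lam ≤
      ENNReal.ofReal (Real.log M + Real.log 2) := by
    intro n
    rw [hFlint n]
    apply ENNReal.ofReal_le_ofReal
    linarith [D.gnn (zn x n)]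
  -- no atoms
  have hatom : lam {u | D.t u = x} = 0 := by
    by_contra hne
    have h1 : ∀ n : ℕ, ENNReal.ofReal (Real.log M - Real.log (1 / ((n : ℝ) + 1))) *
        lam {u | D.t u = x} ≤ ENNReal.ofReal (Real.log M + Real.log 2) := by
      intro n
      refine le_trans ?_ (hFbound n)
      refine le_trans ?_ (mul_meas_ge_le_lintegral₀ (hFint n).aemeasurable.ennreal_ofReal
        (ENNReal.ofReal (Real.log M - Real.log (1 / ((n : ℝ) + 1)))))
      refine mul_le_mul_of_nonneg_left (measure_mono ?_) (by positivity)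
      intro u hu
      simp only [mem_ofPred_eq] at hu ⊢
      apply ENNReal.ofReal_le_ofReal
      simp only [hF]
      rw [zn_norm, hu, sub_self]
      have : √((0 : ℝ) ^ 2 + (1 / ((n : ℝ) + 1)) ^ 2) = 1 / ((n : ℝ) + 1) := by
        rw [zero_pow two_ne_zero, zero_add, Real.sqrt_sq (hn n).le]
      rw [this]
    have h2 : Tendsto (fun n : ℕ => ENNReal.ofReal (Real.log M - Real.log (1 / ((n : ℝ) + 1))) *
        lam {u | D.t u = x}) atTop (𝓝 (∞ * lam {u | D.t u = x})) := by
      apply ENNReal.Tendsto.mul_const _ (Or.inl ENNReal.top_ne_zero)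
      apply ENNReal.tendsto_ofReal_atTop.comp
      have h3 : Tendsto (fun n : ℕ => Real.log ((n : ℝ) + 1)) atTop atTop :=
        Real.tendsto_log_atTop.comp (tendsto_atTop_add_const_right _ _
          tendsto_natCast_atTop_atTop)
      have h4 := tendsto_atTop_add_const_left atTop (Real.log M) h3
      refine h4.congr fun n => ?_
      rw [one_div, Real.log_inv]
      ring
    rw [ENNReal.top_mul hne] at h2
    have h3 := le_of_tendsto' h2 h1
    exact absurd (top_le_iff.1 h3) ENNReal.ofReal_ne_top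
  -- the limit function
  set f : ℝ → ℝ := fun u => Real.log M - Real.log |x - D.t u| with hf
  have haene : ∀ᵐ u ∂lam, D.t u ≠ x := by
    rw [ae_iff]
    simpa using hatom
  have hmono : ∀ᵐ u ∂lam, Monotone fun n => ENNReal.ofReal (F n u) := by
    refine Eventually.of_forall fun u => ?_
    intro a b hab
    apply ENNReal.ofReal_le_ofReal
    simp only [hF]
    have h1 : ‖zn x b - D.t u‖ ≤ ‖zn x a - D.t u‖ := by
      rw [zn_norm, zn_norm]
      apply Real.sqrt_le_sqrt
      have h2 : 1 / ((b : ℝ) + 1) ≤ 1 / ((a : ℝ) + 1) := by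
        apply one_div_le_one_div_of_le (by positivity)
        have : (a : ℝ) ≤ b := by exact_mod_cast hab
        linarith
      have h3 := pow_le_pow_left₀ (hn b).le h2 2
      linarith
    have := Real.log_le_log (hnormpos b u) h1
    linarith
  have hnormlim : ∀ u, Tendsto (fun n => ‖zn x n - D.t u‖) atTop (𝓝 |x - D.t u|) := by
    intro u
    have h1 := ((zn_tendsto x).sub_const (D.t u : ℂ)).norm
    have h2 : ‖(x : ℂ) - (D.t u : ℂ)‖ = |x - D.t u| := by
      rw [← Complex.ofReal_sub, Complex.norm_real, Real.norm_eq_abs]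
    rwa [h2] at h1
  have htend : ∀ᵐ u ∂lam, Tendsto (fun n => ENNReal.ofReal (F n u)) atTop
      (𝓝 (ENNReal.ofReal (f u))) := by
    filter_upwards [haene] with u hu
    apply (ENNReal.continuous_ofReal.tendsto _).comp
    simp only [hF, hf]
    apply Tendsto.const_sub
    apply Tendsto.log (hnormlim u)
    rw [abs_ne_zero, sub_ne_zero]
    exact fun h => hu h.symm
  have hlim1 := lintegral_tendsto_of_tendsto_of_monotone
    (fun n => (hFint n).aemeasurable.ennreal_ofReal) hmono htend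
  have hlim2 : Tendsto (fun n => ∫⁻ u, ENNReal.ofReal (F n u) ∂lam) atTop
      (𝓝 (ENNReal.ofReal (Real.log M + Real.log 2 - D.g x))) := by
    simp_rw [hFlint]
    apply (ENNReal.continuous_ofReal.tendsto _).comp
    apply Tendsto.const_sub
    exact (D.gc.tendsto _).comp (zn_tendsto x)
  have hlint := tendsto_nhds_unique hlim1 hlim2
  have hfnn : 0 ≤ᵐ[lam] f := by
    filter_upwards [haene, ae_lam] with u hu hu2
    simp only [hf, Pi.zero_apply]
    have h1 : |x - D.t u| ≤ M := le_of_tendsto' (hnormlim u) fun n => hnormle n u hu2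
    have h2 : 0 < |x - D.t u| := abs_pos.2 (sub_ne_zero.2 fun h => hu h.symm)
    have := Real.log_le_log h2 h1
    linarith
  have hfmeas : AEStronglyMeasurable f lam := by
    have h1 : Measurable fun y : ℝ => Real.log M - Real.log |x - y| := by fun_prop
    exact (h1.comp_aemeasurable D.t_aemeas).aestronglyMeasurable
  have hfint : Integrable f lam := by
    refine ⟨hfmeas, ?_⟩
    rw [hasFiniteIntegral_iff_ofReal hfnn, hlint]
    exact ENNReal.ofReal_lt_top
  have hnonneg : 0 ≤ Real.log M + Real.log 2 - D.g x := by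
    have h1 : Tendsto (fun n => Real.log M + Real.log 2 - D.g (zn x n)) atTop
        (𝓝 (Real.log M + Real.log 2 - D.g x)) := by
      apply Tendsto.const_sub
      exact (D.gc.tendsto _).comp (zn_tendsto x)
    refine ge_of_tendsto' h1 fun n => ?_
    rw [← hFval n]
    apply integral_nonneg_of_ae
    filter_upwards [ae_lam] with u hu using hFnn n u hu
  have hfval : ∫ u, f u ∂lam = Real.log M + Real.log 2 - D.g x := by
    rw [integral_eq_lintegral_of_nonneg_ae hfnn hfmeas, hlint, ENNReal.toReal_ofReal hnonneg]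
  have hlog : (fun u => Real.log |x - D.t u|) = fun u => Real.log M - f u := by
    funext u; simp only [hf]; ring
  refine ⟨hatom, ?_, ?_⟩
  · rw [hlog]
    exact (integrable_const _).sub hfint
  · rw [hlog, integral_sub (integrable_const _) hfint, hfval]
    simp
    ring

end LD

end Pool.Agent.Helper50.Gaps
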