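import Mathlib
import Pool.Agent.Helper50.Gaps.KSet

set_option autoImplicit false

namespace Pool.Agent.Helper50.Gaps

open Set Real Filter Topology MeasureTheory
open scoped ENNReal

namespace LD

variable (D : LD)

theorem mu_atom (x : ℝ) : D.mu {x} = 0 := by
  unfold mu
  rw [Measure.map_apply_of_aemeasurable D.t_aemeas (measurableSet_singleton x)]
  exact (D.pot_real x).1

theorem pot_mu (x : ℝ) : Integrable (fun y => Real.log |x - y|) D.mu ∧
    ∫ y, Real.log |x - y| ∂D.mu = D.g x - Real.log 2 := by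
  have hm : Measurable fun y : ℝ => Real.log |x - y| := by fun_prop
  constructor
  · exact D.integrable_mu hm (D.pot_real x).2.1
  · rw [D.integral_mu hm]; exact (D.pot_real x).2.2

theorem pot_mu_K {x : ℝ} (hx : x ∈ D.K) : ∫ y, Real.log |x - y| ∂D.mu = -Real.log 2 := by
  rw [(D.pot_mu x).2, D.g_K hx, zero_sub]

theorem mu_equilibrium : IsEquilibriumMeasure D.K D.mu :=
  isEquilibrium D.K_bd D.mu_K D.mu_atom (fun x _ => (D.pot_mu x).1) (fun _ hx => D.pot_mu_K hx)

theorem mu_unique (ν : Measure ℝ) (hν : IsEquilibriumMeasure D.K ν) : ν = D.mu :=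
  equilibrium_unique D.K_bd D.mu_K D.mu_atom (fun x _ => (D.pot_mu x).1)
    (fun _ hx => D.pot_mu_K hx) ν hν

/-- away from the labels the distribution function can only jump at labels -/
theorem rational_gap {c : ℝ} (hc : c ∉ D.K) :
    ∃ q : ℚ, (D.mu (Icc (sInf D.K) c)).toReal = q := by
  have hmem : D.mu (Icc (sInf D.K) c) = volume {u : ℝ | u ∈ Icc (0 : ℝ) 1 ∧ D.t u ≤ c} := by
    unfold mu
    rw [Measure.map_apply_of_aemeasurable D.t_aemeas measurableSet_Icc]
    unfold lam
    rw [Measure.restrict_apply' measurableSet_Icc]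
    congr 1
    ext u
    constructor
    · rintro ⟨h1, h2⟩
      exact ⟨h2, h1.2⟩
    · rintro ⟨h1, h2⟩
      refine ⟨⟨?_, h2⟩, h1⟩
      exact csInf_le D.K_compact.bddBelow (D.t_mem_K h1)
  rw [hmem]
  set A := {u : ℝ | u ∈ Icc (0 : ℝ) 1 ∧ D.t u ≤ c} with hA
  rcases A.eq_empty_or_nonempty with h | h
  · exact ⟨0, by rw [h]; simp⟩
  · set a := sInf A with ha
    have hAbdd : BddBelow A := ⟨0, fun u hu => hu.1.1⟩
    have ha0 : 0 ≤ a := le_csInf h fun u hu => hu.1.1
    have ha1 : a ≤ 1 := by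
      obtain ⟨u, hu⟩ := h
      exact (csInf_le hAbdd hu).trans hu.1.2
    have hvol : volume A = ENNReal.ofReal (1 - a) := by
      apply le_antisymm
      · rw [← Real.volume_Icc]
        apply measure_mono
        intro u hu
        exact ⟨csInf_le hAbdd hu, hu.1.2⟩
      · rw [← Real.volume_Ioc]
        apply measure_mono
        intro u hu
        obtain ⟨v, hv, hvu⟩ := exists_lt_of_csInf_lt h hu.1
        have hu01 : u ∈ Icc (0 : ℝ) 1 := ⟨hv.1.1.trans hvu.le, hu.2⟩
        exact ⟨hu01, (D.anti hv.1 hu01 hvu.le).trans hv.2⟩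
    have hrat : ∃ q : ℚ, a = q := by
      by_contra hcon
      push Not at hcon
      have hcont := D.cont a ⟨ha0, ha1⟩ (fun i _ hi => hcon ((1 / 2) ^ i) (by rw [hi]; push_cast; rfl))
      have hapos : 0 < a := lt_of_le_of_ne ha0 fun h0 => hcon 0 (by rw [← h0]; simp)
      obtain ⟨ε, hε, hball⟩ := Metric.isOpen_iff.1 D.K_closed.isOpen_compl c hc
      have hfar : ∀ u ∈ Icc (0 : ℝ) 1, ε ≤ |D.t u - c| := by
        intro u hu
        by_contra hlt
        rw [not_le] at hlt
        exact hball (show D.t u ∈ Metric.ball c ε by rwa [Metric.mem_ball, Real.dist_eq])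
          (D.t_mem_K hu)
      obtain ⟨δ, hδ, hd⟩ := Metric.continuousWithinAt_iff.1 hcont ε hε
      obtain ⟨v, hv, hva⟩ := exists_lt_of_csInf_lt h (show sInf A < a + δ by linarith)
      have hav : a ≤ v := csInf_le hAbdd hv
      have h1 := hd hv.1 (by rw [Real.dist_eq, abs_of_nonneg (by linarith)]; linarith)
      set w := max (a / 2) (a - δ / 2) with hw
      have hwa : w < a := max_lt (by linarith) (by linarith)
      have hw0 : 0 ≤ w := le_trans (by linarith) (le_max_left _ _)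
      have hw01 : w ∈ Icc (0 : ℝ) 1 := ⟨hw0, by linarith⟩
      have hwA : w ∉ A := fun hwA => absurd (csInf_le hAbdd hwA) (not_le.2 hwa)
      have hwt : c < D.t w := by
        by_contra hle
        exact hwA ⟨hw01, not_lt.1 hle⟩
      have h2 := hd hw01 (by
        rw [Real.dist_eq, abs_of_nonpos (by linarith)]
        have := le_max_right (a / 2) (a - δ / 2)
        rw [← hw] at this
        linarith)
      rw [Real.dist_eq, abs_lt] at h1 h2
      have h3 := hfar v hv.1
      have h4 := hfar w hw01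
      rw [abs_of_nonpos (by linarith [hv.2])] at h3
      rw [abs_of_pos (by linarith)] at h4
      have h5 := hfar a ⟨ha0, ha1⟩
      rcases le_total (D.t a) c with h6 | h6
      · rw [abs_of_nonpos (by linarith)] at h5
        linarith
      · rw [abs_of_nonneg (by linarith)] at h5
        linarith
    obtain ⟨q, hq⟩ := hrat
    refine ⟨1 - q, ?_⟩
    rw [hvol, ENNReal.toReal_ofReal (by linarith), hq]
    push_cast
    rfl

theorem le_t0 : ∀ x ∈ D.K, x ≤ D.t 0 := by
  have h : D.K ⊆ Iic (D.t 0) := by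
    apply closure_minimal _ isClosed_Iic
    rintro _ ⟨u, hu, rfl⟩
    exact D.anti ⟨le_rfl, zero_le_one⟩ hu hu.1
  exact fun x hx => h hx

theorem half_mem (i : ℕ) : ((1 : ℝ) / 2) ^ i ∈ Icc (0 : ℝ) 1 :=
  ⟨by positivity, pow_le_one₀ (by norm_num) (by norm_num)⟩

/-- gap end points -/
noncomputable def b (n : ℕ) : ℝ := D.t ((1 / 2) ^ (n + 1))

theorem b_mem (n : ℕ) : D.b n ∈ D.K := D.t_mem_K (half_mem _)

theorem b_ne (n : ℕ) : D.b n ≠ D.t 0 := by
  obtain ⟨η, hη, h⟩ := D.jump (n + 1) (by omega)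
  have := h 0 ⟨le_rfl, zero_le_one⟩ ((1 / 2) ^ (n + 1)) (half_mem _) (by positivity) le_rfl
  unfold b
  intro hcon
  rw [hcon] at this
  linarith

theorem b_not_interior (n : ℕ) : D.b n ∉ interior D.K := by
  obtain ⟨η, hη, h⟩ := D.jump (n + 1) (by omega)
  intro hcon
  rw [mem_interior_iff_mem_nhds, Metric.mem_nhds_iff] at hcon
  obtain ⟨ε, hε, hball⟩ := hcon
  have hdis : Disjoint (Ioo (D.b n) (D.b n + η)) D.K := by
    unfold K
    apply Disjoint.closure_right _ isOpen_Ioo
    rw [Set.disjoint_left]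
    rintro _ hy ⟨u, hu, rfl⟩
    rcases lt_or_ge u ((1 / 2) ^ (n + 1)) with h1 | h1
    · have h2 := h u hu ((1 / 2) ^ (n + 1)) (half_mem _) h1 le_rfl
      have h3 := hy.2
      unfold b at h3
      linarith
    · have h2 := D.anti (half_mem _) hu h1
      have h3 := hy.1
      unfold b at h3
      linarith
  set x := D.b n + min (ε / 2) (η / 2) with hx
  have h1 : 0 < min (ε / 2) (η / 2) := by positivity
  have h2 : min (ε / 2) (η / 2) ≤ ε / 2 := min_le_left _ _
  have h3 : min (ε / 2) (η / 2) ≤ η / 2 := min_le_right _ _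
  have hxK : x ∈ D.K := by
    apply hball
    rw [Metric.mem_ball, Real.dist_eq, abs_of_nonneg (by linarith)]
    linarith
  exact Set.disjoint_left.1 hdis ⟨by linarith, by linarith⟩ hxK

theorem half_tendsto : Tendsto (fun n : ℕ => ((1 : ℝ) / 2) ^ (n + 1)) atTop (𝓝 0) :=
  (tendsto_add_atTop_iff_nat 1).2
    (tendsto_pow_atTop_nhds_zero_of_lt_one (by norm_num) (by norm_num))

theorem cont_zero : ContinuousWithinAt D.t (Icc 0 1) 0 :=
  D.cont 0 ⟨le_rfl, zero_le_one⟩ fun i _ hi => by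
    have : (0 : ℝ) < (1 / 2) ^ i := by positivity
    linarith

theorem b_tendsto : Tendsto D.b atTop (𝓝 (D.t 0)) := by
  have h1 : Tendsto (fun n : ℕ => ((1 : ℝ) / 2) ^ (n + 1)) atTop (𝓝[Icc 0 1] 0) :=
    tendsto_nhdsWithin_iff.2 ⟨half_tendsto, Eventually.of_forall fun n => half_mem _⟩
  exact D.cont_zero.tendsto.comp h1

/-- the part of `K` coming from parameters at least `2^{-i}` is a finite union of intervals -/
theorem finite_union (i : ℕ) : ∃ E : Finset (ℝ × ℝ),
    closure (D.t '' Icc ((1 / 2) ^ i) 1) = ⋃ p ∈ E, Icc p.1 p.2 := by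
  induction i with
  | zero =>
    refine ⟨{(D.t 1, D.t 1)}, ?_⟩
    simp
  | succ i ih =>
    obtain ⟨E, hE⟩ := ih
    set A := D.t '' Ioo ((1 / 2) ^ (i + 1)) ((1 / 2) ^ i) with hA
    have hlt : ((1 : ℝ) / 2) ^ (i + 1) < (1 / 2) ^ i := by
      rw [pow_succ]
      have : (0 : ℝ) < (1 / 2) ^ i := by positivity
      linarith
    have hsub : Ioo (((1 : ℝ) / 2) ^ (i + 1)) ((1 / 2) ^ i) ⊆ Icc 0 1 := fun u hu =>
      ⟨(half_mem _).1.trans hu.1.le, hu.2.le.trans (half_mem _).2⟩
    have hAne : A.Nonempty := (nonempty_Ioo.2 hlt).image _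
    have hcontA : ContinuousOn D.t (Ioo ((1 / 2) ^ (i + 1)) ((1 / 2) ^ i)) := by
      intro u hu
      refine (D.cont u (hsub hu) fun k hk hcon => ?_).mono hsub
      rw [hcon] at hu
      have h1 := hu.1
      have h2 := hu.2
      have hk1 : i < k := by
        by_contra hle
        rw [not_lt] at hle
        exact absurd (pow_le_pow_of_le_one (by norm_num : (0 : ℝ) ≤ 1 / 2) (by norm_num) hle)
          (not_le.2 h2)
      have hk2 : k < i + 1 := by
        by_contra hle
        rw [not_lt] at hle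
        exact absurd (pow_le_pow_of_le_one (by norm_num : (0 : ℝ) ≤ 1 / 2) (by norm_num) hle)
          (not_le.2 h1)
      omega
    have hApre : IsPreconnected A := isPreconnected_Ioo.image _ hcontA
    have hAcl : IsConnected (closure A) := ⟨hAne.closure, hApre.closure⟩
    have hAsub : closure A ⊆ D.K := closure_mono (image_mono hsub)
    have hAcomp : IsCompact (closure A) := D.K_compact.of_isClosed_subset isClosed_closure hAsub
    have hAIcc := eq_Icc_of_connected_compact hAcl hAcomp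
    have hdecomp : Icc (((1 : ℝ) / 2) ^ (i + 1)) 1 =
        {(1 / 2) ^ (i + 1)} ∪ (Ioo ((1 / 2) ^ (i + 1)) ((1 / 2) ^ i) ∪ Icc ((1 / 2) ^ i) 1) := by
      ext u
      constructor
      · rintro ⟨h1, h2⟩
        rcases h1.lt_or_eq with h3 | h3
        · right
          rcases lt_or_ge u ((1 / 2) ^ i) with h4 | h4
          · left; exact ⟨h3, h4⟩
          · right; exact ⟨h4, h2⟩
        · left; exact h3.symm
      · rintro (h | h | h)
        · rw [mem_singleton_iff] at h
          rw [h]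
          exact ⟨le_rfl, (half_mem _).2⟩
        · exact ⟨h.1.le, (hsub h).2⟩
        · exact ⟨hlt.le.trans h.1, h.2⟩
    refine ⟨insert (D.t ((1 / 2) ^ (i + 1)), D.t ((1 / 2) ^ (i + 1)))
      (insert (sInf (closure A), sSup (closure A)) E), ?_⟩
    rw [hdecomp, image_union, image_union, closure_union, closure_union, hE, image_singleton,
      closure_singleton, Finset.set_biUnion_insert, Finset.set_biUnion_insert]
    simp only [Icc_self]
    rw [← hAIcc]

theorem local_structure : ∀ x ∈ D.K, x ≠ D.t 0 →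
    ∃ U ∈ 𝓝 x, ∀ y ∈ U, y ∈ D.K → y ≠ x → y ∈ interior D.K := by
  intro x hx hxne
  have hxlt : x < D.t 0 := lt_of_le_of_ne (D.le_t0 x hx) hxne
  obtain ⟨n, hn⟩ := (D.b_tendsto.eventually_const_lt hxlt).exists
  obtain ⟨E, hE⟩ := D.finite_union (n + 1)
  have hsub : ∀ y ∈ D.K, y < D.b n → y ∈ closure (D.t '' Icc ((1 / 2) ^ (n + 1)) 1) := by
    intro y hy hyb
    have h1 : y ∈ closure (D.t '' Icc 0 1 ∩ Iio (D.b n)) :=
      (isOpen_Iio (a := D.b n)).closure_inter ⟨hy, hyb⟩
    refine closure_mono ?_ h1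
    rintro _ ⟨⟨u, hu, rfl⟩, hub⟩
    refine ⟨u, ⟨?_, hu.2⟩, rfl⟩
    by_contra hcon
    rw [not_le] at hcon
    exact absurd (D.anti hu (half_mem _) hcon.le) (not_le.2 hub)
  set pts : Finset ℝ := (E.image Prod.fst ∪ E.image Prod.snd).erase x with hpts
  refine ⟨Iio (D.b n) ∩ (pts : Set ℝ)ᶜ, inter_mem (isOpen_Iio.mem_nhds hn)
    (pts.finite_toSet.isClosed.isOpen_compl.mem_nhds (by simp [hpts])), ?_⟩
  rintro y ⟨hyb, hypts⟩ hyK hyx
  have h1 := hsub y hyK hyb
  rw [hE, mem_iUnion₂] at h1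
  obtain ⟨p, hp, hyp⟩ := h1
  have hne1 : p.1 ≠ y := by
    intro h
    apply hypts
    rw [hpts, Finset.coe_erase]
    refine ⟨?_, hyx⟩
    rw [Finset.mem_coe, Finset.mem_union, Finset.mem_image]
    left; exact ⟨p, hp, h⟩
  have hne2 : y ≠ p.2 := by
    intro h
    apply hypts
    rw [hpts, Finset.coe_erase]
    refine ⟨?_, hyx⟩
    rw [Finset.mem_coe, Finset.mem_union, Finset.mem_image, Finset.mem_image]
    right; exact ⟨p, hp, h.symm⟩
  have hyIoo : y ∈ Ioo p.1 p.2 := ⟨lt_of_le_of_ne hyp.1 hne1, lt_of_le_of_ne hyp.2 hne2⟩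
  have hIK : Icc p.1 p.2 ⊆ D.K := by
    have h2 : Icc p.1 p.2 ⊆ closure (D.t '' Icc ((1 / 2) ^ (n + 1)) 1) := by
      rw [hE]
      exact subset_iUnion₂ (s := fun (p : ℝ × ℝ) (_ : p ∈ E) => Icc p.1 p.2) p hp
    refine h2.trans (closure_mono (image_mono ?_))
    exact Icc_subset_Icc_left (half_mem _).1
  exact interior_mono hIK (by rw [interior_Icc]; exact hyIoo)

end LD

end Pool.Agent.Helper50.Gaps
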