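import Mathlib
import Pool.Agent.Helper50.Gaps.KSet2

set_option autoImplicit false

namespace Pool.Agent.Helper50.Gaps

open Set Real Filter Topology MeasureTheory
open scoped ENNReal

namespace LD

variable (D : LD)

theorem pot_all (z : ℂ) : Integrable (fun y : ℝ => Real.log ‖z - y‖) D.mu ∧
    ∫ y, Real.log ‖z - y‖ ∂D.mu = D.g z - Real.log 2 := by
  have hm : Measurable fun y : ℝ => Real.log ‖z - y‖ := by fun_prop
  by_cases hz : z.im = 0
  · have hre : z = ((z.re : ℝ) : ℂ) := Complex.ext rfl (by simpa using hz)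
    have e : (fun y : ℝ => Real.log ‖z - y‖) = fun y : ℝ => Real.log |z.re - y| := by
      funext y
      rw [hre, ← Complex.ofReal_sub, Complex.norm_real, Real.norm_eq_abs, Complex.ofReal_re]
    rw [e]
    have := D.pot_mu z.re
    rwa [← hre] at this
  · constructor
    · exact D.integrable_mu hm (D.pot_lam hz).1
    · rw [D.integral_mu hm]; exact (D.pot_lam hz).2

theorem ae_mem_K : ∀ᵐ x ∂D.mu, x ∈ D.K := by
  rw [ae_iff]; exact D.mu_K

theorem imageK_closed : IsClosed (Complex.ofReal '' D.K) :=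
  (D.K_compact.image Complex.continuous_ofReal).isClosed

theorem harmonic {z0 : ℂ} (hz0 : z0 ∉ Complex.ofReal '' D.K) :
    InnerProductSpace.HarmonicAt D.g z0 := by
  obtain ⟨ρ, hρ, hball⟩ := Metric.isOpen_iff.1 D.imageK_closed.isOpen_compl z0 hz0
  have hdist : ∀ x ∈ D.K, ρ ≤ ‖z0 - x‖ := by
    intro x hx
    by_contra hlt
    rw [not_le] at hlt
    apply hball (show (x : ℂ) ∈ Metric.ball z0 ρ by
      rw [Metric.mem_ball, dist_comm, dist_eq_norm]; exact hlt)
    exact ⟨x, hx, rfl⟩
  set s : Set ℂ := Metric.ball z0 (ρ / 2) with hs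
  have hnear : ∀ z ∈ s, ‖z - z0‖ < ρ / 2 := fun z hz => by
    rwa [hs, Metric.mem_ball, dist_eq_norm] at hz
  have hne0 : ∀ x ∈ D.K, z0 - x ≠ 0 := by
    intro x hx h
    have := hdist x hx
    rw [h, norm_zero] at this
    linarith
  have hlow : ∀ z ∈ s, ∀ x ∈ D.K, ρ / 2 ≤ ‖z - x‖ := by
    intro z hz x hx
    have h1 := hdist x hx
    have h2 := hnear z hz
    have h3 : ‖z0 - x‖ ≤ ‖z - x‖ + ‖z - z0‖ := by
      calc ‖z0 - x‖ = ‖(z - x) - (z - z0)‖ := by ring_nf
        _ ≤ _ := norm_sub_le _ _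
    linarith
  have hone : ∀ z ∈ s, ∀ x ∈ D.K, ‖(z - x) / (z0 - x) - 1‖ ≤ 1 / 2 := by
    intro z hz x hx
    have h0 := hne0 x hx
    have e : (z - x) / (z0 - x) - 1 = (z - z0) / (z0 - x) := by
      field_simp
      ring
    have h1 := hdist x hx
    have h2 := hnear z hz
    rw [e, norm_div, div_le_iff₀ (by linarith)]
    linarith
  have hslit : ∀ z ∈ s, ∀ x ∈ D.K, (z - x) / (z0 - x) ∈ Complex.slitPlane := by
    intro z hz x hx
    left
    have h1 := hone z hz x hx
    have h2 := (Complex.abs_re_le_norm ((z - x) / (z0 - x) - 1)).trans h1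
    rw [Complex.sub_re, Complex.one_re, abs_le] at h2
    linarith [h2.1]
  set F : ℂ → ℝ → ℂ := fun z x => Complex.log ((z - x) / (z0 - x)) with hF
  have hFmeas : ∀ z, AEStronglyMeasurable (F z) D.mu := by
    intro z
    have : Measurable (F z) := by
      simp only [hF]
      exact Complex.measurable_log.comp (by fun_prop)
    exact this.aestronglyMeasurable
  have hFint : ∀ z ∈ s, Integrable (F z) D.mu := by
    intro z hz
    refine Integrable.of_bound (hFmeas z) (Real.log 2 + π) ?_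
    filter_upwards [D.ae_mem_K] with x hx
    simp only [hF]
    set w := (z - x) / (z0 - x) with hw
    have h1 := hone z hz x hx
    rw [← hw] at h1
    have h2 : ‖w‖ ≤ 2 := by
      calc ‖w‖ = ‖(w - 1) + 1‖ := by ring_nf
        _ ≤ ‖w - 1‖ + ‖(1 : ℂ)‖ := norm_add_le _ _
        _ ≤ 2 := by rw [norm_one]; linarith
    have h3 : 1 / 2 ≤ ‖w‖ := by
      have : ‖(1 : ℂ)‖ ≤ ‖w‖ + ‖w - 1‖ := by
        calc ‖(1 : ℂ)‖ = ‖w - (w - 1)‖ := by ring_nf
          _ ≤ _ := norm_sub_le _ _
      rw [norm_one] at this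
      linarith
    have h4 : |Real.log ‖w‖| ≤ Real.log 2 := by
      rw [abs_le]
      constructor
      · have := Real.log_le_log (by norm_num) h3
        rw [one_div, Real.log_inv] at this
        exact this
      · exact Real.log_le_log (by linarith) h2
    have h5 : Complex.log w = ((Real.log ‖w‖ : ℝ) : ℂ) + ((Complex.arg w : ℝ) : ℂ) * Complex.I := rfl
    rw [h5]
    refine (norm_add_le _ _).trans ?_
    rw [norm_mul, Complex.norm_I, mul_one, Complex.norm_real, Complex.norm_real,
      Real.norm_eq_abs, Real.norm_eq_abs]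
    exact add_le_add h4 (Complex.abs_arg_le_pi w)
  have hderiv : ∀ z ∈ s, HasDerivAt (fun z => ∫ x, F z x ∂D.mu)
      (∫ x : ℝ, (z - x)⁻¹ ∂D.mu) z := by
    intro z hz
    have hsz : s ∈ 𝓝 z := Metric.isOpen_ball.mem_nhds hz
    refine (hasDerivAt_integral_of_dominated_loc_of_deriv_le (F' := fun (z : ℂ) (x : ℝ) => (z - x)⁻¹)
      (bound := fun _ => 2 / ρ) hsz (Eventually.of_forall fun z => hFmeas z) (hFint z hz) ?_ ?_
      (integrable_const _) ?_).2
    · have : Measurable fun x : ℝ => (z - x)⁻¹ := by fun_prop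
      exact this.aestronglyMeasurable
    · filter_upwards [D.ae_mem_K] with x hx y hy
      have h1 := hlow y hy x hx
      rw [norm_inv, inv_le_comm₀ (by linarith) (by positivity)]
      rw [inv_div]
      exact h1
    · filter_upwards [D.ae_mem_K] with x hx y hy
      have h0 := hne0 x hx
      have h1 : HasDerivAt (fun z : ℂ => (z - x) / (z0 - x)) (1 / (z0 - x)) y :=
        ((hasDerivAt_id y).sub_const _).div_const _
      have h2 := h1.clog (hslit y hy x hx)
      refine h2.congr_deriv ?_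
      have h3 : y - (x : ℂ) ≠ 0 := by
        intro h
        have := hlow y hy x hx
        rw [h, norm_zero] at this
        linarith
      field_simp
  have han : AnalyticAt ℂ (fun z => ∫ x, F z x ∂D.mu) z0 := by
    have hd : DifferentiableOn ℂ (fun z => ∫ x, F z x ∂D.mu) s := fun z hz =>
      (hderiv z hz).differentiableAt.differentiableWithinAt
    exact hd.analyticAt (Metric.ball_mem_nhds z0 (by positivity))
  have heq : ∀ z ∈ s, D.g z = D.g z0 + (∫ x, F z x ∂D.mu).re := by
    intro z hz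
    have h1 := (D.pot_all z)
    have h2 := (D.pot_all z0)
    have h3 : (∫ x, F z x ∂D.mu).re = ∫ x, (F z x).re ∂D.mu :=
      ((Complex.reCLM).integral_comp_comm (hFint z hz)).symm
    have h4 : ∫ x, (F z x).re ∂D.mu =
        ∫ x : ℝ, (Real.log ‖z - x‖ - Real.log ‖z0 - x‖) ∂D.mu := by
      apply integral_congr_ae
      filter_upwards [D.ae_mem_K] with x hx
      simp only [hF]
      rw [Complex.log_re, norm_div, Real.log_div]
      · have := hlow z hz x hx
        linarith
      · exact norm_ne_zero_iff.2 (hne0 x hx)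
    rw [h3, h4, integral_sub h1.1 h2.1, h1.2, h2.2]
    ring
  have hharm : InnerProductSpace.HarmonicAt
      (fun z => D.g z0 + (∫ x, F z x ∂D.mu).re) z0 :=
    (InnerProductSpace.harmonicAt_const (D.g z0)).add han.harmonicAt_re
  refine (InnerProductSpace.harmonicAt_congr_nhds ?_).2 hharm
  filter_upwards [Metric.ball_mem_nhds z0 (by positivity : 0 < ρ / 2)] with z hz
  exact heq z hz

/-- behaviour at infinity -/
theorem growth : Tendsto (fun z : ℂ => D.g z - Real.log ‖z‖) (cocompact ℂ) (𝓝 (Real.log 2)) := by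
  have hnorm : Tendsto (fun z : ℂ => ‖z‖) (cocompact ℂ) atTop := tendsto_norm_cocompact_atTop
  have hsmall : Tendsto (fun z : ℂ => 2 / ‖z‖) (cocompact ℂ) (𝓝 0) :=
    hnorm.const_div_atTop 2
  have hup : Tendsto (fun z : ℂ => Real.log 2 + Real.log (1 + 2 / ‖z‖)) (cocompact ℂ)
      (𝓝 (Real.log 2)) := by
    have h1 : Tendsto (fun z : ℂ => Real.log (1 + 2 / ‖z‖)) (cocompact ℂ)
        (𝓝 (Real.log (1 + 0))) := (hsmall.const_add 1).log (by norm_num)
    have h2 := h1.const_add (Real.log 2)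
    simpa using h2
  have hlo : Tendsto (fun z : ℂ => Real.log 2 + Real.log (1 - 2 / ‖z‖)) (cocompact ℂ)
      (𝓝 (Real.log 2)) := by
    have h1 : Tendsto (fun z : ℂ => Real.log (1 - 2 / ‖z‖)) (cocompact ℂ)
        (𝓝 (Real.log (1 - 0))) := (hsmall.const_sub 1).log (by norm_num)
    have h2 := h1.const_add (Real.log 2)
    simpa using h2
  have hval : ∀ z : ℂ, 4 ≤ ‖z‖ → D.g z - Real.log ‖z‖ - Real.log 2 =
      ∫ x : ℝ, (Real.log ‖z - x‖ - Real.log ‖z‖) ∂D.mu := by
    intro z _
    rw [integral_sub (D.pot_all z).1 (integrable_const _), (D.pot_all z).2]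
    simp
    ring
  have hbounds : ∀ z : ℂ, 4 ≤ ‖z‖ → ∀ᵐ x : ℝ ∂D.mu,
      Real.log (1 - 2 / ‖z‖) ≤ Real.log ‖z - x‖ - Real.log ‖z‖ ∧
      Real.log ‖z - x‖ - Real.log ‖z‖ ≤ Real.log (1 + 2 / ‖z‖) := by
    intro z hz
    filter_upwards [D.ae_mem_K] with x hx
    have hx2 : ‖(x : ℂ)‖ ≤ 2 := by
      rw [Complex.norm_real, Real.norm_eq_abs]; exact D.K_bd x hx
    have hz0 : 0 < ‖z‖ := by linarith
    have h1 : ‖z‖ - 2 ≤ ‖z - x‖ := by
      have := norm_sub_norm_le z (x : ℂ)
      linarith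
    have h2 : ‖z - x‖ ≤ ‖z‖ + 2 := (norm_sub_le _ _).trans (by linarith)
    have e1 : 1 - 2 / ‖z‖ = (‖z‖ - 2) / ‖z‖ := by field_simp
    have e2 : 1 + 2 / ‖z‖ = (‖z‖ + 2) / ‖z‖ := by field_simp
    constructor
    · rw [e1, Real.log_div (by linarith) hz0.ne']
      have := Real.log_le_log (by linarith) h1
      linarith
    · rw [e2, Real.log_div (by linarith) hz0.ne']
      have := Real.log_le_log (by linarith) h2
      linarith
  have hev : ∀ᶠ z : ℂ in cocompact ℂ, 4 ≤ ‖z‖ := hnorm.eventually_ge_atTop 4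
  refine tendsto_of_tendsto_of_tendsto_of_le_of_le' hlo hup ?_ ?_
  · filter_upwards [hev] with z hz
    have h1 : Integrable (fun x : ℝ => Real.log ‖z - x‖ - Real.log ‖z‖) D.mu :=
      (D.pot_all z).1.sub (integrable_const _)
    have h2 : ∫ _x : ℝ, Real.log (1 - 2 / ‖z‖) ∂D.mu ≤
        ∫ x : ℝ, (Real.log ‖z - x‖ - Real.log ‖z‖) ∂D.mu := by
      refine integral_mono_ae (integrable_const _) h1 ?_
      filter_upwards [hbounds z hz] with x hx using hx.1
    rw [← hval z hz] at h2
    simp only [integral_const, probReal_univ, smul_eq_mul, one_mul] at h2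
    linarith
  · filter_upwards [hev] with z hz
    have h1 : Integrable (fun x : ℝ => Real.log ‖z - x‖ - Real.log ‖z‖) D.mu :=
      (D.pot_all z).1.sub (integrable_const _)
    have h2 : ∫ x : ℝ, (Real.log ‖z - x‖ - Real.log ‖z‖) ∂D.mu ≤
        ∫ _x : ℝ, Real.log (1 + 2 / ‖z‖) ∂D.mu := by
      refine integral_mono_ae h1 (integrable_const _) ?_
      filter_upwards [hbounds z hz] with x hx using hx.2
    rw [← hval z hz] at h2
    simp only [integral_const, probReal_univ, smul_eq_mul, one_mul] at h2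
    linarith

end LD

end Pool.Agent.Helper50.Gaps
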