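import Mathlib

set_option autoImplicit false

namespace Pool.Agent.Helper50.Gaps

open Set Real Filter Topology Polynomial

/-- Obstruction: such a real compact set is not a polynomial preimage. -/
theorem not_preimage {K : Set ℝ} {p : ℝ} (hpK : p ∈ K) (hmax : ∀ x ∈ K, x ≤ p)
    (b : ℕ → ℝ) (hbK : ∀ n, b n ∈ K) (hbp : ∀ n, b n ≠ p) (hbint : ∀ n, b n ∉ interior K)
    (hblim : Tendsto b atTop (𝓝 p))
    (hloc : ∀ x ∈ K, x ≠ p → ∃ U ∈ 𝓝 x, ∀ y ∈ U, y ∈ K → y ≠ x → y ∈ interior K)
    (F : ℂ[X]) (hF : 2 ≤ F.natDegree) (K₁ : Set ℂ) :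
    ¬ ∀ z : ℂ, F.eval z ∈ K₁ ↔ z ∈ Complex.ofReal '' K := by
  intro H
  have hmemK : ∀ x : ℝ, (x : ℂ) ∈ Complex.ofReal '' K ↔ x ∈ K := by
    intro x
    constructor
    · rintro ⟨y, hy, hxy⟩
      have := Complex.ofReal_injective hxy
      rwa [← this]
    · exact fun h => ⟨x, h, rfl⟩
  set w1 := F.eval (p : ℂ) with hw1
  have hw1K : w1 ∈ K₁ := (H p).2 ((hmemK p).2 hpK)
  set G : ℂ[X] := F - C w1 with hG
  have hGdeg : G.natDegree = F.natDegree := by rw [hG, Polynomial.natDegree_sub_C]
  have hG0 : G ≠ 0 := by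
    intro h; rw [h, Polynomial.natDegree_zero] at hGdeg; omega
  have hGlead : G.leadingCoeff ≠ 0 := Polynomial.leadingCoeff_ne_zero.2 hG0
  have hroots_mem : ∀ r ∈ G.roots, r ∈ Complex.ofReal '' K := by
    intro r hr
    rw [Polynomial.mem_roots hG0, Polynomial.IsRoot.def, hG, Polynomial.eval_sub,
      Polynomial.eval_C, sub_eq_zero] at hr
    rw [← H r, hr]
    exact hw1K
  have hcard : Multiset.card G.roots = G.natDegree :=
    (Polynomial.splits_iff_card_roots.1 (IsAlgClosed.splits G))
  set m : Multiset ℝ := G.roots.map Complex.re with hm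
  have hmcard : Multiset.card m = F.natDegree := by
    rw [hm, Multiset.card_map, hcard, hGdeg]
  have hmK : ∀ q ∈ m, q ∈ K := by
    intro q hq
    rw [hm, Multiset.mem_map] at hq
    obtain ⟨r, hr, rfl⟩ := hq
    obtain ⟨y, hy, rfl⟩ := hroots_mem r hr
    simpa using hy
  set R : ℝ[X] := (m.map fun a => X - C a).prod with hR
  have hRmonic : R.Monic := Polynomial.monic_multisetProd_X_sub_C m
  have hRdeg : R.natDegree = F.natDegree := by
    rw [hR, Polynomial.natDegree_multiset_prod_X_sub_C_eq_card, hmcard]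
  have hR0 : R ≠ 0 := hRmonic.ne_zero
  have hRmap : R.map Complex.ofRealHom = (G.roots.map fun a => X - C a).prod := by
    rw [hR, Polynomial.map_multiset_prod, Multiset.map_map, hm, Multiset.map_map]
    congr 1
    refine Multiset.map_congr rfl fun r hr => ?_
    obtain ⟨y, hy, rfl⟩ := hroots_mem r hr
    simp
  have hfac : ∀ z : ℂ, F.eval z - w1 = G.leadingCoeff * (R.map Complex.ofRealHom).eval z := by
    intro z
    have h1 := Polynomial.C_leadingCoeff_mul_prod_multiset_X_sub_C hcard
    rw [← hRmap] at h1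
    have h2 := congrArg (Polynomial.eval z) h1
    rw [Polynomial.eval_mul, Polynomial.eval_C] at h2
    rw [h2, hG, Polynomial.eval_sub, Polynomial.eval_C]
  set Rc : ℂ → ℂ := fun z => (R.map Complex.ofRealHom).eval z with hRc
  have hRcreal : ∀ x : ℝ, Rc x = ((R.eval x : ℝ) : ℂ) := by
    intro x
    simp only [hRc]
    exact Polynomial.eval_map_apply Complex.ofRealHom x
  -- saturation
  have hstar : ∀ x ∈ K, ∀ z : ℂ, Rc z = ((R.eval x : ℝ) : ℂ) → z ∈ Complex.ofReal '' K := by
    intro x hx z hz
    rw [← hRcreal] at hz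
    have h1 := hfac z
    have h2 := hfac x
    simp only [hRc] at hz
    rw [hz, ← h2] at h1
    have h3 : F.eval z = F.eval (x : ℂ) := sub_left_injective h1
    rw [← H z, h3, H]
    exact (hmemK x).2 hx
  have hstarR : ∀ x ∈ K, ∀ z : ℝ, R.eval z = R.eval x → z ∈ K := by
    intro x hx z hz
    rw [← hmemK]
    apply hstar x hx
    rw [hRcreal, hz]
  have hRp : R.eval p = 0 := by
    have h1 := hfac p
    rw [← hw1, sub_self] at h1
    have h2 : Rc p = 0 := by
      rcases mul_eq_zero.1 h1.symm with h | h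
      · exact absurd h hGlead
      · exact h
    rw [hRcreal] at h2
    exact_mod_cast h2
  have hRb : ∀ᶠ n in atTop, R.eval (b n) ≠ 0 := by
    have hfin : (R.roots.toFinset.erase p : Set ℝ)ᶜ ∈ 𝓝 p := by
      apply (R.roots.toFinset.erase p).finite_toSet.isClosed.isOpen_compl.mem_nhds
      simp
    filter_upwards [hblim hfin] with n hn hcon
    apply hn
    simp only [Finset.coe_erase, Set.mem_sdiff, SetLike.mem_coe, Multiset.mem_toFinset, mem_singleton_iff]
    exact ⟨(Polynomial.mem_roots hR0).2 hcon, hbp n⟩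
  -- step 2
  have hall : ∀ q ∈ m, q = p := by
    intro q hq
    by_contra hqp
    have hqK := hmK q hq
    have hRq : R.eval q = 0 := by
      have : q ∈ R.roots := by rw [hR, Polynomial.roots_multiset_prod_X_sub_C]; exact hq
      exact (Polynomial.mem_roots hR0).1 this
    obtain ⟨U, hU, hUprop⟩ := hloc q hqK hqp
    have hR'0 : R.derivative ≠ 0 := by
      intro h
      have := Polynomial.derivative_eq_zero.1 h
      omega
    have hfin : (R.derivative.roots.toFinset.erase q : Set ℝ)ᶜ ∈ 𝓝 q := by
      apply (R.derivative.roots.toFinset.erase q).finite_toSet.isClosed.isOpen_compl.mem_nhds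
      simp
    set W : Set ℂ := Complex.re ⁻¹' (U ∩ (R.derivative.roots.toFinset.erase q : Set ℝ)ᶜ) with hW
    have hWmem : W ∈ 𝓝 (q : ℂ) := by
      apply Complex.continuous_re.continuousAt.preimage_mem_nhds
      rw [Complex.ofReal_re]
      exact inter_mem hU hfin
    have hopen : 𝓝 (Rc q) ≤ map Rc (𝓝 (q : ℂ)) := by
      have han : AnalyticAt ℂ Rc q := by
        simp only [hRc]
        exact (AnalyticOnNhd.eval_polynomial _) _ (mem_univ _)
      rcases han.eventually_constant_or_nhds_le_map_nhds with h | h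
      · exfalso
        have h1 : (R.map Complex.ofRealHom) = C (Rc q) := by
          apply Polynomial.eq_of_infinite_eval_eq
          apply infinite_of_mem_nhds (q : ℂ)
          filter_upwards [h] with z hz
          change (R.map Complex.ofRealHom).eval z = (C (Rc q)).eval z
          rw [Polynomial.eval_C]
          exact hz
        have h2 := congrArg Polynomial.natDegree h1
        rw [Polynomial.natDegree_C, Polynomial.natDegree_map, hRdeg] at h2
        omega
      · exact h
    have himg : Rc '' W ∈ 𝓝 (0 : ℂ) := by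
      have h1 : Rc q = 0 := by rw [hRcreal, hRq]; simp
      rw [← h1]
      exact hopen (image_mem_map hWmem)
    have hlimR : Tendsto (fun n => ((R.eval (b n) : ℝ) : ℂ)) atTop (𝓝 0) := by
      have h1 : Tendsto (fun n => R.eval (b n)) atTop (𝓝 (R.eval p)) :=
        (R.continuous.tendsto p).comp hblim
      rw [hRp] at h1
      have h2 := (Complex.continuous_ofReal.tendsto 0).comp h1
      rw [Complex.ofReal_zero] at h2
      exact h2
    obtain ⟨n, hn1, hn2⟩ := ((hlimR.eventually_mem himg).and hRb).exists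
    obtain ⟨z, hzW, hz⟩ := hn1
    obtain ⟨y, hyK, rfl⟩ := hstar (b n) (hbK n) z hz
    have hyU : y ∈ U := by
      have := hzW.1
      simpa using this
    have hyq : y ≠ q := by
      rintro rfl
      rw [hRcreal, hRq] at hz
      apply hn2
      exact_mod_cast hz.symm
    have hyint := hUprop y hyU hyK hyq
    have hR'y : R.derivative.eval y ≠ 0 := by
      intro h
      have h1 := hzW.2
      rw [Complex.ofReal_re] at h1
      apply h1
      simp only [Finset.coe_erase, Set.mem_sdiff, SetLike.mem_coe, Multiset.mem_toFinset,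
        mem_singleton_iff]
      exact ⟨(Polynomial.mem_roots hR'0).2 h, hyq⟩
    have hmapy : map (fun x => R.eval x) (𝓝 y) = 𝓝 (R.eval y) :=
      (R.hasStrictDerivAt y).map_nhds_eq hR'y
    have hRy : R.eval y = R.eval (b n) := by
      rw [hRcreal] at hz
      exact_mod_cast hz
    have hKy : K ∈ 𝓝 y := mem_interior_iff_mem_nhds.1 hyint
    have himgK : (fun x => R.eval x) '' K ∈ 𝓝 (R.eval (b n)) := by
      rw [← hRy, ← hmapy]
      exact image_mem_map hKy
    apply hbint n
    rw [mem_interior_iff_mem_nhds]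
    filter_upwards [R.continuous.continuousAt.preimage_mem_nhds himgK] with x hx
    obtain ⟨k, hkK, hk⟩ := hx
    exact hstarR k hkK x hk.symm
  -- step 3
  have hmrep : m = Multiset.replicate F.natDegree p := by
    rw [Multiset.eq_replicate]
    exact ⟨hmcard, hall⟩
  have hReq : R = (X - C p) ^ F.natDegree := by
    rw [hR, hmrep, Multiset.map_replicate, Multiset.prod_replicate]
  set d := F.natDegree with hd
  have hd0 : (d : ℂ) ≠ 0 := by
    have : d ≠ 0 := by omega
    exact_mod_cast this
  set θ : ℝ := 2 * π / d with hθ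
  set ω : ℂ := Complex.exp (θ * Complex.I) with hω
  have hωd : ω ^ d = 1 := by
    rw [hω, ← Complex.exp_nat_mul]
    have : (d : ℂ) * (θ * Complex.I) = 2 * π * Complex.I := by
      rw [hθ]; push_cast; field_simp
    rw [this, Complex.exp_two_pi_mul_I]
  have hb0 : b 0 < p := lt_of_le_of_ne (hmax _ (hbK 0)) (hbp 0)
  have hz : (p : ℂ) + ω * (b 0 - p) ∈ Complex.ofReal '' K := by
    apply hstar (b 0) (hbK 0)
    rw [← hRcreal]
    simp only [hRc]
    rw [hReq]
    simp only [Polynomial.map_pow, Polynomial.map_sub, Polynomial.map_X, Polynomial.map_C,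
      Polynomial.eval_pow, Polynomial.eval_sub, Polynomial.eval_X, Polynomial.eval_C,
      Complex.ofRealHom_eq_coe, add_sub_cancel_left]
    rw [mul_pow, hωd, one_mul]
  obtain ⟨y, hyK, hy⟩ := hz
  have hre := congrArg Complex.re hy
  have him := congrArg Complex.im hy
  have e1 : ω.re = Real.cos θ := by rw [hω, Complex.exp_ofReal_mul_I_re]
  have e2 : ω.im = Real.sin θ := by rw [hω, Complex.exp_ofReal_mul_I_im]
  have e3 : ((b 0 : ℂ) - p) = ((b 0 - p : ℝ) : ℂ) := by push_cast; ring
  rw [e3] at hre him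
  simp only [Complex.ofReal_re, Complex.ofReal_im, Complex.add_re, Complex.add_im, Complex.mul_re,
    Complex.mul_im, mul_zero, sub_zero, zero_add, e1, e2] at hre him
  have hsin : Real.sin θ = 0 := by
    have h1 : Real.sin θ * (b 0 - p) = 0 := by linarith
    rcases mul_eq_zero.1 h1 with h | h
    · exact h
    · exfalso; linarith
  have hpi := Real.pi_pos
  rcases (show d = 2 ∨ 3 ≤ d by omega) with h2 | h3
  · have hθπ : θ = π := by rw [hθ, h2]; push_cast; ring
    rw [hθπ, Real.cos_pi] at hre
    have := hmax y hyK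
    linarith
  · have h4 : (3 : ℝ) ≤ d := by exact_mod_cast h3
    have h5 : 0 < θ := by rw [hθ]; positivity
    have h6 : θ < π := by
      rw [hθ, div_lt_iff₀ (by linarith)]
      nlinarith
    have := Real.sin_pos_of_pos_of_lt_pi h5 h6
    linarith

end Pool.Agent.Helper50.Gaps
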