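import Mathlib
import Pool.Agent.Helper50.Gaps.Green
import Pool.Agent.Helper50.Gaps.Adm
import Pool.Agent.Helper50.Gaps.Obstr

set_option autoImplicit false

namespace Pool.Agent.Helper50.Gaps

open Set Real Filter Topology MeasureTheory Polynomial

namespace LD

variable (D : LD)

theorem nonPolar : IsNonPolar D.K :=
  ⟨D.mu, D.mu_equilibrium.1, D.mu_K, D.mu_equilibrium.2.2.1⟩

theorem regular : IsRegularSet D.K :=
  ⟨D.g, D.gc, fun _ hx => D.g_K hx, fun _ hz => D.harmonic hz, Real.log 2, D.growth⟩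

theorem rationalGaps : RationalGaps D.K :=
  ⟨D.mu, D.mu_equilibrium, D.mu_unique, fun _ hc => D.rational_gap hc⟩

theorem obstruction (F : ℂ[X]) (hF : 2 ≤ F.natDegree) (K₁ : Set ℂ) :
    ¬ ∀ z : ℂ, F.eval z ∈ K₁ ↔ z ∈ Complex.ofReal '' D.K :=
  not_preimage (D.t_mem_K (u := 0) ⟨le_rfl, zero_le_one⟩) D.le_t0 D.b D.b_mem D.b_ne
    D.b_not_interior D.b_tendsto D.local_structure F hF K₁

theorem not_julia (f : ℕ → ℂ[X]) (hf : ∀ n, 2 ≤ (f n).natDegree) :
    juliaSet f ≠ (fun z : ℂ => (z : OnePoint ℂ)) '' (Complex.ofReal '' D.K) := by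
  intro h
  apply D.obstruction (f 0) (hf 0)
    {w : ℂ | (w : OnePoint ℂ) ∈ juliaSet (fun k => f (k + 1))}
  intro z
  have h1 := mem_julia_iff f (by have := hf 0; omega) z
  rw [mem_ofPred_eq, h1, h]
  constructor
  · rintro ⟨y, hy, hyz⟩
    have : y = z := OnePoint.coe_injective hyz
    rwa [← this]
  · intro hz
    exact ⟨z, hz, rfl⟩

end LD

theorem iterPoly_succ (f : ℕ → ℝ[X]) (n : ℕ) :
    iterPoly f (n + 1) = (iterPoly (fun k => f (k + 1)) n).comp (f 0) := by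
  induction n with
  | zero => rfl
  | succ n ih =>
    change (f (n + 1 + 1)).comp (iterPoly f (n + 1)) = _
    rw [ih]
    change _ = ((f (n + 1 + 1)).comp (iterPoly (fun k => f (k + 1)) n)).comp (f 0)
    rw [Polynomial.comp_assoc]

namespace LD

variable (D : LD)

theorem not_complex_preimages (f : ℕ → ℝ[X]) (hf : ∀ n, 2 ≤ (f n).natDegree) :
    Complex.ofReal '' D.K ≠
      ⋂ n : ℕ, {z : ℂ | ∃ s ∈ Icc (-1 : ℝ) 1, aeval z (iterPoly f n) = (s : ℂ)} := by
  intro h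
  apply D.obstruction ((f 0).map Complex.ofRealHom)
    (by rw [Polynomial.natDegree_map]; exact hf 0)
    {w : ℂ | (∃ s ∈ Icc (-1 : ℝ) 1, w = (s : ℂ)) ∧ ∀ n : ℕ, ∃ s ∈ Icc (-1 : ℝ) 1,
      aeval w (iterPoly (fun k => f (k + 1)) n) = (s : ℂ)}
  intro z
  rw [h, ← aeval_eq_eval_map, mem_ofPred_eq, mem_iInter]
  have hcomp : ∀ n, aeval z (iterPoly f (n + 1)) =
      aeval (aeval z (f 0)) (iterPoly (fun k => f (k + 1)) n) := by
    intro n
    rw [iterPoly_succ, Polynomial.aeval_comp]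
  constructor
  · rintro ⟨h1, h2⟩ n
    rcases n with _ | n
    · exact h1
    · obtain ⟨s, hs, hs2⟩ := h2 n
      exact ⟨s, hs, by rw [hcomp]; exact hs2⟩
  · intro h1
    refine ⟨h1 0, fun n => ?_⟩
    obtain ⟨s, hs, hs2⟩ := h1 (n + 1)
    exact ⟨s, hs, by rw [← hcomp]; exact hs2⟩

theorem not_real_preimages (f : ℕ → ℝ[X]) (hf : ∀ n, Admissible (f n)) :
    D.K ≠ ⋂ n : ℕ, {x : ℝ | (iterPoly f n).eval x ∈ Icc (-1 : ℝ) 1} := by
  intro h
  apply D.obstruction ((f 0).map Complex.ofRealHom)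
    (by rw [Polynomial.natDegree_map]; exact (hf 0).1)
    {w : ℂ | ∃ s ∈ Icc (-1 : ℝ) 1, w = (s : ℂ) ∧ ∀ n : ℕ,
      (iterPoly (fun k => f (k + 1)) n).eval s ∈ Icc (-1 : ℝ) 1}
  intro z
  rw [h, ← aeval_eq_eval_map, mem_ofPred_eq]
  constructor
  · rintro ⟨s, hs, hs2, hs3⟩
    have him := (hf 0).real_preimage (abs_le.2 hs) hs2
    have hre : z = ((z.re : ℝ) : ℂ) := Complex.ext rfl (by simpa using him)
    rw [hre, aeval_real] at hs2
    have hs4 : (f 0).eval z.re = s := Complex.ofReal_injective hs2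
    refine ⟨z.re, ?_, hre.symm⟩
    rw [mem_iInter]
    intro n
    rw [mem_ofPred_eq]
    rcases n with _ | n
    · change (f 0).eval z.re ∈ _
      rw [hs4]
      exact hs
    · rw [iterPoly_succ, Polynomial.eval_comp, hs4]
      exact hs3 n
  · rintro ⟨x, hx, rfl⟩
    rw [mem_iInter] at hx
    refine ⟨(f 0).eval x, hx 0, aeval_real _ _, fun n => ?_⟩
    have h1 := hx (n + 1)
    rw [mem_ofPred_eq, iterPoly_succ, Polynomial.eval_comp] at h1
    exact h1

end LD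

end Pool.Agent.Helper50.Gaps
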